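import Pool.Agent.Lib.HLB.Bridge
import Pool.Agent.Lib.AS.Prop
import Pool.Agent.Lib.AS.Vino
import Pool.Agent.Lib.HL.PntAux
import Pool.Agent.Lib.HLB.T1Main
import Pool.Agent.Lib.HLC.MainK

/-!
# The Hardy-Littlewood lower bound with the sharp constant over the solutions of symmetric additive systems

`sol s Ψ A` is the set of the solutions of `Ψ(a_1) + … + Ψ(a_s) = Ψ(b_1) + … + Ψ(b_s)` in a finite set `A` of
non-negative integers, for an arbitrary function `Ψ` with values in an abelian group (a solution is a function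
`a : Fin s ⊕ Fin s → ℕ`, the two sides being `a (inl i)` and `a (inr i)`).

(i), (ii) As soon as `A` has `|A|^s (log x)^(s+ε')` solutions (the diagonal ones are about `|A|^s` in number), the
lower bound of the conjecture with the sharp constant holds on average over the solutions with distinct entries,
and the individual lower bound holds for a positive proportion of them. Weights are allowed.

(iii) For Vinogradov's system of degree `k` with `s > k(k+1)/2` the hypothesis holds for `A = {1, …, N}` as soon as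
`N ≥ (log x)^B`, `B (s - k(k+1)/2) > s`; the primes `n + a_l` then solve the same system.
-/

set_option autoImplicit false

open Finset Filter

namespace Pool.Agent.Results.MP_e87c7d_nt.AdditiveSystems

open Pool.Agent.HL Pool.Agent.HLB Pool.Agent.HLD Pool.Agent.Lib.Sieve4 Pool.Agent.NP Pool.Agent.AS

open scoped Classical in
theorem result :
    -- (i) the lower bound on average over the solutions
    (∀ s : ℕ, 1 ≤ s → ∀ ε ε' : ℝ, 0 < ε → 0 < ε' → ∀ K : ℕ, ∃ x₀ : ℕ, ∀ x : ℕ, x₀ ≤ x →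
      ∀ (G : Type) [AddCommGroup G] (Ψ : ℕ → G) (A : Finset ℕ) (w : ℕ → ℝ)
        (S : (Fin s ⊕ Fin s → ℕ) → ℝ),
        (∀ a ∈ A, (a : ℝ) ≤ x * Real.log x ^ K) → (∀ a ∈ A, 0 ≤ w a ∧ w a ≤ 1) →
        (∑ a ∈ A, w a) ^ s * Real.log x ^ ((s : ℝ) + ε') ≤ ∑ a ∈ sol s Ψ A, ∏ l, w (a l) →
        (∀ a ∈ (sol s Ψ A).filter Function.Injective,
          HasProd (fun p : Nat.Primes =>
            (1 - ((Finset.univ.image (fun l => (a l : ZMod p))).card : ℝ) / (p : ℝ)) *
              ((1 - 1 / (p : ℝ))⁻¹) ^ (2 * s)) (S a)) →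
        (1 - ε) * ((x / Real.log x ^ (2 * s)) *
            ∑ a ∈ (sol s Ψ A).filter Function.Injective, (∏ l, w (a l)) * S a)
          ≤ ∑ a ∈ (sol s Ψ A).filter Function.Injective, (∏ l, w (a l)) *
              (((Finset.Icc 1 x).filter (fun n : ℕ => ∀ l, (n + a l).Prime)).card : ℝ) ∧
        (1 - ε) * ((x / Real.log x ^ (2 * s)) * ∑ a ∈ sol s Ψ A, ∏ l, w (a l))
          ≤ ∑ a ∈ (sol s Ψ A).filter Function.Injective, (∏ l, w (a l)) *
              (((Finset.Icc 1 x).filter (fun n : ℕ => ∀ l, (n + a l).Prime)).card : ℝ)) ∧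
    -- (ii) the individual lower bound for a positive proportion of the solutions
    (∀ s : ℕ, 1 ≤ s → ∀ ρ : ℝ, ρ < 1 → ∃ δ : ℝ, 0 < δ ∧ ∀ ε' : ℝ, 0 < ε' → ∀ K : ℕ,
      ∃ x₀ : ℕ, ∀ x : ℕ, x₀ ≤ x →
      ∀ (G : Type) [AddCommGroup G] (Ψ : ℕ → G) (A : Finset ℕ) (w : ℕ → ℝ)
        (S : (Fin s ⊕ Fin s → ℕ) → ℝ),
        (∀ a ∈ A, (a : ℝ) ≤ x * Real.log x ^ K) → (∀ a ∈ A, 0 ≤ w a ∧ w a ≤ 1) →
        (∑ a ∈ A, w a) ^ s * Real.log x ^ ((s : ℝ) + ε') ≤ ∑ a ∈ sol s Ψ A, ∏ l, w (a l) →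
        (∀ a ∈ (sol s Ψ A).filter Function.Injective,
          HasProd (fun p : Nat.Primes =>
            (1 - ((Finset.univ.image (fun l => (a l : ZMod p))).card : ℝ) / (p : ℝ)) *
              ((1 - 1 / (p : ℝ))⁻¹) ^ (2 * s)) (S a)) →
        ∃ T ⊆ (sol s Ψ A).filter Function.Injective,
          (∀ a ∈ T, (∀ p : ℕ, p.Prime → (Finset.univ.image (fun l => (a l : ZMod p))).card < p) ∧
            0 < S a ∧ ρ * S a * (x / Real.log x ^ (2 * s))
              ≤ (((Finset.Icc 1 x).filter (fun n : ℕ => ∀ l, (n + a l).Prime)).card : ℝ)) ∧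
          δ * ∑ a ∈ (sol s Ψ A).filter Function.Injective, (∏ l, w (a l)) * S a
            ≤ ∑ a ∈ T, (∏ l, w (a l)) * S a ∧
          δ * ∑ a ∈ sol s Ψ A, ∏ l, w (a l) ≤ ∑ a ∈ T, (∏ l, w (a l)) * S a) ∧
    -- (iii) the hypothesis holds for Vinogradov's system in `{1, …, N}`, `N ≥ (log x)^B`, and the solutions of
    -- this system are invariant under translations
    (∀ s k : ℕ, 1 ≤ k → k * (k + 1) / 2 < s → ∀ B : ℝ, (s : ℝ) < B * ((s : ℝ) - k * (k + 1) / 2) →
      ∃ ε' : ℝ, 0 < ε' ∧ ∃ x₀ : ℕ, ∀ x : ℕ, x₀ ≤ x → ∀ N : ℕ, Real.log x ^ B ≤ N →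
        (∑ _a ∈ Finset.Icc 1 N, (1 : ℝ)) ^ s * Real.log x ^ ((s : ℝ) + ε')
          ≤ ∑ _a ∈ sol s (fun a (j : Fin k) => ((a : ℤ) ^ ((j : ℕ) + 1))) (Finset.Icc 1 N),
              ∏ _l : Fin s ⊕ Fin s, (1 : ℝ)) ∧
    (∀ (s k n : ℕ) (A : Finset ℕ),
      ∀ a ∈ sol s (fun a (j : Fin k) => ((a : ℤ) ^ ((j : ℕ) + 1))) A, ∀ j : ℕ, j ≤ k →
        ∑ i, (n + a (Sum.inl i)) ^ j = ∑ i, (n + a (Sum.inr i)) ^ j) := by
  have hSSI : ∀ (s : ℕ) (a : Fin s ⊕ Fin s → ℕ) (σ : ℝ), Function.Injective a →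
      HasProd (fun p : Nat.Primes =>
            (1 - ((Finset.univ.image (fun l => (a l : ZMod p))).card : ℝ) / (p : ℝ)) *
              ((1 - 1 / (p : ℝ))⁻¹) ^ (2 * s)) σ → σ = SI a := by
    intro s a σ ha h1
    have h2 := hasProd_SI a ha
    unfold locI nuI at h2
    rw [Fintype.card_sum, Fintype.card_fin, ← two_mul] at h2
    refine h1.unique ?_
    convert h2 using 6
  have himg : ∀ (s : ℕ) (a : Fin s ⊕ Fin s → ℕ) (p : ℕ),
      (Finset.univ.image (fun l => (a l : ZMod p))).card = nuI a p := by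
    intro s a p
    unfold nuI
    convert rfl
  refine ⟨?_, ?_, ?_, ?_⟩
  · intro s hs ε ε' hε hε' K
    obtain ⟨x₀, hx₀⟩ := eventually_atTop.mp (sol_lower sw_holds s K hs hε hε')
    refine ⟨x₀, fun x hx G _ Ψ A w S hA hw hJ hS => ?_⟩
    obtain ⟨h1, h2⟩ := hx₀ x hx G Ψ A w hA hw hJ
    refine ⟨?_, h2⟩
    refine le_trans (le_of_eq ?_) h1
    congr 2
    refine Finset.sum_congr rfl fun a ha => ?_
    rw [hSSI s a (S a) (mem_filter.mp ha).2 (hS a ha)]
  · intro s hs ρ hρ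
    set ρ' : ℝ := max ρ (1 / 2) with hρ'
    have hρ'0 : 0 < ρ' := lt_of_lt_of_le (by norm_num) (le_max_right _ _)
    obtain ⟨δ, hδ, hmain⟩ := sol_proportion sw_holds s hs (ρ := ρ') hρ'0
      (max_lt hρ (by norm_num))
    refine ⟨δ, hδ, fun ε' hε' K => ?_⟩
    obtain ⟨x₀, hx₀⟩ := eventually_atTop.mp (hmain ε' hε' K)
    refine ⟨x₀, fun x hx G _ Ψ A w S hA hw hJ hS => ?_⟩
    obtain ⟨T, hT, hTa, hT1, hT2⟩ := hx₀ x hx G Ψ A w hA hw hJ
    have hTinj : ∀ a ∈ T, Function.Injective a := fun a ha => (mem_filter.mp (hT ha)).2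
    have hTS : ∑ a ∈ T, (∏ l, w (a l)) * S a = ∑ a ∈ T, (∏ l, w (a l)) * SI a := by
      refine Finset.sum_congr rfl fun a ha => ?_
      rw [hSSI s a (S a) (hTinj a ha) (hS a (hT ha))]
    refine ⟨T, hT, fun a ha => ?_, ?_, ?_⟩
    · obtain ⟨hadm, hlow⟩ := hTa a ha
      have hcard : Fintype.card (Fin s ⊕ Fin s) = 2 * s := by
        rw [Fintype.card_sum, Fintype.card_fin]; ring
      have hpos : 0 < SI a := by
        refine lt_of_lt_of_le ?_ (c0_le_SI a (hTinj a ha) ?_ hadm)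
        · exact c0_pos _ (by rw [hcard]; omega)
        · rw [hcard]; omega
      rw [hSSI s a (S a) (hTinj a ha) (hS a (hT ha))]
      refine ⟨fun p hp => by rw [himg]; exact hadm p hp, hpos, ?_⟩
      refine le_trans ?_ hlow
      have hX : 0 ≤ (x:ℝ) / Real.log x ^ (2 * s) := by
        have := Real.log_natCast_nonneg x
        positivity
      have : ρ ≤ ρ' := le_max_left _ _
      gcongr
    · rw [hTS]
      refine le_trans (le_of_eq ?_) hT1
      congr 1
      refine Finset.sum_congr rfl fun a ha => ?_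
      rw [hSSI s a (S a) (mem_filter.mp ha).2 (hS a ha)]
    · rw [hTS]; exact hT2
  · intro s k hk hs B hB
    obtain ⟨ε', hε', hev⟩ := vino s k hk hs B hB
    obtain ⟨x₀, hx₀⟩ := eventually_atTop.mp hev
    refine ⟨ε', hε', x₀, fun x hx N hN => ?_⟩
    have h := hx₀ x hx N hN
    simp only [Finset.sum_const, Finset.prod_const_one, nsmul_eq_mul, mul_one]
    exact h
  · intro s k n A a ha j hj
    have hsys := (mem_sol.mp ha).2
    have hpow : ∀ i : ℕ, i ≤ k → ∑ l, ((a (Sum.inl l) : ℕ) : ℤ) ^ i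
        = ∑ l, ((a (Sum.inr l) : ℕ) : ℤ) ^ i := by
      intro i hi
      rcases Nat.eq_zero_or_pos i with rfl | hpos
      · simp
      · have h1 := congrFun hsys ⟨i - 1, by omega⟩
        rw [Finset.sum_apply, Finset.sum_apply] at h1
        have e : i - 1 + 1 = i := by omega
        simp only [e] at h1
        exact h1
    have hZ : ∑ i, (((n + a (Sum.inl i) : ℕ) : ℤ)) ^ j = ∑ i, (((n + a (Sum.inr i) : ℕ) : ℤ)) ^ j := by
      push_cast
      simp_rw [add_comm (n : ℤ), add_pow]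
      rw [Finset.sum_comm, Finset.sum_comm (s := (Finset.univ : Finset (Fin s)))]
      refine Finset.sum_congr rfl fun i hi => ?_
      have hi' : i ≤ k := by
        rw [mem_range] at hi
        omega
      rw [← Finset.sum_mul, ← Finset.sum_mul, ← Finset.sum_mul, ← Finset.sum_mul, hpow i hi']
    exact_mod_cast hZ

end Pool.Agent.Results.MP_e87c7d_nt.AdditiveSystems
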