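import Pool.Agent.Lib.HLB.Bridge
import Pool.Agent.Lib.HLD.MainW

/-!
# The Hardy-Littlewood lower bound with the sharp constant on average over arbitrary sets of shifts

Fix `d ≥ 1` and `k_1, …, k_d ≥ 1` and put `R = ∏ (k_j + 1)`. Let `T_1, …, T_d` be arbitrary finite sets of
integers in `[0, x (log x)^K]`, `K` fixed, with weights `w_j : T_j → [0, 1]`. One chooses `k_j + 1` elements
`a_{j,0}, …, a_{j,k_j}` of every `T_j` and considers the `R` shifts `a_{1,i_1} + … + a_{d,i_d}`,
`0 ≤ i_j ≤ k_j`. If `(log x)^{∏_{l ≠ j} (k_l + 1)} ≤ μ ∑ w_j` for every `j`, then on average over these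
choices the number of `n ≤ x` for which all `R` numbers `n + a_{1,i_1} + … + a_{d,i_d}` are prime is at
least `1 - ε - μ R (R - 1) / 2` times the Hardy-Littlewood prediction; and if `T_j` has at least
`C (log x)^{∏_{l ≠ j} (k_l + 1)}` elements, then for a positive proportion of the choices it is at least
`ρ` times the prediction. The case `d = 1` is about the `R`-tuples of elements of one arbitrary set.
-/

set_option autoImplicit false

open Finset Filter

namespace Pool.Agent.Results.MP_e87c7d_nt.ArbitraryGrids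

open Pool.Agent.HL Pool.Agent.HLB Pool.Agent.HLC Pool.Agent.HLD Pool.Agent.Lib.Sieve4

lemma RK_update_zero {d : ℕ} (k : Fin d → ℕ) (j : Fin d) :
    RK (Function.update k j 0) = ∏ l ∈ univ.erase j, (k l + 1) := by
  unfold RK
  rw [← Finset.mul_prod_erase univ _ (mem_univ j), Function.update_self, zero_add, one_mul]
  refine Finset.prod_congr rfl fun l hl => ?_
  rw [Function.update_of_ne (Finset.ne_of_mem_erase hl)]

open scoped Classical in
theorem result (d : ℕ) (_hd : 1 ≤ d) (k : Fin d → ℕ) (_hk : ∀ j, 1 ≤ k j) (ε ρ : ℝ) (hε : 0 < ε)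
    (hρ : ρ < 1) :
    ∃ C δ : ℝ, 0 < C ∧ 0 < δ ∧ ∀ K : ℕ, ∃ x₀ : ℕ, ∀ x : ℕ, x₀ ≤ x →
      ∀ T : Fin d → Finset ℕ, (∀ j, ∀ a ∈ T j, (a : ℝ) ≤ x * Real.log x ^ K) →
      ∀ S : ((j : Fin d) → Fin (k j + 1) → ℕ) → ℝ,
        (∀ a : (j : Fin d) → Fin (k j + 1) → ℕ, (∀ j l, a j l ∈ T j) →
          Function.Injective (fun i : (j : Fin d) → Fin (k j + 1) => ∑ j, a j (i j)) →
          HasProd (fun p : Nat.Primes =>
            (1 - ((Finset.univ.image
                (fun i : (j : Fin d) → Fin (k j + 1) =>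
                  ((∑ j, a j (i j) : ℕ) : ZMod p))).card : ℝ) / (p : ℝ)) *
              ((1 - 1 / (p : ℝ))⁻¹) ^ (∏ j, (k j + 1))) (S a)) →
      -- the average lower bound, for every weight
      (∀ w : Fin d → ℕ → ℝ, (∀ j, ∀ t ∈ T j, 0 ≤ w j t ∧ w j t ≤ 1) →
        ∀ μ : ℝ, 0 ≤ μ →
        (∀ j, Real.log x ^ (∏ l ∈ univ.erase j, (k l + 1)) ≤ μ * ∑ t ∈ T j, w j t) →
        (1 - ε - μ * (((∏ j, (k j + 1) : ℕ) : ℝ) * (((∏ j, (k j + 1) : ℕ) : ℝ) - 1) / 2)) *
          ((x / Real.log x ^ (∏ j, (k j + 1))) *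
          ∑ a ∈ (Fintype.piFinset fun j => Fintype.piFinset fun _ : Fin (k j + 1) => T j).filter
            (fun a => Function.Injective
              (fun i : (j : Fin d) → Fin (k j + 1) => ∑ j, a j (i j))),
            (∏ j, ∏ l, w j (a j l)) * S a)
        ≤ ∑ a ∈ (Fintype.piFinset fun j => Fintype.piFinset fun _ : Fin (k j + 1) => T j).filter
            (fun a => Function.Injective
              (fun i : (j : Fin d) → Fin (k j + 1) => ∑ j, a j (i j))),
            (∏ j, ∏ l, w j (a j l)) * (((Finset.Icc 1 x).filter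
              (fun n : ℕ => ∀ i : (j : Fin d) → Fin (k j + 1),
                (n + ∑ j, a j (i j)).Prime)).card : ℝ) ∧
        (1 - ε - μ * (((∏ j, (k j + 1) : ℕ) : ℝ) * (((∏ j, (k j + 1) : ℕ) : ℝ) - 1) / 2)) *
          ((x / Real.log x ^ (∏ j, (k j + 1))) * ∏ j, (∑ t ∈ T j, w j t) ^ (k j + 1))
        ≤ ∑ a ∈ (Fintype.piFinset fun j => Fintype.piFinset fun _ : Fin (k j + 1) => T j).filter
            (fun a => Function.Injective
              (fun i : (j : Fin d) → Fin (k j + 1) => ∑ j, a j (i j))),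
            (∏ j, ∏ l, w j (a j l)) * (((Finset.Icc 1 x).filter
              (fun n : ℕ => ∀ i : (j : Fin d) → Fin (k j + 1),
                (n + ∑ j, a j (i j)).Prime)).card : ℝ)) ∧
      -- the individual lower bound, for a positive proportion of the choices
      ((∀ j, C * Real.log x ^ (∏ l ∈ univ.erase j, (k l + 1)) ≤ (T j).card) →
        ∃ G ⊆ (Fintype.piFinset fun j => Fintype.piFinset fun _ : Fin (k j + 1) => T j).filter
            (fun a => Function.Injective
              (fun i : (j : Fin d) → Fin (k j + 1) => ∑ j, a j (i j))),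
        (∀ a ∈ G,
          (∀ p : ℕ, p.Prime → (Finset.univ.image
            (fun i : (j : Fin d) → Fin (k j + 1) =>
              ((∑ j, a j (i j) : ℕ) : ZMod p))).card < p) ∧
          0 < S a ∧
          ρ * S a * (x / Real.log x ^ (∏ j, (k j + 1))) ≤
            (((Finset.Icc 1 x).filter
              (fun n : ℕ => ∀ i : (j : Fin d) → Fin (k j + 1),
                (n + ∑ j, a j (i j)).Prime)).card : ℝ)) ∧
        δ * ∑ a ∈ (Fintype.piFinset fun j => Fintype.piFinset fun _ : Fin (k j + 1) => T j).filter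
            (fun a => Function.Injective
              (fun i : (j : Fin d) → Fin (k j + 1) => ∑ j, a j (i j))), S a
          ≤ ∑ a ∈ G, S a ∧
        δ * ∏ j, ((T j).card : ℝ) ^ (k j + 1) ≤ ∑ a ∈ G, S a) := by
  have hSI : ∀ (T : Fin d → Finset ℕ) (S : ((j : Fin d) → Fin (k j + 1) → ℕ) → ℝ),
      (∀ a : (j : Fin d) → Fin (k j + 1) → ℕ, (∀ j l, a j l ∈ T j) →
          Function.Injective (fun i : (j : Fin d) → Fin (k j + 1) => ∑ j, a j (i j)) →
          HasProd (fun p : Nat.Primes =>
            (1 - ((Finset.univ.image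
                (fun i : (j : Fin d) → Fin (k j + 1) =>
                  ((∑ j, a j (i j) : ℕ) : ZMod p))).card : ℝ) / (p : ℝ)) *
              ((1 - 1 / (p : ℝ))⁻¹) ^ (∏ j, (k j + 1))) (S a)) →
      ∀ a ∈ (gtupK k T).filter (fun a => Function.Injective (gsumK a)), S a = SI (gsumK a) := by
    intro T S hS a ha
    rw [mem_filter] at ha
    have hmem : ∀ j l, a j l ∈ T j := fun j l =>
      Fintype.mem_piFinset.mp (Fintype.mem_piFinset.mp ha.1 j) l
    have h1 := hS a hmem ha.2
    have h2 := hasProd_SI (gsumK a) ha.2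
    unfold locI nuI gsumK at h2
    rw [card_index, RK] at h2
    exact h1.unique h2
  have hcnt : ∀ (a : (j : Fin d) → Fin (k j + 1) → ℕ) (x : ℕ),
      (((Finset.Icc 1 x).filter
        (fun n : ℕ => ∀ i : (j : Fin d) → Fin (k j + 1), (n + ∑ j, a j (i j)).Prime)).card : ℝ)
        = (cnt (gsumK a) x : ℝ) := by
    intro a x
    unfold cnt gsumK
    congr
  have hcardT : ∀ T : Fin d → Finset ℕ,
      ∏ j, ((T j).card : ℝ) ^ (k j + 1) = ((gtupK k T).card : ℝ) := by
    intro T
    rw [card_gtupK]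
    push_cast
    rfl
  simp only [hcnt, hcardT]
  set ρ' : ℝ := max ρ (1 / 2) with hρ'
  have hρ'0 : 0 < ρ' := lt_of_lt_of_le (by norm_num) (le_max_right _ _)
  obtain ⟨C, δ, hC, hδ, hmain₂⟩ := grid_proportionK2 sw_holds k (ρ := ρ') hρ'0
    (max_lt hρ (by norm_num))
  refine ⟨C, δ, hC, hδ, fun K => ?_⟩
  obtain ⟨x₀, hx₀⟩ := eventually_atTop.mp ((grid_lowerW sw_holds k K hε).and (hmain₂ K))
  refine ⟨max x₀ 3, fun x hx T hT S hS => ?_⟩
  have hx3 : (3:ℝ) ≤ x := by exact_mod_cast (le_max_right x₀ 3).trans hx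
  have hlog : 0 < Real.log x := Real.log_pos (by linarith)
  constructor
  · intro w hw μ hμ0 hμ
    set w' : Fin d → ℕ → ℝ := fun j t => if t ∈ T j then w j t else 0 with hw'
    have hw'0 : ∀ j t, 0 ≤ w' j t := by
      intro j t
      simp only [hw']
      split_ifs with h
      · exact (hw j t h).1
      · exact le_refl _
    have hw'1 : ∀ j t, w' j t ≤ 1 := by
      intro j t
      simp only [hw']
      split_ifs with h
      · exact (hw j t h).2
      · exact zero_le_one
    have hsum : ∀ j, ∑ t ∈ T j, w' j t = ∑ t ∈ T j, w j t := by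
      intro j
      refine Finset.sum_congr rfl fun t ht => ?_
      simp only [hw']
      rw [if_pos ht]
    have hwK : ∀ a ∈ (gtupK k T).filter (fun a => Function.Injective (gsumK a)),
        wK w' a = ∏ j, ∏ l, w j (a j l) := by
      intro a ha
      rw [mem_filter] at ha
      unfold wK
      refine Finset.prod_congr rfl fun j _ => Finset.prod_congr rfl fun l _ => ?_
      simp only [hw']
      rw [if_pos (Fintype.mem_piFinset.mp (Fintype.mem_piFinset.mp ha.1 j) l)]
    have h := (hx₀ x ((le_max_left _ _).trans hx)).1 T hT w' hw'0 hw'1 μ hμ0 (by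
      intro j _
      rw [RK_update_zero, hsum]
      exact hμ j)
    simp only [hsum] at h
    have e1 : (RK k : ℝ) * (RK k - 1) / 2 * μ =
        μ * (((∏ j, (k j + 1) : ℕ) : ℝ) * (((∏ j, (k j + 1) : ℕ) : ℝ) - 1) / 2) := by
      unfold RK
      ring
    rw [e1] at h
    have e2 : ∑ a ∈ (gtupK k T).filter (fun a => Function.Injective (gsumK a)),
          wK w' a * SI (gsumK a)
        = ∑ a ∈ (gtupK k T).filter (fun a => Function.Injective (gsumK a)),
          (∏ j, ∏ l, w j (a j l)) * S a :=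
      Finset.sum_congr rfl fun a ha => by rw [hwK a ha, hSI T S hS a ha]
    have e3 : ∑ a ∈ (gtupK k T).filter (fun a => Function.Injective (gsumK a)),
          wK w' a * (cnt (gsumK a) x : ℝ)
        = ∑ a ∈ (gtupK k T).filter (fun a => Function.Injective (gsumK a)),
          (∏ j, ∏ l, w j (a j l)) * (cnt (gsumK a) x : ℝ) :=
      Finset.sum_congr rfl fun a ha => by rw [hwK a ha]
    rw [e2, e3] at h
    exact h
  · intro hTc
    have hTc₂ : ∀ j, 1 ≤ k j → C * Real.log x ^ (RK (Function.update k j 0)) ≤ (T j).card := by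
      intro j _
      rw [RK_update_zero]
      exact hTc j
    have hne : ∀ j, (T j).Nonempty := by
      intro j
      have h1 := hTc j
      have h2 : 0 < ((T j).card : ℝ) := lt_of_lt_of_le (by positivity) h1
      exact Finset.card_pos.mp (by exact_mod_cast h2)
    obtain ⟨G, hG, hGa, hG1, hG2⟩ := (hx₀ x ((le_max_left _ _).trans hx)).2 T hT hTc₂ hne
    have hGS : ∑ a ∈ G, S a = ∑ a ∈ G, SI (gsumK a) :=
      Finset.sum_congr rfl fun a ha => hSI T S hS a (hG ha)
    refine ⟨G, hG, fun a ha => ?_, ?_, ?_⟩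
    · have hmem := mem_filter.mp (hG ha)
      obtain ⟨hadm, hlow⟩ := hGa a ha
      have hr1 : 1 ≤ Fintype.card ((j : Fin d) → Fin (k j + 1)) := by
        rw [card_index]; exact RK_pos k
      have hpos : 0 < SI (gsumK a) := by
        refine lt_of_lt_of_le ?_ (c0_le_SI (gsumK a) hmem.2 hr1 hadm)
        exact c0_pos _ hr1
      refine ⟨hadm, by rw [hSI T S hS a (hG ha)]; exact hpos, ?_⟩
      rw [hSI T S hS a (hG ha)]
      refine le_trans ?_ hlow
      have hX : 0 ≤ (x:ℝ) / Real.log x ^ (∏ j, (k j + 1)) := by positivity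
      have : ρ ≤ ρ' := le_max_left _ _
      unfold RK
      gcongr
    · rw [hGS]
      refine le_trans (le_of_eq ?_) hG1
      congr 1
      exact Finset.sum_congr rfl fun a ha => hSI T S hS a ha
    · rw [hGS]; exact hG2

end Pool.Agent.Results.MP_e87c7d_nt.ArbitraryGrids
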