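import Pool.Agent.Lib.HLB.Bridge
import Pool.Agent.Lib.HLD.T1Main2
import Pool.Agent.Lib.HL.PntAux
import Pool.Agent.Lib.HLB.GridMain

/-!
# The Hardy-Littlewood lower bound with the sharp constant on average over every set of shifts

Fix `K`; `x` large, `A` any finite set of integers in `[0, x (log x)^K]`, `w : A → [0, 1]` any weight. The sum over the
injective `r`-tuples `a` from `A` of `∏ w(a_i) π(x; a_1, …, a_r)` is at least
`(1 - ε - (r(r-1)/2) log x / ∑ w) x / (log x)^r` times the sum of `∏ w(a_i) 𝔖(a)`, and also times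
`(∑ w)^r`. If `A` has at least `C log x` elements, the admissible tuples with
`π(x; a) ≥ ρ 𝔖(a) x / (log x)^r` carry a positive proportion of the mass of the singular series.
-/

set_option autoImplicit false

open Finset Filter

namespace Pool.Agent.Results.MP_e87c7d_nt.ArbitraryShifts

open Pool.Agent.HL Pool.Agent.HLB Pool.Agent.HLD Pool.Agent.Lib.Sieve4

theorem result (r : ℕ) (hr : 2 ≤ r) (ε ρ : ℝ) (hε : 0 < ε) (hρ : ρ < 1) :
    ∃ C δ : ℝ, 0 < C ∧ 0 < δ ∧ ∀ K : ℕ, ∃ x₀ : ℕ, ∀ x : ℕ, x₀ ≤ x →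
      ∀ A : Finset ℕ, (∀ a ∈ A, (a : ℝ) ≤ x * Real.log x ^ K) →
      ∀ S : (Fin r → ℕ) → ℝ,
        (∀ a : Fin r → ℕ, Function.Injective a → (∀ i, a i ∈ A) →
          HasProd (fun p : Nat.Primes =>
            (1 - ((Finset.univ.image (fun i : Fin r => (a i : ZMod p))).card : ℝ) / (p : ℝ)) *
              ((1 - 1 / (p : ℝ))⁻¹) ^ r) (S a)) →
      -- the average lower bound, for every weight
      (∀ w : ℕ → ℝ, (∀ a ∈ A, 0 ≤ w a ∧ w a ≤ 1) →
        (1 - ε - (r : ℝ) * (r - 1) / 2 * (Real.log x / ∑ a ∈ A, w a)) * ((x / Real.log x ^ r) *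
            ∑ a ∈ (Fintype.piFinset fun _ : Fin r => A).filter Function.Injective,
              (∏ i, w (a i)) * S a)
          ≤ ∑ a ∈ (Fintype.piFinset fun _ : Fin r => A).filter Function.Injective,
              (∏ i, w (a i)) *
                (((Finset.Icc 1 x).filter (fun n : ℕ => ∀ i, (n + a i).Prime)).card : ℝ) ∧
        (1 - ε - (r : ℝ) * (r - 1) / 2 * (Real.log x / ∑ a ∈ A, w a)) * ((x / Real.log x ^ r) *
            (∑ a ∈ A, w a) ^ r)
          ≤ ∑ a ∈ (Fintype.piFinset fun _ : Fin r => A).filter Function.Injective,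
              (∏ i, w (a i)) *
                (((Finset.Icc 1 x).filter (fun n : ℕ => ∀ i, (n + a i).Prime)).card : ℝ)) ∧
      -- the individual lower bound, for a positive proportion of the tuples
      (C * Real.log x ≤ A.card →
        ∃ G ⊆ (Fintype.piFinset fun _ : Fin r => A).filter Function.Injective,
          (∀ a ∈ G,
            (∀ p : ℕ, p.Prime → (Finset.univ.image (fun i : Fin r => (a i : ZMod p))).card < p) ∧
            0 < S a ∧
            ρ * S a * (x / Real.log x ^ r) ≤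
              (((Finset.Icc 1 x).filter (fun n : ℕ => ∀ i, (n + a i).Prime)).card : ℝ)) ∧
          δ * ∑ a ∈ (Fintype.piFinset fun _ : Fin r => A).filter Function.Injective, S a
            ≤ ∑ a ∈ G, S a ∧
          δ * (A.card : ℝ) ^ r ≤ ∑ a ∈ G, S a) := by
  classical
  have hSI : ∀ (A : Finset ℕ) (S : (Fin r → ℕ) → ℝ),
      (∀ a : Fin r → ℕ, Function.Injective a → (∀ i, a i ∈ A) →
          HasProd (fun p : Nat.Primes =>
            (1 - ((Finset.univ.image (fun i : Fin r => (a i : ZMod p))).card : ℝ) / (p : ℝ)) *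
              ((1 - 1 / (p : ℝ))⁻¹) ^ r) (S a)) →
      ∀ a ∈ injTuples r A, S a = SI a := by
    intro A S hS a ha
    have hmem := mem_injTuples.mp ha
    have h1 := hS a hmem.2 hmem.1
    have h2 := hasProd_SI a hmem.2
    unfold locI nuI at h2
    rw [Fintype.card_fin] at h2
    exact h1.unique h2
  have hcnt : ∀ (a : Fin r → ℕ) (x : ℕ),
      (((Finset.Icc 1 x).filter (fun n : ℕ => ∀ i, (n + a i).Prime)).card : ℝ) = (cnt a x : ℝ) := by
    intro a x
    unfold cnt
    congr
  simp only [hcnt]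
  set ρ' : ℝ := max ρ (1 / 2) with hρ'
  have hρ'0 : 0 < ρ' := lt_of_lt_of_le (by norm_num) (le_max_right _ _)
  obtain ⟨C, δ, hC, hδ, hmain₂⟩ := t1_proportion2 sw_holds r hr (ρ := ρ') hρ'0
    (max_lt hρ (by norm_num))
  refine ⟨C, δ, hC, hδ, fun K => ?_⟩
  obtain ⟨x₀, hx₀⟩ := eventually_atTop.mp ((t1_lower2 sw_holds r hr K hε).and (hmain₂ K))
  refine ⟨x₀, fun x hx A hA S hS => ?_⟩
  constructor
  · intro w hw
    obtain ⟨h1, h2⟩ := (hx₀ x hx).1 A hA w hw
    refine ⟨?_, h2⟩
    refine le_trans (le_of_eq ?_) h1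
    congr 2
    refine Finset.sum_congr rfl fun a ha => ?_
    rw [hSI A S hS a ha]
  · intro hCA
    obtain ⟨G, hG, hGa, hG1, hG2⟩ := (hx₀ x hx).2 A hA hCA
    have hGS : ∑ a ∈ G, S a = ∑ a ∈ G, SI a :=
      Finset.sum_congr rfl fun a ha => hSI A S hS a (hG ha)
    have hAS : ∑ a ∈ injTuples r A, S a = ∑ a ∈ injTuples r A, SI a :=
      Finset.sum_congr rfl fun a ha => hSI A S hS a ha
    refine ⟨G, hG, fun a ha => ?_, ?_, ?_⟩
    · have hmem := mem_injTuples.mp (hG ha)
      obtain ⟨hadm, hlow⟩ := hGa a ha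
      have hpos : 0 < SI a := by
        refine lt_of_lt_of_le ?_ (c0_le_SI a hmem.2 (by rw [Fintype.card_fin]; omega) hadm)
        exact c0_pos _ (by rw [Fintype.card_fin]; omega)
      refine ⟨hadm, by rw [hSI A S hS a (hG ha)]; exact hpos, ?_⟩
      rw [hSI A S hS a (hG ha)]
      refine le_trans ?_ hlow
      have hX : 0 ≤ (x:ℝ) / Real.log x ^ r := by
        have := Real.log_natCast_nonneg x
        positivity
      have : ρ ≤ ρ' := le_max_left _ _
      gcongr
    · rw [hGS]
      exact le_trans (le_of_eq (by rw [← hAS]; rfl)) hG1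
    · rw [hGS]; exact hG2

end Pool.Agent.Results.MP_e87c7d_nt.ArbitraryShifts
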