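import Pool.Agent.Lib.MHB.Both

/-!
# Bounded gaps between primes inside almost every prime tuple

A box is a product of intervals `(u j, u j + H j]` contained in `[0, x]^r`, with `H j ≥ x^(1/6 + ε)`. In all parts `h`
runs over all elements of a box with the exception of a proportion of at most `1 / (log x)^A`.

1. (Maynard-Tao along the primes of almost every tuple.) If `0, h_1, …, h_r` have no congruence obstruction, then
   there are at least `x / (log x)^K` primes `p ≤ x` such that `p + h_1, …, p + h_r` are all prime and `(p, p + C]`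
   contains at least `m` primes; `C` and `K` depend on `m` and `r` only.
2. For EVERY set `L` of `k` integers in `[0, x]`, `k = k (m, r)`: if `L + {0, h_1, …, h_r}` has no congruence
   obstruction, then there are at least `x / (log x)^K` integers `n ≤ x` such that for some `l ∈ L` the integers
   `n + l, n + l + h_1, …, n + l + h_r` are all prime and `n + l'` is prime for at least `m` larger `l' ∈ L`.
3. For EVERY set `L` of `k` integers in `[0, x]`: if `L ∪ {h_1, …, h_r}` has no congruence obstruction, then there are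
   at least `x / (log x)^K` integers `n ≤ x` such that `n + h_1, …, n + h_r` are all prime and `n + l` is prime for at
   least `m` of the `l ∈ L`.
-/

set_option autoImplicit false

open Finset Filter

namespace Pool.Agent.Results.MP_e87c7d_nt.BoundedGaps

/-- No prime is covered by the residue classes of the elements of `S`. -/
def Admissible (S : Finset ℕ) : Prop := ∀ p : ℕ, p.Prime → (S.image (fun a : ℕ => (a : ZMod p))).card < p

/-- The product of the intervals `(u j, u j + H j]`. -/
def box {r : ℕ} (u H : Fin r → ℕ) : Finset (Fin r → ℕ) := Fintype.piFinset (fun j => Ioc (u j) (u j + H j))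

/-- The integers `l` and `l + h j` with `l ∈ L`. -/
def sums {r : ℕ} (L : Finset ℕ) (h : Fin r → ℕ) : Finset ℕ :=
  L ∪ (L ×ˢ (univ : Finset (Fin r))).image (fun s => s.1 + h s.2)

theorem result (m r : ℕ) :
    (∃ C K : ℕ, ∀ (A : ℕ) (ε : ℝ), 0 < ε → ∃ x₀ : ℕ, ∀ x : ℕ, x₀ ≤ x →
      ∀ u H : Fin r → ℕ, (∀ j, (x : ℝ) ^ (1 / 6 + ε) ≤ H j ∧ u j + H j ≤ x) →
      ∃ E ⊆ box u H, (E.card : ℝ) ≤ (box u H).card / Real.log x ^ A ∧ ∀ h ∈ box u H, h ∉ E →
        Admissible (insert 0 (univ.image h)) →
        (x : ℝ) / Real.log x ^ K ≤ (((Icc 1 x).filter (fun p => p.Prime ∧ (∀ j, (p + h j).Prime) ∧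
          m ≤ ((Ioc p (p + C)).filter (fun p' => p'.Prime)).card)).card : ℝ)) ∧
    (∃ k K : ℕ, ∀ (A : ℕ) (ε : ℝ), 0 < ε → ∃ x₀ : ℕ, ∀ x : ℕ, x₀ ≤ x →
      ∀ L : Finset ℕ, L.card = k → (∀ l ∈ L, l ≤ x) →
      ∀ u H : Fin r → ℕ, (∀ j, (x : ℝ) ^ (1 / 6 + ε) ≤ H j ∧ u j + H j ≤ x) →
      ∃ E ⊆ box u H, (E.card : ℝ) ≤ (box u H).card / Real.log x ^ A ∧ ∀ h ∈ box u H, h ∉ E →
        (Admissible (sums L h) →
          (x : ℝ) / Real.log x ^ K ≤ (((Icc 1 x).filter (fun n => ∃ l ∈ L, (n + l).Prime ∧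
            (∀ j, (n + l + h j).Prime) ∧ m ≤ (L.filter (fun l' => l < l' ∧ (n + l').Prime)).card)).card : ℝ)) ∧
        (Admissible (L ∪ univ.image h) →
          (x : ℝ) / Real.log x ^ K ≤ (((Icc 1 x).filter (fun n => (∀ j, (n + h j).Prime) ∧
            m ≤ (L.filter (fun l => (n + l).Prime)).card)).card : ℝ))) := by
  classical
  refine ⟨?_, ?_⟩
  · exact Pool.Agent.Lib.MHB.headline m r
  · obtain ⟨k, K, h⟩ := Pool.Agent.Lib.MHB.both m r
    exact ⟨k, K, h⟩

end Pool.Agent.Results.MP_e87c7d_nt.BoundedGaps
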