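import Pool.Agent.Lib.LEN.FinL

/-!
# Prime tuples of every length: the Hardy-Littlewood prediction decides

`count X h` is the number of `n ∈ (X, 2X]` such that `n + h 1, ..., n + h r` are all prime, `predict X h` the
Hardy-Littlewood prediction `S(h) X / (log X)^r`, `S(h)` the singular series, `y X = log X / log log X`. Almost all
means: for all admissible `h ∈ [1, X]^r` but a share `ε`.

There is `c > 0` such that for every `ε > 0` there are `K, b, d, C > 0` with the following property. For arbitrarily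
large `X`, and for all large `X` for which no real primitive character modulo `q ≤ exp (C y)` has a real zero in
`[1 - C / y, 1)`, the assertion `Law c ε K b d X` holds:
1. for ALL lengths `r ≤ (1 - ε) y X` almost all admissible `h` satisfy Hardy-Littlewood, `|count - predict| ≤ ε predict`;
2. for all lengths `(1 + ε) y X ≤ r ≤ X ^ c` almost no admissible `h` has a single `n ∈ [1, 2X]` with all `n + h i` prime;
3. for all lengths `r ≤ X ^ c` the prediction decides: almost all admissible `h` satisfy Hardy-Littlewood if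
  `predict X h ≥ K` and have `count X h = 0` if `predict X h ≤ 1 / K`;
4. at the threshold the law is Poisson: let `r ≤ 2 y X` and let `a` be an admissible residue vector modulo the product
  of the primes `p ≤ b y X`. Almost all `h ≡ a` in `[1, X]^r` have the prediction `(1 + O(ε)) mean a`, and for all but a
  share `X ^ (-d)` of the `a` with `mean a ≤ 1 / ε` the numbers `count X h`, `h ≡ a`, have the Poisson distribution with
  mean `mean a` up to `ε`.
-/

set_option autoImplicit false

open Finset Filter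

namespace Pool.Agent.Results.MP_e87c7d_nt.EveryLength

/-- The number of residue classes modulo `p` occupied by `h`. -/
def classes {r : ℕ} (h : Fin r → ℕ) (p : ℕ) : ℕ := (univ.image (fun i => (h i : ZMod p))).card

/-- The factor at `p` of the singular series. -/
noncomputable def factor {r : ℕ} (h : Fin r → ℕ) (p : ℕ) : ℝ :=
  (1 - (classes h p : ℝ) / (p : ℝ)) * ((1 - 1 / (p : ℝ))⁻¹) ^ r

/-- The singular series. -/
noncomputable def S {r : ℕ} (h : Fin r → ℕ) : ℝ := ∏' p : Nat.Primes, factor h p

/-- Distinct numbers without local obstruction. -/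
def Admissible {r : ℕ} (h : Fin r → ℕ) : Prop :=
  Function.Injective h ∧ ∀ p : ℕ, p.Prime → classes h p < p

open scoped Classical in
/-- The admissible `h ∈ [1, X]^r`. -/
noncomputable def adm (r X : ℕ) : Finset (Fin r → ℕ) :=
  (Fintype.piFinset fun _ : Fin r => Icc 1 X).filter Admissible

open scoped Classical in
/-- All but at most a share `ε` of the admissible `h ∈ [1, X]^r` satisfy `P`. -/
def AlmostAll (ε : ℝ) (r X : ℕ) (P : (Fin r → ℕ) → Prop) : Prop :=
  (((adm r X).filter (fun h => ¬ P h)).card : ℝ) ≤ ε * (adm r X).card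

/-- The number of `n ∈ (X, 2X]` such that all `n + h i` are prime. -/
def count {r : ℕ} (X : ℕ) (h : Fin r → ℕ) : ℕ :=
  ((Ioc X (2 * X)).filter fun n => ∀ i, (n + h i).Prime).card

/-- The Hardy-Littlewood prediction. -/
noncomputable def predict {r : ℕ} (X : ℕ) (h : Fin r → ℕ) : ℝ := S h * X / Real.log X ^ r

/-- `log X / log log X`. -/
noncomputable def y (X : ℕ) : ℝ := Real.log X / Real.log (Real.log X)

open scoped Classical in
/-- The admissible residue vectors modulo the product of the primes `p ≤ w`. -/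
noncomputable def residues (w r : ℕ) : Finset (Fin r → ℕ) :=
  (Fintype.piFinset fun _ : Fin r => range (primorial w)).filter
    fun a => ∀ p : ℕ, p.Prime → p ≤ w → classes a p < p

open scoped Classical in
/-- The `h ∈ [1, X]^r` congruent to `a` modulo the product of the primes `p ≤ w`. -/
noncomputable def box {r : ℕ} (X w : ℕ) (a : Fin r → ℕ) : Finset (Fin r → ℕ) :=
  (Fintype.piFinset fun _ : Fin r => Icc 1 X).filter fun h => ∀ i, h i ≡ a i [MOD primorial w]

/-- The prediction for a residue vector: the product over the primes `p ≤ w` only. -/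
noncomputable def mean {r : ℕ} (X w : ℕ) (a : Fin r → ℕ) : ℝ :=
  X / Real.log X ^ r * ∏ p ∈ Nat.primesLE w, factor a p

/-- The probability of the value `j` for a Poisson variable with mean `m`. -/
noncomputable def poisson (m : ℝ) (j : ℕ) : ℝ := Real.exp (-m) * m ^ j / j.factorial

open scoped Classical in
/-- The share of the `h ∈ box X w a` with `count X h = j`. -/
noncomputable def share {r : ℕ} (X w : ℕ) (a : Fin r → ℕ) (j : ℕ) : ℝ :=
  (((box X w a).filter (fun h => count X h = j)).card : ℝ) / (box X w a).card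

/-- A real primitive character modulo `q ≤ exp (C y)` has a real zero `β ∈ [1 - C / y, 1)`, `y = log X / log log X`. -/
def RealZero (C : ℝ) (X : ℕ) : Prop :=
  ∃ (q : ℕ) (χ : DirichletCharacter ℂ q) (β : ℝ), (q : ℝ) ≤ Real.exp (C * y X) ∧
    χ.IsPrimitive ∧ χ ≠ 1 ∧ χ ^ 2 = 1 ∧
    (∃ _ : NeZero q, DirichletCharacter.LFunction χ (β : ℂ) = 0) ∧ 1 - C / y X ≤ β ∧ β < 1

open scoped Classical in
/-- The four assertions, see the introduction. -/
def Law (c ε K b d : ℝ) (X : ℕ) : Prop :=
  -- 1. below the threshold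
  (∀ r : ℕ, 1 ≤ r → (r : ℝ) ≤ (1 - ε) * y X →
    AlmostAll ε r X fun h => |(count X h : ℝ) - predict X h| ≤ ε * predict X h) ∧
  -- 2. beyond the threshold
  (∀ r : ℕ, (1 + ε) * y X ≤ r → (r : ℝ) ≤ (X : ℝ) ^ c →
    AlmostAll ε r X fun h => ∀ n ∈ Icc 1 (2 * X), ¬ ∀ i, (n + h i).Prime) ∧
  -- 3. the prediction decides, at every length
  (∀ r : ℕ, 1 ≤ r → (r : ℝ) ≤ (X : ℝ) ^ c →
    AlmostAll ε r X fun h =>
      (K ≤ predict X h → |(count X h : ℝ) - predict X h| ≤ ε * predict X h) ∧
      (predict X h ≤ 1 / K → count X h = 0)) ∧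
  -- 4. the Poisson law at the threshold
  (∀ r : ℕ, 1 ≤ r → (r : ℝ) ≤ 2 * y X → ∀ w : ℕ, w = ⌊b * y X⌋₊ →
    (((residues w r).filter fun a => mean X w a ≤ 1 / ε ∧
      ∃ j : ℕ, (j : ℝ) ≤ 1 / ε ∧ ε < |share X w a j - poisson (mean X w a) j|).card : ℝ) ≤
      (X : ℝ) ^ (-d) * (residues w r).card ∧
    ∀ a ∈ residues w r, (((box X w a).filter fun h =>
      ¬ (Admissible h ∧ |predict X h - mean X w a| ≤ ε * mean X w a)).card : ℝ) ≤
        ε * (box X w a).card)

section aux

open Pool.Agent.Lib.LEN Pool.Agent.HLB Pool.Agent.HLR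

lemma factor_eq {r : ℕ} (h : Fin r → ℕ) (p : ℕ) : factor h p = locI h p := by
  unfold factor locI classes nuI
  rw [Fintype.card_fin]

lemma S_eq {r : ℕ} (h : Fin r → ℕ) : S h = SI h := by
  unfold S SI
  simp only [factor_eq]

lemma predict_eq {r : ℕ} (X : ℕ) (h : Fin r → ℕ) : predict X h = pr X h := by
  unfold predict pr
  rw [S_eq]

open scoped Classical in
lemma adm_eq (r X : ℕ) : adm r X = (Tup r (Icc 1 X)).filter (fun h => Adm h) := by
  classical
  unfold adm Tup Admissible Adm classes nuI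
  congr

/-- The singular series of distinct numbers is a convergent product. -/
lemma hasProd_S {r : ℕ} (h : Fin r → ℕ) (hh : Function.Injective h) :
    HasProd (fun p : Nat.Primes => factor h p) (S h) := by
  rw [S_eq]
  simp only [factor_eq]
  exact hasProd_SI h hh

lemma almost {ε : ℝ} {r X : ℕ} {P : (Fin r → ℕ) → Prop} {Q : (Fin r → ℕ) → Prop}
    (hPQ : ∀ h, ¬ P h → Q h) [DecidablePred (fun h : Fin r → ℕ => Adm h ∧ Q h)]
    [DecidablePred (fun h : Fin r → ℕ => Adm h)]
    (hQ : (((Tup r (Icc 1 X)).filter (fun h => Adm h ∧ Q h)).card : ℝ) ≤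
      ε * ((Tup r (Icc 1 X)).filter (fun h => Adm h)).card) : AlmostAll ε r X P := by
  classical
  unfold AlmostAll
  rw [adm_eq, filter_filter]
  have h1 : ((Tup r (Icc 1 X)).filter (fun h => Adm h ∧ ¬ P h)).card ≤
      ((Tup r (Icc 1 X)).filter (fun h => Adm h ∧ Q h)).card := by
    refine card_le_card fun h hh => ?_
    rw [mem_filter] at hh ⊢
    exact ⟨hh.1, hh.2.1, hPQ h hh.2.2⟩
  have h2 : (((Tup r (Icc 1 X)).filter (fun h => Adm h ∧ ¬ P h)).card : ℝ) ≤
      ((Tup r (Icc 1 X)).filter (fun h => Adm h ∧ Q h)).card := by exact_mod_cast h1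
  refine le_trans ?_ ((h2.trans hQ).trans (le_of_eq ?_))
  · refine le_of_eq ?_
    congr
  · congr

lemma residues_eq (w r : ℕ) : residues w r = AC w r := by
  classical
  unfold residues AC
  rw [← Cls0.PP_eq_primorial]
  ext a
  rw [mem_filter, mem_filter]
  refine and_congr_right fun _ => ?_
  constructor
  · intro h p hp
    exact h p (Nat.mem_primesLE.1 hp).2 (Nat.mem_primesLE.1 hp).1
  · intro h p hp hw
    exact h p (Nat.mem_primesLE.2 ⟨hw, hp⟩)

lemma box_eq {r : ℕ} (X w : ℕ) (a : Fin r → ℕ) : box X w a = Hc X w a := by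
  classical
  unfold box Hc cls
  rw [← Cls0.PP_eq_primorial]
  ext h
  rw [mem_filter, Fintype.mem_piFinset, Fintype.mem_piFinset]
  constructor
  · intro hh i
    rw [mem_filter]
    exact ⟨hh.1 i, hh.2 i⟩
  · intro hh
    refine ⟨fun i => ?_, fun i => ?_⟩
    · exact (mem_filter.1 (hh i)).1
    · exact (mem_filter.1 (hh i)).2

lemma mean_eq {r : ℕ} (X w : ℕ) (a : Fin r → ℕ) : mean X w a = lam X w a := by
  unfold mean lam
  rw [MM_eq]
  unfold SZ
  simp only [factor_eq]
  ring

lemma cnt_eq {r : ℕ} (X : ℕ) (h : Fin r → ℕ) : count X h = cnt X h := rfl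

end aux

lemma law_of {c ε K b d : ℝ} {X : ℕ} (hX : Pool.Agent.Lib.LEN.Conc c ε K b d X) :
    Law c ε K b d X := by
  classical
  obtain ⟨h1, h2, h3, h4⟩ := hX
  refine ⟨fun r hr1 hr => ?_, fun r hr hrX => ?_, fun r hr1 hrX => ?_,
    fun r hr1 hr w hw => ?_⟩
  · refine almost (fun h hP => ?_) (h1 r hr1 hr)
    rw [not_le, predict_eq] at hP
    exact hP
  · refine almost (fun h hP => ?_) (h2 r hr hrX)
    push Not at hP
    exact hP
  · refine almost (fun h hP => ?_) (h3 r hr1 hrX)
    rw [predict_eq] at hP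
    exact hP
  · obtain ⟨h5, h6⟩ := h4 r hr1 hr w hw
    rw [residues_eq]
    refine ⟨le_trans ?_ h5, fun a ha => ?_⟩
    · have hsub : ((Pool.Agent.Lib.LEN.AC w r).filter fun a => mean X w a ≤ 1 / ε ∧
          ∃ j : ℕ, (j : ℝ) ≤ 1 / ε ∧ ε < |share X w a j - poisson (mean X w a) j|) ⊆
          ((Pool.Agent.Lib.LEN.AC w r).filter fun a => Pool.Agent.Lib.LEN.lam X w a ≤ 1 / ε ∧
            ∃ j : ℕ, (j : ℝ) ≤ 1 / ε ∧ ε * (Pool.Agent.Lib.LEN.Hc X w a).card <
              |(((Pool.Agent.Lib.LEN.Hc X w a).filter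
                (fun h => Pool.Agent.Lib.LEN.cnt X h = j)).card : ℝ) -
              Real.exp (-Pool.Agent.Lib.LEN.lam X w a) * Pool.Agent.Lib.LEN.lam X w a ^ j /
                j.factorial * (Pool.Agent.Lib.LEN.Hc X w a).card|) := by
        intro a ha
        rw [mem_filter] at ha ⊢
        obtain ⟨haA, hm, j, hj, hbig⟩ := ha
        refine ⟨haA, by rw [← mean_eq]; exact hm, j, hj, ?_⟩
        have hcard : (0 : ℝ) < ((box X w a).card : ℝ) := by
          rw [box_eq]
          exact_mod_cast (h6 a haA).1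
        have h7 : ε * (box X w a).card < |share X w a j - poisson (mean X w a) j| *
            (box X w a).card := mul_lt_mul_of_pos_right hbig hcard
        rw [← abs_of_pos hcard, ← abs_mul, abs_of_pos hcard] at h7
        have h8 : (share X w a j - poisson (mean X w a) j) * (box X w a).card =
            (((box X w a).filter (fun h => count X h = j)).card : ℝ) -
              poisson (mean X w a) j * (box X w a).card := by
          unfold share
          field_simp
        rw [h8, box_eq] at h7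
        unfold poisson at h7
        rw [mean_eq] at h7
        exact h7
      exact_mod_cast card_le_card hsub
    · rw [box_eq]
      refine le_trans (le_of_eq ?_) (h6 a ha).2
      congr 2
      ext h
      rw [mem_filter, mem_filter, predict_eq, mean_eq]
      rfl

/-- The theorem: `Law` holds for all large `X` without real zeros near 1, and for arbitrarily large `X`
unconditionally. -/
theorem result : ∃ c : ℝ, 0 < c ∧ ∀ ε : ℝ, 0 < ε → ∃ K b d C : ℝ, 1 ≤ K ∧ 0 < b ∧ 0 < d ∧ 0 < C ∧
    (∃ X₀ : ℕ, ∀ X : ℕ, X₀ ≤ X → RealZero C X ∨ Law c ε K b d X) ∧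
    ∀ X₀ : ℕ, ∃ X : ℕ, X₀ ≤ X ∧ Law c ε K b d X := by
  obtain ⟨c, hc, hall⟩ := Pool.Agent.Lib.LEN.every_length
  refine ⟨c, hc, fun ε hε => ?_⟩
  obtain ⟨K, b, d, C, hK, hb, hd, hC, ⟨X₀, h1⟩, h2⟩ := hall ε hε
  refine ⟨K, b, d, C, hK, hb, hd, hC, ⟨X₀, fun X hX => ?_⟩, fun X₁ => ?_⟩
  · rcases h1 X hX with h3 | h3
    · exact Or.inl h3
    · exact Or.inr (law_of h3)
  · obtain ⟨X, hX, h3⟩ := h2 X₁
    exact ⟨X, hX, law_of h3⟩

end Pool.Agent.Results.MP_e87c7d_nt.EveryLength
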