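import Pool.Agent.Lib.EV2.Final

/-!
# Hardy-Littlewood lower bounds inside every set of shifts

Fix `r ≥ 2`. Let `A` be any set of at least `k₀(r)` shifts in `[0, x (log x) ^ K₀]`, put
`λ = |A| / log x`, `θ = min (1, λ)`, `X = x / (log x) ^ r` and
`Φ = max (∏_{1 ≤ j < r} (1 - (2 j - 1) / (2 λ))₊ - ε, c θ ^ (B ^ r))`.
The counting functions `π(x; a)` of the injective `r`-tuples `a` from `A` add up to at least
`Φ X ∑ 𝔖(a)` and to at least `Φ X |A| ^ r`. The admissible tuples with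
`ρ Φ 𝔖(a) X ≤ π(x; a) ≤ K 𝔖(a) X` carry a positive proportion of the mass. Along a subsequence of any
sequence of `x`, the same for all finite sets `A` of at least `k₀` shifts, a positive proportion of
the tuples from `A`, independent of `x`, has `π(x; a) ≥ c (|A| / log x) ^ (B ^ r) 𝔖(a) X`.
-/

set_option autoImplicit false

open Finset Filter

namespace Pool.Agent.Results.MP_e87c7d_nt.EverySet

open Pool.Agent.HL Pool.Agent.HLB Pool.Agent.Lib.Sieve4 Pool.Agent.Lib.MP Pool.Agent.Lib.MQ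
  Pool.Agent.EV2

theorem result : ∃ B : ℕ, ∀ r : ℕ, 2 ≤ r → ∃ (k₀ : ℕ) (c K : ℝ), 0 < c ∧ 0 < K ∧
    -- every set of shifts
    (∀ ε ρ : ℝ, 0 < ε → 0 ≤ ρ → ρ < 1 → ∀ K₀ : ℕ, ∃ x₀ : ℕ, ∀ x : ℕ, x₀ ≤ x →
      ∀ A : Finset ℕ, (∀ a ∈ A, (a : ℝ) ≤ x * Real.log x ^ K₀) → k₀ ≤ A.card →
      ∃ (S : (Fin r → ℕ) → ℝ) (Φ : ℝ),
        (∀ a : Fin r → ℕ, Function.Injective a →
          HasProd (fun p : Nat.Primes =>
            (1 - ((Finset.univ.image (fun i : Fin r => (a i : ZMod p))).card : ℝ) / (p : ℝ)) *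
              ((1 - 1 / (p : ℝ))⁻¹) ^ r) (S a)) ∧
        Φ = max ((∏ j ∈ Finset.range (r - 1),
              max 0 (1 - (2 * j + 1) / (2 * (A.card / Real.log x)))) - ε)
          (c * (min 1 (A.card / Real.log x)) ^ (B ^ r)) ∧
        Φ * (x / Real.log x ^ r) *
            ∑ a ∈ (Fintype.piFinset fun _ : Fin r => A).filter Function.Injective, S a ≤
          ∑ a ∈ (Fintype.piFinset fun _ : Fin r => A).filter Function.Injective,
            (((Finset.Icc 1 x).filter (fun n : ℕ => ∀ i, (n + a i).Prime)).card : ℝ) ∧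
        Φ * (x / Real.log x ^ r) * (A.card : ℝ) ^ r ≤
          ∑ a ∈ (Fintype.piFinset fun _ : Fin r => A).filter Function.Injective,
            (((Finset.Icc 1 x).filter (fun n : ℕ => ∀ i, (n + a i).Prime)).card : ℝ) ∧
        ∃ G ⊆ (Fintype.piFinset fun _ : Fin r => A).filter Function.Injective,
          (∀ a ∈ G,
            (∀ p : ℕ, p.Prime → (Finset.univ.image (fun i : Fin r => (a i : ZMod p))).card < p) ∧
            0 < S a ∧
            ρ * Φ * S a * (x / Real.log x ^ r) ≤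
              (((Finset.Icc 1 x).filter (fun n : ℕ => ∀ i, (n + a i).Prime)).card : ℝ) ∧
            (((Finset.Icc 1 x).filter (fun n : ℕ => ∀ i, (n + a i).Prime)).card : ℝ) ≤
              K * S a * (x / Real.log x ^ r)) ∧
          c * (1 - ρ) * (A.card : ℝ) ^ r ≤ ∑ a ∈ G, S a ∧
          c * (1 - ρ) * ((min 1 (A.card / Real.log x)) ^ r *
              ∑ a ∈ (Fintype.piFinset fun _ : Fin r => A).filter Function.Injective, S a)
            ≤ ∑ a ∈ G, S a) ∧
    -- the same tuples along a sequence of values of x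
    (∀ X : ℕ → ℕ, Tendsto X atTop atTop → ∃ φ : ℕ → ℕ, StrictMono φ ∧
      ∀ A : Finset ℕ, k₀ ≤ A.card →
      ∃ S : (Fin r → ℕ) → ℝ,
        (∀ a : Fin r → ℕ, Function.Injective a →
          HasProd (fun p : Nat.Primes =>
            (1 - ((Finset.univ.image (fun i : Fin r => (a i : ZMod p))).card : ℝ) / (p : ℝ)) *
              ((1 - 1 / (p : ℝ))⁻¹) ^ r) (S a)) ∧
        ∃ G ⊆ (Fintype.piFinset fun _ : Fin r => A).filter Function.Injective,
          c * (A.card : ℝ) ^ r ≤ (G.card : ℝ) ∧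
          (∀ a ∈ G,
            (∀ p : ℕ, p.Prime → (Finset.univ.image (fun i : Fin r => (a i : ZMod p))).card < p) ∧
            0 < S a) ∧
          ∃ j₀ : ℕ, ∀ j x : ℕ, j₀ ≤ j → x = X (φ j) → ∀ a ∈ G,
            c * (A.card / Real.log x) ^ (B ^ r) * S a * (x / Real.log x ^ r) ≤
              (((Finset.Icc 1 x).filter (fun n : ℕ => ∀ i, (n + a i).Prime)).card : ℝ) ∧
            (((Finset.Icc 1 x).filter (fun n : ℕ => ∀ i, (n + a i).Prime)).card : ℝ) ≤
              K * S a * (x / Real.log x ^ r)) := by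
  classical
  have hcnt : ∀ (r : ℕ) (a : Fin r → ℕ) (x : ℕ),
      (((Finset.Icc 1 x).filter (fun n : ℕ => ∀ i, (n + a i).Prime)).card : ℝ) = (cnt a x : ℝ) := by
    intro r a x
    unfold cnt
    congr
  simp only [hcnt]
  obtain ⟨B, hB⟩ := every_set2
  refine ⟨B, fun r hr => ?_⟩
  obtain ⟨k₀, c, K, hk₀, hc, hK, hup, hall, hfix⟩ := hB r hr
  have hpos : ∀ a : Fin r → ℕ, Function.Injective a → (∀ p : ℕ, p.Prime → nuI a p < p) →
      0 < SI a := by
    intro a ha hadm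
    refine lt_of_lt_of_le ?_ (c0_le_SI a ha (by rw [Fintype.card_fin]; omega) hadm)
    exact c0_pos _ (by rw [Fintype.card_fin]; omega)
  have hprod : ∀ a : Fin r → ℕ, Function.Injective a →
      HasProd (fun p : Nat.Primes =>
        (1 - ((Finset.univ.image (fun i : Fin r => (a i : ZMod p))).card : ℝ) / (p : ℝ)) *
          ((1 - 1 / (p : ℝ))⁻¹) ^ r) (SI a) := by
    intro a ha
    have h2 := hasProd_SI a ha
    unfold locI nuI at h2
    rw [Fintype.card_fin] at h2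
    exact h2
  refine ⟨k₀, c, K, hc, hK, ?_, ?_⟩
  · intro ε ρ hε hρ0 hρ1 K₀
    obtain ⟨x₀, hx₀⟩ := eventually_atTop.mp (hall ε ρ hε hρ0 hρ1 K₀)
    refine ⟨max x₀ 3, fun x hx A hA hCA => ?_⟩
    have hx3 : 3 ≤ x := (le_max_right _ _).trans hx
    obtain ⟨h1, h2, h3, h4⟩ := hx₀ x ((le_max_left _ _).trans hx) A hA hCA _ rfl
    refine ⟨SI, _, hprod, rfl, h1, h2, goodSet r x A (ρ *
      (max (gprod r (A.card / Real.log x) - ε) (c * (min 1 (A.card / Real.log x)) ^ (B ^ r)))),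
      ?_, fun a ha => ?_, h3, h4⟩
    · intro a ha
      exact (mem_goodSet.mp ha).1
    · obtain ⟨hinj, hadm, hlow⟩ := mem_goodSet.mp ha
      have hinj' := (mem_injTuples.mp hinj).2
      exact ⟨hadm, hpos a hinj' hadm, hlow, hup a hinj' hadm x (by omega)⟩
  · intro X hX
    obtain ⟨φ, hφ, hφA⟩ := hfix X hX
    refine ⟨φ, hφ, fun A hA => ?_⟩
    obtain ⟨G, hG, hGc, hGadm, hGx⟩ := hφA A hA
    refine ⟨SI, hprod, G, hG, hGc, fun a ha => ⟨hGadm a ha, ?_⟩, ?_⟩
    · exact hpos a (mem_injTuples.mp (hG ha)).2 (hGadm a ha)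
    · obtain ⟨j₀, hj₀⟩ := eventually_atTop.mp
        (hGx.and ((hX.comp hφ.tendsto_atTop).eventually_ge_atTop 3))
      refine ⟨j₀, fun j x hj hx a ha => ?_⟩
      obtain ⟨h1, h2⟩ := hj₀ j hj
      subst hx
      have h3 : 3 ≤ X (φ j) := h2
      exact ⟨h1 a ha, hup a (mem_injTuples.mp (hG ha)).2 (hGadm a ha) _ (by omega)⟩

end Pool.Agent.Results.MP_e87c7d_nt.EverySet

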