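import Pool.Agent.Lib.HL2.ExpMain

/-!
# Prime tuples whose shifts are powers of a fixed integer

Fix `g ≥ 2`, `r ≥ 2` and a density `κ > 0`. For all large `x`, every set `E` of exponents `k` with
`g ^ k ≤ x` and `|E| ≥ κ log x` contains at least `δ (log x) ^ r` injective `r`-tuples `k` such that the
shifts `g ^ (k i)` are admissible and the number of `n ≤ x` with all `n + g ^ (k i)` prime is at least
`c 𝔖 x / (log x) ^ r`.
-/

set_option autoImplicit false

open Finset Filter

namespace Pool.Agent.Results.MP_e87c7d_nt.ExponentialShifts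

open Pool.Agent.HL Pool.Agent.HL2 Pool.Agent.Lib.Sieve4

theorem result (g : ℕ) (hg : 2 ≤ g) (r : ℕ) (hr : 2 ≤ r) (κ : ℝ) (hκ : 0 < κ) :
    ∃ c δ : ℝ, 0 < c ∧ 0 < δ ∧ ∃ x₀ : ℕ, ∀ x : ℕ, x₀ ≤ x →
      ∀ E : Finset ℕ, (∀ k ∈ E, g ^ k ≤ x) → κ * Real.log x ≤ E.card →
      ∃ G : Finset (Fin r → ℕ), δ * Real.log x ^ r ≤ G.card ∧
        ∀ k ∈ G, Function.Injective k ∧ (∀ i, k i ∈ E) ∧
          (∀ p : ℕ, p.Prime →
            (Finset.univ.image (fun i : Fin r => ((g ^ k i : ℕ) : ZMod p))).card < p) ∧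
          ∃ S : ℝ, 0 < S ∧
            HasProd (fun p : Nat.Primes =>
              (1 - ((Finset.univ.image (fun i : Fin r => ((g ^ k i : ℕ) : ZMod p))).card : ℝ)
                / (p : ℝ)) * ((1 - 1 / (p : ℝ))⁻¹) ^ r) S ∧
            c * S * (x / Real.log x ^ r) ≤
              (((Finset.Icc 1 x).filter (fun n : ℕ => ∀ i, (n + g ^ k i).Prime)).card : ℝ) := by
  classical
  obtain ⟨c, δ, hc, hδ, hmain⟩ := exp_positive_proportion g hg r hr hκ
  obtain ⟨x₀, hx₀⟩ := eventually_atTop.mp hmain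
  refine ⟨c, δ, hc, hδ, x₀, fun x hx E hE hκE => ?_⟩
  obtain ⟨G, hG, hcard, hall⟩ := hx₀ x hx E hE hκE
  refine ⟨G, hcard, fun k hk => ?_⟩
  obtain ⟨hk1, hlow⟩ := hall k hk
  have hkT := mem_injTuples.mp (hG hk)
  have hadm := adm_pshift g hg k hk1
  have hinj : Function.Injective (pshift g k) :=
    shift_injective 0 1 (by norm_num) _ ((Nat.pow_right_injective hg).comp hkT.2)
  have hnu : ∀ p : ℕ, nu (pshift g k) p
      = (Finset.univ.image (fun i : Fin r => ((g ^ k i : ℕ) : ZMod p))).card := by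
    intro p
    unfold nu pshift shift
    congr 2
    ext i
    push_cast
    ring
  have hHP := hasProd_SS _ hinj
  have hSpos : 0 < SS (pshift g k) :=
    lt_of_lt_of_le (c0_pos r (by omega)) (c0_le (by omega) _ hadm _ hHP)
  refine ⟨hkT.2, hkT.1, ?_, SS (pshift g k), hSpos, ?_, ?_⟩
  · intro p hp
    rw [← hnu p]
    exact hadm p hp
  · simp_rw [← hnu]
    exact hHP
  · refine hlow.trans (le_of_eq ?_)
    unfold tcount
    congr 2
    ext n
    rw [mem_filter, mem_filter]
    have h1 : ∀ i, (((n:ℤ) + pshift g k i).toNat) = n + g ^ k i := by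
      intro i
      have h2 : (n:ℤ) + pshift g k i = ((n + g ^ k i : ℕ) : ℤ) := by
        unfold pshift shift
        push_cast
        ring
      rw [h2, Int.toNat_natCast]
    simp only [h1]

end Pool.Agent.Results.MP_e87c7d_nt.ExponentialShifts
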