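import Pool.Agent.Lib.HLB.Bridge
import Pool.Agent.Lib.HLD.MainK2

/-!
# The Hardy-Littlewood lower bound with the sharp constant on average over sumset grids

Fix `d ≥ 2` and `k_1, …, k_d ≥ 1` and put `R = ∏ (k_j + 1)`. For arbitrary finite sets `T_1, …, T_d` of
integers in `[0, x (log x)^K]`, `K` fixed, such that `T_j` has at least `C (log x)^{∏_{l ≠ j} (k_l + 1)}` elements, one chooses
`k_j + 1` elements `a_{j,0}, …, a_{j,k_j}` of every `T_j` and considers the `R` shifts
`a_{1,i_1} + … + a_{d,i_d}`, `0 ≤ i_j ≤ k_j`. On average over these choices the number of `n ≤ x` for which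
all `R` numbers `n + a_{1,i_1} + … + a_{d,i_d}` are prime is at least `(1 - ε)` times the
Hardy-Littlewood prediction, and for a positive proportion of the choices it is at least `ρ` times the
prediction.
-/

set_option autoImplicit false

open Finset Filter

namespace Pool.Agent.Results.MP_e87c7d_nt.GridShifts

open Pool.Agent.HL Pool.Agent.HLB Pool.Agent.HLC Pool.Agent.HLD Pool.Agent.Lib.Sieve4

lemma RK_update_zero {d : ℕ} (k : Fin d → ℕ) (j : Fin d) :
    RK (Function.update k j 0) = ∏ l ∈ univ.erase j, (k l + 1) := by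
  unfold RK
  rw [← Finset.mul_prod_erase univ _ (mem_univ j), Function.update_self, zero_add, one_mul]
  refine Finset.prod_congr rfl fun l hl => ?_
  rw [Function.update_of_ne (Finset.ne_of_mem_erase hl)]

open scoped Classical in
theorem result (d : ℕ) (hd : 2 ≤ d) (k : Fin d → ℕ) (hk : ∀ j, 1 ≤ k j) (ε ρ : ℝ) (hε : 0 < ε)
    (hρ : ρ < 1) :
    ∃ C δ : ℝ, 0 < C ∧ 0 < δ ∧ ∀ K : ℕ, ∃ x₀ : ℕ, ∀ x : ℕ, x₀ ≤ x →
      ∀ T : Fin d → Finset ℕ, (∀ j, ∀ a ∈ T j, (a : ℝ) ≤ x * Real.log x ^ K) →
      (∀ j, C * Real.log x ^ (∏ l ∈ univ.erase j, (k l + 1)) ≤ (T j).card) →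
      ∀ S : ((j : Fin d) → Fin (k j + 1) → ℕ) → ℝ,
        (∀ a : (j : Fin d) → Fin (k j + 1) → ℕ, (∀ j l, a j l ∈ T j) →
          Function.Injective (fun i : (j : Fin d) → Fin (k j + 1) => ∑ j, a j (i j)) →
          HasProd (fun p : Nat.Primes =>
            (1 - ((Finset.univ.image
                (fun i : (j : Fin d) → Fin (k j + 1) =>
                  ((∑ j, a j (i j) : ℕ) : ZMod p))).card : ℝ) / (p : ℝ)) *
              ((1 - 1 / (p : ℝ))⁻¹) ^ (∏ j, (k j + 1))) (S a)) →
      -- the lower bound with the sharp constant on average over all grids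
      (1 - ε) * ((x / Real.log x ^ (∏ j, (k j + 1))) *
          ∑ a ∈ (Fintype.piFinset fun j => Fintype.piFinset fun _ : Fin (k j + 1) => T j).filter
            (fun a => Function.Injective
              (fun i : (j : Fin d) → Fin (k j + 1) => ∑ j, a j (i j))), S a)
        ≤ ∑ a ∈ (Fintype.piFinset fun j => Fintype.piFinset fun _ : Fin (k j + 1) => T j).filter
            (fun a => Function.Injective
              (fun i : (j : Fin d) → Fin (k j + 1) => ∑ j, a j (i j))),
            (((Finset.Icc 1 x).filter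
              (fun n : ℕ => ∀ i : (j : Fin d) → Fin (k j + 1),
                (n + ∑ j, a j (i j)).Prime)).card : ℝ) ∧
      (1 - ε) * ((x / Real.log x ^ (∏ j, (k j + 1))) * ∏ j, ((T j).card : ℝ) ^ (k j + 1))
        ≤ ∑ a ∈ (Fintype.piFinset fun j => Fintype.piFinset fun _ : Fin (k j + 1) => T j).filter
            (fun a => Function.Injective
              (fun i : (j : Fin d) → Fin (k j + 1) => ∑ j, a j (i j))),
            (((Finset.Icc 1 x).filter
              (fun n : ℕ => ∀ i : (j : Fin d) → Fin (k j + 1),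
                (n + ∑ j, a j (i j)).Prime)).card : ℝ) ∧
      -- the individual lower bound, for a positive proportion of the grids
      ∃ G ⊆ (Fintype.piFinset fun j => Fintype.piFinset fun _ : Fin (k j + 1) => T j).filter
            (fun a => Function.Injective
              (fun i : (j : Fin d) → Fin (k j + 1) => ∑ j, a j (i j))),
        (∀ a ∈ G,
          (∀ p : ℕ, p.Prime → (Finset.univ.image
            (fun i : (j : Fin d) → Fin (k j + 1) =>
              ((∑ j, a j (i j) : ℕ) : ZMod p))).card < p) ∧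
          0 < S a ∧
          ρ * S a * (x / Real.log x ^ (∏ j, (k j + 1))) ≤
            (((Finset.Icc 1 x).filter
              (fun n : ℕ => ∀ i : (j : Fin d) → Fin (k j + 1),
                (n + ∑ j, a j (i j)).Prime)).card : ℝ)) ∧
        δ * ∑ a ∈ (Fintype.piFinset fun j => Fintype.piFinset fun _ : Fin (k j + 1) => T j).filter
            (fun a => Function.Injective
              (fun i : (j : Fin d) → Fin (k j + 1) => ∑ j, a j (i j))), S a
          ≤ ∑ a ∈ G, S a ∧
        δ * ∏ j, ((T j).card : ℝ) ^ (k j + 1) ≤ ∑ a ∈ G, S a := by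
  have hSI : ∀ (T : Fin d → Finset ℕ) (S : ((j : Fin d) → Fin (k j + 1) → ℕ) → ℝ),
      (∀ a : (j : Fin d) → Fin (k j + 1) → ℕ, (∀ j l, a j l ∈ T j) →
          Function.Injective (fun i : (j : Fin d) → Fin (k j + 1) => ∑ j, a j (i j)) →
          HasProd (fun p : Nat.Primes =>
            (1 - ((Finset.univ.image
                (fun i : (j : Fin d) → Fin (k j + 1) =>
                  ((∑ j, a j (i j) : ℕ) : ZMod p))).card : ℝ) / (p : ℝ)) *
              ((1 - 1 / (p : ℝ))⁻¹) ^ (∏ j, (k j + 1))) (S a)) →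
      ∀ a ∈ (gtupK k T).filter (fun a => Function.Injective (gsumK a)), S a = SI (gsumK a) := by
    intro T S hS a ha
    rw [mem_filter] at ha
    have hmem : ∀ j l, a j l ∈ T j := fun j l =>
      Fintype.mem_piFinset.mp (Fintype.mem_piFinset.mp ha.1 j) l
    have h1 := hS a hmem ha.2
    have h2 := hasProd_SI (gsumK a) ha.2
    unfold locI nuI gsumK at h2
    rw [card_index, RK] at h2
    exact h1.unique h2
  have hcnt : ∀ (a : (j : Fin d) → Fin (k j + 1) → ℕ) (x : ℕ),
      (((Finset.Icc 1 x).filter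
        (fun n : ℕ => ∀ i : (j : Fin d) → Fin (k j + 1), (n + ∑ j, a j (i j)).Prime)).card : ℝ)
        = (cnt (gsumK a) x : ℝ) := by
    intro a x
    unfold cnt gsumK
    congr
  have hcardT : ∀ T : Fin d → Finset ℕ,
      ∏ j, ((T j).card : ℝ) ^ (k j + 1) = ((gtupK k T).card : ℝ) := by
    intro T
    rw [card_gtupK]
    push_cast
    rfl
  simp only [hcnt, hcardT]
  obtain ⟨C₁, hC₁, hmain₁⟩ := grid_lowerK2 sw_holds k hε
  set ρ' : ℝ := max ρ (1 / 2) with hρ'
  have hρ'0 : 0 < ρ' := lt_of_lt_of_le (by norm_num) (le_max_right _ _)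
  obtain ⟨C₂, δ, hC₂, hδ, hmain₂⟩ := grid_proportionK2 sw_holds k (ρ := ρ') hρ'0
    (max_lt hρ (by norm_num))
  refine ⟨max C₁ C₂, δ, lt_max_of_lt_left hC₁, hδ, fun K => ?_⟩
  obtain ⟨x₀, hx₀⟩ := eventually_atTop.mp ((hmain₁ K).and (hmain₂ K))
  refine ⟨max x₀ 3, fun x hx T hT hTc S hS => ?_⟩
  have hxx : (0:ℝ) ≤ x := Nat.cast_nonneg x
  have hx3 : (3:ℝ) ≤ x := by exact_mod_cast (le_max_right x₀ 3).trans hx
  have hlog : 0 < Real.log x := Real.log_pos (by linarith)
  have hTc₁ : ∀ j, 1 ≤ k j → C₁ * Real.log x ^ (RK (Function.update k j 0)) ≤ (T j).card := by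
    intro j _
    rw [RK_update_zero]
    refine le_trans ?_ (hTc j)
    gcongr
    exact le_max_left _ _
  have hTc₂ : ∀ j, 1 ≤ k j → C₂ * Real.log x ^ (RK (Function.update k j 0)) ≤ (T j).card := by
    intro j _
    rw [RK_update_zero]
    refine le_trans ?_ (hTc j)
    gcongr
    exact le_max_right _ _
  have hne : ∀ j, (T j).Nonempty := by
    intro j
    have h1 := hTc j
    have h2 : 0 < ((T j).card : ℝ) := by
      refine lt_of_lt_of_le ?_ h1
      have := lt_max_of_lt_left (c := C₂) hC₁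
      positivity
    exact Finset.card_pos.mp (by exact_mod_cast h2)
  obtain ⟨h1, h2⟩ := (hx₀ x ((le_max_left _ _).trans hx)).1 T hT hTc₁
  refine ⟨?_, h2, ?_⟩
  · refine le_trans (le_of_eq ?_) h1
    congr 2
    exact Finset.sum_congr rfl fun a ha => hSI T S hS a ha
  · obtain ⟨G, hG, hGa, hG1, hG2⟩ := (hx₀ x ((le_max_left _ _).trans hx)).2 T hT hTc₂ hne
    have hGS : ∑ a ∈ G, S a = ∑ a ∈ G, SI (gsumK a) :=
      Finset.sum_congr rfl fun a ha => hSI T S hS a (hG ha)
    refine ⟨G, hG, fun a ha => ?_, ?_, ?_⟩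
    · have hmem := mem_filter.mp (hG ha)
      obtain ⟨hadm, hlow⟩ := hGa a ha
      have hr1 : 1 ≤ Fintype.card ((j : Fin d) → Fin (k j + 1)) := by
        rw [card_index]; exact RK_pos k
      have hpos : 0 < SI (gsumK a) := by
        refine lt_of_lt_of_le ?_ (c0_le_SI (gsumK a) hmem.2 hr1 hadm)
        exact c0_pos _ hr1
      refine ⟨hadm, by rw [hSI T S hS a (hG ha)]; exact hpos, ?_⟩
      rw [hSI T S hS a (hG ha)]
      refine le_trans ?_ hlow
      have hX : 0 ≤ (x:ℝ) / Real.log x ^ (∏ j, (k j + 1)) := by positivity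
      have : ρ ≤ ρ' := le_max_left _ _
      unfold RK
      gcongr
    · rw [hGS]
      refine le_trans (le_of_eq ?_) hG1
      congr 1
      exact Finset.sum_congr rfl fun a ha => hSI T S hS a ha
    · rw [hGS]; exact hG2

end Pool.Agent.Results.MP_e87c7d_nt.GridShifts
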