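import Pool.Agent.Lib.NLT.EdgeWin
import Pool.Agent.Lib.NLT.MsqAll
import Pool.Agent.Lib.NLT.MsqHL

/-!
# Prime triples `n, n + t, n + t ^ 2` for almost all `t`

The Hardy-Littlewood formula for the triple `n, n + t, n + t ^ 2`, `n ≤ x`, holds for almost all `t ≤ H`, if
`x^(1/6 + ε) ≤ H ≤ x^(1/2)`, with an arbitrary power of `log x` saved in the error and in the exceptional set (part 0).

`Universal r K A B κ x Ω s`: `Ω` is a finite set of parameters, `s t 0, …, s t (r - 1)` are the shifts which belong to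
`t ∈ Ω`; for EVERY sequence `w` with `|w n| ≤ (log x)^K` and EVERY shift `c ≤ x`, all but `|Ω| / (log x)^A` of the `t` in
`Ω` have two properties:
* for all `y ≤ x` the sum of `w n` over the `n ≤ y` with all `n + s t i` prime is, up to `x / (log x)^A`, the sum of
  `w n` times the sieve model of the primes at the `n + s t i`;
* if the shifts `c, s t 0, …, s t (r - 1)` are distinct, then the Hardy-Littlewood formula for them holds for all
  `y ≤ x`, up to `x / (log x)^A`.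

Part 1: let `P t = a t + u` and `Q t = c t ^ 2 + d t + v` with integers `a, c ≠ 0` and `d` be polynomials with values in
`[0, x]` for `0 ≤ t ≤ H`. The set `[0, H]` with the shifts `P t, Q t` is universal at `x`: two shifts, one parameter.
Part 2: the parameters `(S_1, …, S_m', t_1, …, t_m)`, `S_i ∈ T i`, `t_j ∈ [0, H j]`, with the `m' + 2 m` shifts
`S_i, a_j t_j + u_j, c_j t_j ^ 2 + d_j t_j + v_j`, are universal at `x`, if the sets `T i` have a sparse spectrum at a scale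
`D i ≥ x^(1/6 + ε)` (all integers or all primes of an interval of length `D i`, values of polynomials, …) and
`x^(1/6 + ε) ≤ H j ≤ x^(1/2)`.
-/

set_option autoImplicit false

open Finset Filter

namespace Pool.Agent.Results.MP_e87c7d_nt.NonlinearTriples

open Pool.Agent.HLB Pool.Agent.HLT Pool.Agent.HLU Pool.Agent.VK Pool.Agent.VN Pool.Agent.NLT
open Pool.Agent.Lib.Sieve4 (c0 c0_pos)

/-- For every `b ≤ b₀`, every set `Θ` of real numbers which are `1 / H`-separated modulo one and satisfy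
`|∑ t ∈ T, exp (2 π i t θ)| ≥ |T| / (log H)^b` has at most `(log H)^(F b)` elements. -/
def SparseSpectrum (F : ℕ → ℕ) (b₀ H : ℕ) (T : Finset ℕ) : Prop :=
  ∀ b ≤ b₀, ∀ Θ : Finset ℝ,
    (∀ θ ∈ Θ, ∀ θ' ∈ Θ, θ ≠ θ' → ∀ k : ℤ, 1 / (H : ℝ) ≤ |θ - θ' - k|) →
    (∀ θ ∈ Θ, (T.card : ℝ) ≤ Real.log H ^ b *
      ‖∑ t ∈ T, Complex.exp (2 * Real.pi * Complex.I * (t * θ))‖) →
    (Θ.card : ℝ) ≤ Real.log H ^ F b

/-- The factor at the prime `q` of the singular series of the shifts `f i`. -/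
noncomputable def factor {r : ℕ} (f : Fin r → ℕ) (q : ℕ) : ℝ :=
  (1 - ((univ.image (fun i => (f i : ZMod q))).card : ℝ) / (q : ℝ)) * ((1 - 1 / (q : ℝ))⁻¹) ^ r

/-- `1 / ((log n) ∏_{q ≤ z} (1 - 1 / q))` if `n` has no prime factor `q ≤ z`, and `0` otherwise. -/
noncomputable def model (z n : ℕ) : ℝ :=
  if ∀ q ∈ Nat.primesLE z, ¬ q ∣ n then
    (∏ q ∈ Nat.primesLE z, (1 - 1 / (q : ℝ)))⁻¹ / Real.log n else 0

/-- The Hardy-Littlewood formula for the shifts `f i` and all `y ≤ x`, with the error `e`. The singular series `S`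
is at least `κ` unless it vanishes for the obvious reason. -/
def HardyLittlewood {r : ℕ} (κ : ℝ) (f : Fin r → ℕ) (x : ℕ) (e : ℝ) : Prop :=
  ∃ S : ℝ, HasProd (fun q : Nat.Primes => factor f q) S ∧
    ((∀ q : ℕ, q.Prime → (univ.image (fun i => (f i : ZMod q))).card < q) → κ ≤ S) ∧
    ∀ y : ℕ, y ≤ x →
      |(((Icc 1 y).filter (fun n : ℕ => ∀ i, (n + f i).Prime)).card : ℝ) -
        S * ∑ n ∈ Icc 2 y, ∏ i, 1 / Real.log ((n + f i : ℕ) : ℝ)| ≤ e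

/-- The set `Ω` of parameters with the shifts `s t i` is universal at `x`. -/
def Universal {τ : Type} (r K A B : ℕ) (κ : ℝ) (x : ℕ) (Ω : Finset τ) (s : τ → Fin r → ℕ) : Prop :=
  ∀ w : ℕ → ℂ, (∀ n : ℕ, 1 ≤ n → n ≤ x → ‖w n‖ ≤ Real.log x ^ K) → ∀ c : ℕ, c ≤ x →
    ∃ E ⊆ Ω, (E.card : ℝ) ≤ Ω.card / Real.log x ^ A ∧ ∀ t ∈ Ω, t ∉ E →
      (∀ y : ℕ, y ≤ x →
        ‖∑ n ∈ (Icc 1 y).filter (fun n : ℕ => ∀ i, (n + s t i).Prime), w n -
            ∑ n ∈ Icc 1 y, w n * ∏ i, (model ⌊Real.log x ^ B⌋₊ (n + s t i) : ℂ)‖ ≤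
          x / Real.log x ^ A) ∧
      (Function.Injective (Fin.cons c (s t) : Fin (r + 1) → ℕ) →
        HardyLittlewood κ (Fin.cons c (s t) : Fin (r + 1) → ℕ) x (x / Real.log x ^ A))

lemma sep_iff (H : ℕ) (Θ : Finset ℝ) :
    (∀ θ ∈ Θ, ∀ θ' ∈ Θ, θ ≠ θ' → ∀ k : ℤ, 1 / (H : ℝ) ≤ |θ - θ' - k|) ↔ VK.Sep H Θ := by
  unfold VK.Sep
  refine forall_congr' fun θ => forall_congr' fun _ => forall_congr' fun θ' => forall_congr' fun _ =>
    forall_congr' fun _ => ?_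
  constructor
  · intro h
    exact h (round (θ - θ'))
  · intro h k
    exact h.trans (round_le (θ - θ') k)

lemma norm_WW (T : Finset ℕ) (θ : ℝ) :
    ‖∑ t ∈ T, Complex.exp (2 * Real.pi * Complex.I * (t * θ))‖ = ‖WW T θ‖ := by
  unfold WW ex
  congr 1
  refine Finset.sum_congr rfl fun t _ => ?_
  congr 1
  push_cast
  ring

lemma spb_iff (F : ℕ → ℕ) (b₀ H : ℕ) (T : Finset ℕ) : SparseSpectrum F b₀ H T ↔ SpB F b₀ H T := by
  unfold SparseSpectrum SpB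
  refine forall_congr' fun b => forall_congr' fun _ => forall_congr' fun Θ => ?_
  rw [sep_iff]
  simp only [norm_WW]

lemma factor_eq {r : ℕ} (f : Fin r → ℕ) (q : ℕ) : factor f q = locI f q := by
  unfold factor locI nuI
  rw [Fintype.card_fin]

lemma model_eq (z n : ℕ) : model z n = G1 z n := by
  unfold model G1 nuz ic DZ
  split_ifs
  · rw [mul_one, mul_one_div]
  · rw [mul_zero, zero_mul]

/-- The singular series of distinct shifts is bounded below, if it does not vanish. -/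
lemma sing_lower (r : ℕ) (hr : 1 ≤ r) : ∃ κ : ℝ, 0 < κ ∧ ∀ f : Fin r → ℕ, Function.Injective f →
    (∀ q : ℕ, q.Prime → nuI f q < q) → κ ≤ SI f := by
  have h0 : 0 < Fintype.card (Fin r) := by
    rw [Fintype.card_fin]
    omega
  exact ⟨c0 (Fintype.card (Fin r)), c0_pos _ h0, fun f hf hadm => c0_le_SI f hf h0 hadm⟩

lemma hl_iff {r : ℕ} (κ : ℝ) (hκ : ∀ f : Fin r → ℕ, Function.Injective f →
    (∀ q : ℕ, q.Prime → nuI f q < q) → κ ≤ SI f) (f : Fin r → ℕ) (hf : Function.Injective f) (x : ℕ) (e : ℝ)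
    (h : ∀ y : ℕ, y ≤ x → |(((Icc 1 y).filter (fun n : ℕ => ∀ i, (n + f i).Prime)).card : ℝ) -
          SI f * ∑ n ∈ Icc 2 y, hl univ f n| ≤ e) : HardyLittlewood κ f x e := by
  refine ⟨SI f, ?_, fun hadm => hκ f hf fun q hq => hadm q hq, fun y hy => h y hy⟩
  simp only [factor_eq]
  exact hasProd_SI f hf

lemma universal_of {τ : Type} (r K A B : ℕ) (κ : ℝ) (hκ : ∀ f : Fin (r + 1) → ℕ, Function.Injective f →
    (∀ q : ℕ, q.Prime → nuI f q < q) → κ ≤ SI f) (x : ℕ) (Ω : Finset τ) (s : τ → Fin r → ℕ)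
    (h : UBO r K A B x Ω s) : Universal r K A B κ x Ω s := by
  classical
  intro w hw c hc
  obtain ⟨E, hE1, hE2, hE3⟩ := h w (fun n hn => by
    rw [mem_Icc] at hn
    exact hw n hn.1 hn.2) c hc
  refine ⟨E, hE1, hE2, fun t ht htE => ⟨fun y hy => ?_, fun hinj => ?_⟩⟩
  · refine le_trans (le_of_eq ?_) ((hE3 t ht htE).1 y hy)
    congr 1
    rw [Finset.sum_filter, ← Finset.sum_sub_distrib]
    refine Finset.sum_congr rfl fun n _ => ?_
    have e1 : (∏ j, G0 (n + s t j) : ℝ) = if ∀ j, (n + s t j).Prime then 1 else 0 := by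
      unfold G0
      by_cases h : ∀ j, (n + s t j).Prime
      · rw [if_pos h]
        exact Finset.prod_eq_one fun j _ => if_pos (h j)
      · rw [if_neg h]
        push Not at h
        obtain ⟨j, hj⟩ := h
        exact Finset.prod_eq_zero (Finset.mem_univ j) (if_neg hj)
    have e2 : (∏ j, (model ⌊Real.log x ^ B⌋₊ (n + s t j) : ℂ)) =
        ((∏ j, G1 (zA B x) (n + s t j) : ℝ) : ℂ) := by
      push_cast
      refine Finset.prod_congr rfl fun j _ => ?_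
      rw [model_eq]
      rfl
    rw [e2, e1]
    split_ifs
    · push_cast
      ring
    · push_cast
      ring
  · exact hl_iff κ hκ _ hinj x _ ((hE3 t ht htE).2 hinj)

lemma sub_range {T : Finset ℕ} {x : ℕ} (h : ∀ t ∈ T, t ≤ x) : T ⊆ range (x + 1) := by
  intro t ht
  rw [Finset.mem_range]
  have := h t ht
  omega

/-- Part 2. -/
theorem blocks (m' m K A : ℕ) (F : ℕ → ℕ) (ε : ℝ) (hε : 0 < ε) (a c d : Fin m → ℤ) (ha : ∀ j, a j ≠ 0)
    (hc : ∀ j, c j ≠ 0) : ∃ (b₀ B x₀ : ℕ) (κ : ℝ), 0 < κ ∧ ∀ x : ℕ, x₀ ≤ x →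
    ∀ (D : Fin m' → ℕ) (T : Fin m' → Finset ℕ), (∀ i, (x : ℝ) ^ (1 / 6 + ε) ≤ D i ∧ D i ≤ x) →
      (∀ i, (∀ t ∈ T i, t ≤ x) ∧ SparseSpectrum F b₀ (D i) (T i)) →
    ∀ H u v : Fin m → ℕ, (∀ j, (x : ℝ) ^ (1 / 6 + ε) ≤ H j ∧ H j ^ 2 ≤ x) →
      (∀ j, ∀ t : ℕ, t ≤ H j → 0 ≤ a j * t + u j ∧ a j * t + u j ≤ x) →
      (∀ j, ∀ t : ℕ, t ≤ H j → 0 ≤ c j * (t : ℤ) ^ 2 + d j * t + v j ∧ c j * (t : ℤ) ^ 2 + d j * t + v j ≤ x) →
      Universal (m' + (m + m)) K A B κ x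
        (Fintype.piFinset T ×ˢ Fintype.piFinset (fun j => range (H j + 1)))
        (fun p => Fin.append p.1 (Fin.append (fun j => (a j * (p.2 j : ℤ) + u j).toNat)
          (fun j => (c j * (p.2 j : ℤ) ^ 2 + d j * (p.2 j : ℤ) + v j).toNat))) := by
  obtain ⟨K', B1, A0, h1⟩ := univ_msq (τ := (Fin m' → ℕ) × (Fin m → ℕ)) (m' + (m + m)) K A
  obtain ⟨b0, B', C, h2⟩ := msq_all m' m K' B1 (fun b => F (b + 1)) ε hε a c d ha hc
  obtain ⟨A1, hA1, h3⟩ := edge_win A0 B' C (ε / 2) (by linarith)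
  obtain ⟨κ, hκ0, hκ⟩ := sing_lower (m' + (m + m) + 1) (by omega)
  obtain ⟨x₀, hx₀⟩ := eventually_atTop.mp ((h1 A1 hA1).and ((h2 A1).and (h3.and
    (spb_ev (1 / 6) (1 / 6 + ε) le_rfl (by linarith) F b0))))
  refine ⟨b0 + 1, A1, x₀, κ, hκ0, fun x hx D T hD hT H u v hH hu hv => ?_⟩
  obtain ⟨g1, g2, g3, g4⟩ := hx₀ x hx
  refine universal_of _ K A A1 κ hκ x _ _ (g1 _ _ ?_)
  refine g2 g3 D T (fun i => ⟨(hD i).1, (hD i).2, sub_range (hT i).1, ?_⟩) H u v hH hu hv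
  exact (g4 (D i) (hD i).1 (hD i).2).2 (T i) ((spb_iff F (b0 + 1) (D i) (T i)).mp (hT i).2)

/-- Part 1. -/
theorem one_block (K A : ℕ) (ε : ℝ) (hε : 0 < ε) (a c d : ℤ) (ha : a ≠ 0) (hc : c ≠ 0) :
    ∃ (B x₀ : ℕ) (κ : ℝ), 0 < κ ∧ ∀ x : ℕ, x₀ ≤ x → ∀ H u v : ℕ, (x : ℝ) ^ (1 / 6 + ε) ≤ H → H ^ 2 ≤ x →
      (∀ t : ℕ, t ≤ H → 0 ≤ a * t + u ∧ a * t + u ≤ x) →
      (∀ t : ℕ, t ≤ H → 0 ≤ c * (t : ℤ) ^ 2 + d * t + v ∧ c * (t : ℤ) ^ 2 + d * t + v ≤ x) →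
      Universal 2 K A B κ x (range (H + 1))
        (fun t => ![(a * (t : ℤ) + u).toNat, (c * (t : ℤ) ^ 2 + d * (t : ℤ) + v).toNat]) := by
  obtain ⟨K', B1, A0, h1⟩ := univ_msq (τ := ℕ) 2 K A
  obtain ⟨B', C, h2⟩ := pair_ms a c d ha hc K' B1 ε hε
  obtain ⟨A1, hA1, h3⟩ := edge_win A0 B' C (ε / 2) (by linarith)
  obtain ⟨κ, hκ0, hκ⟩ := sing_lower (2 + 1) (by omega)
  obtain ⟨x₀, hx₀⟩ := eventually_atTop.mp ((h1 A1 hA1).and ((h2 A1).and h3))
  refine ⟨A1, x₀, κ, hκ0, fun x hx H u v hH hH2 hu hv => ?_⟩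
  obtain ⟨g1, g2, g3⟩ := hx₀ x hx
  refine universal_of _ K A A1 κ hκ x _ _ (g1 _ _ ⟨?_, ?_⟩)
  · intro t ht i
    rw [Finset.mem_range] at ht
    have e1 := hu t (by omega)
    have e2 := hv t (by omega)
    fin_cases i
    · simp only [Fin.zero_eta, Matrix.cons_val_zero]
      omega
    · simp only [Fin.mk_one, Matrix.cons_val_one, Matrix.cons_val_fin_one]
      omega
  · intro j w G hw hG hGj
    have e0 := g2 g3 H hH hH2 u v hu hv w hw
    fin_cases j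
    · have e1 := (e0 (G 1) (hG 1)).2
      have hGj' : G 0 = ff (zA A1 x) := hGj
      rw [Finset.card_range]
      refine le_trans (le_of_eq ?_) e1
      refine Finset.sum_congr rfl fun t _ => ?_
      congr 2
      refine Finset.sum_congr rfl fun n _ => ?_
      rw [Fin.prod_univ_two, hGj']
      simp only [Matrix.cons_val_zero, Matrix.cons_val_one, Matrix.cons_val_fin_one]
      unfold PP
      ring
    · have e1 := (e0 (G 0) (hG 0)).1
      have hGj' : G 1 = ff (zA A1 x) := hGj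
      rw [Finset.card_range]
      refine le_trans (le_of_eq ?_) e1
      refine Finset.sum_congr rfl fun t _ => ?_
      congr 2
      refine Finset.sum_congr rfl fun n _ => ?_
      rw [Fin.prod_univ_two, hGj']
      simp only [Matrix.cons_val_zero, Matrix.cons_val_one, Matrix.cons_val_fin_one]
      unfold PP
      ring

/-- Part 0. -/
theorem triples (A : ℕ) (ε : ℝ) (hε : 0 < ε) : ∃ (x₀ : ℕ) (κ : ℝ), 0 < κ ∧ ∀ x : ℕ, x₀ ≤ x →
    ∀ H : ℕ, (x : ℝ) ^ (1 / 6 + ε) ≤ H → H ^ 2 ≤ x →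
      ∃ E ⊆ Icc 2 H, (E.card : ℝ) ≤ H / Real.log x ^ A ∧ ∀ t ∈ Icc 2 H, t ∉ E →
        HardyLittlewood κ ![0, t, t ^ 2] x (x / Real.log x ^ A) := by
  classical
  obtain ⟨B, x₀, κ, hκ0, h⟩ := one_block 0 (A + 1) ε hε 1 1 0 one_ne_zero one_ne_zero
  obtain ⟨x₁, hx₁⟩ := eventually_atTop.mp (ev_log 2)
  refine ⟨max x₀ x₁, κ, hκ0, fun x hx H hH hH2 => ?_⟩
  have hL : 2 ≤ Real.log x := hx₁ x (le_trans (le_max_right _ _) hx)
  have hL0 : 0 < Real.log x := by linarith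
  have hbd : ∀ t : ℕ, t ≤ H → (t : ℤ) ^ 2 ≤ x := by
    intro t ht
    have h1 : t ^ 2 ≤ x := (Nat.pow_le_pow_left ht 2).trans hH2
    exact_mod_cast h1
  have hbd1 : ∀ t : ℕ, (t : ℤ) ≤ (t : ℤ) ^ 2 := by
    intro t
    have h1 : t ≤ t ^ 2 := Nat.le_self_pow (by norm_num) t
    exact_mod_cast h1
  obtain ⟨E, hE1, hE2, hE3⟩ := h x (le_trans (le_max_left _ _) hx) H 0 0 hH hH2
    (fun t ht => by
      have e1 := hbd t ht
      have e2 := hbd1 t
      push_cast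
      constructor
      · positivity
      · linarith)
    (fun t ht => by
      have e1 := hbd t ht
      push_cast
      constructor
      · positivity
      · linarith)
    (fun _ => 0) (fun n _ _ => by rw [norm_zero]; positivity) 0 (Nat.zero_le x)
  have hH1 : 1 ≤ H := by
    rcases Nat.eq_zero_or_pos H with h0 | h0
    · exfalso
      rw [h0, Nat.cast_zero] at hH
      have hx1 : (0 : ℝ) < x := by
        rcases Nat.eq_zero_or_pos x with h4 | h4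
        · rw [h4, Nat.cast_zero, Real.log_zero] at hL
          linarith
        · exact_mod_cast h4
      have : 0 < (x : ℝ) ^ (1 / 6 + ε) := Real.rpow_pos_of_pos hx1 _
      linarith
    · exact h0
  refine ⟨E ∩ Icc 2 H, Finset.inter_subset_right, ?_, fun t ht htE => ?_⟩
  · have h1 : ((E ∩ Icc 2 H).card : ℝ) ≤ E.card := by
      exact_mod_cast Finset.card_le_card Finset.inter_subset_left
    refine h1.trans (hE2.trans ?_)
    rw [Finset.card_range, pow_succ, div_le_div_iff₀ (by positivity) (by positivity)]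
    have h2 : (1 : ℝ) ≤ H := by exact_mod_cast hH1
    have h3 : 0 < Real.log x ^ A := by positivity
    push_cast
    have h4 : ((H : ℝ) + 1) ≤ H * Real.log x := by nlinarith
    calc ((H : ℝ) + 1) * Real.log x ^ A ≤ (H * Real.log x) * Real.log x ^ A :=
          mul_le_mul_of_nonneg_right h4 h3.le
      _ = H * (Real.log x ^ A * Real.log x) := by ring
  · have ht' := Finset.mem_Icc.mp ht
    have htr : t ∈ range (H + 1) := Finset.mem_range.mpr (by omega)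
    have htE' : t ∉ E := fun h1 => htE (Finset.mem_inter.mpr ⟨h1, ht⟩)
    have h1 := (hE3 t htr htE').2
    have e : (Fin.cons 0 ![(1 * (t : ℤ) + ((0 : ℕ) : ℤ)).toNat,
        (1 * (t : ℤ) ^ 2 + 0 * (t : ℤ) + ((0 : ℕ) : ℤ)).toNat] : Fin (2 + 1) → ℕ) = ![0, t, t ^ 2] := by
      have e1 : (1 * (t : ℤ) + ((0 : ℕ) : ℤ)).toNat = t := by simp
      have e2 : (1 * (t : ℤ) ^ 2 + 0 * (t : ℤ) + ((0 : ℕ) : ℤ)).toNat = t ^ 2 := by
        have : (1 * (t : ℤ) ^ 2 + 0 * (t : ℤ) + ((0 : ℕ) : ℤ)) = ((t ^ 2 : ℕ) : ℤ) := by push_cast; ring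
        rw [this, Int.toNat_natCast]
      rw [e1, e2]
      rfl
    rw [e] at h1
    have htt : t < t ^ 2 := by nlinarith [ht'.1]
    have hinj : Function.Injective (![0, t, t ^ 2] : Fin (2 + 1) → ℕ) := by
      intro i j hij
      fin_cases i <;> fin_cases j <;> simp at hij ⊢ <;> omega
    obtain ⟨S, hS1, hS2, hS3⟩ := h1 hinj
    refine ⟨S, hS1, hS2, fun y hy => (hS3 y hy).trans ?_⟩
    rw [pow_succ]
    refine div_le_div_of_nonneg_left (Nat.cast_nonneg x) (by positivity) ?_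
    have h3 : 0 < Real.log x ^ A := by positivity
    nlinarith

theorem result :
    -- 0. `n, n + t, n + t ^ 2`
    (∀ (A : ℕ) (ε : ℝ), 0 < ε → ∃ (x₀ : ℕ) (κ : ℝ), 0 < κ ∧ ∀ x : ℕ, x₀ ≤ x →
      ∀ H : ℕ, (x : ℝ) ^ (1 / 6 + ε) ≤ H → H ^ 2 ≤ x →
        ∃ E ⊆ Icc 2 H, (E.card : ℝ) ≤ H / Real.log x ^ A ∧ ∀ t ∈ Icc 2 H, t ∉ E →
          HardyLittlewood κ ![0, t, t ^ 2] x (x / Real.log x ^ A)) ∧
    -- 1. one parameter `t`, two shifts `a t + u`, `c t ^ 2 + d t + v`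
    (∀ (K A : ℕ) (ε : ℝ), 0 < ε → ∀ a c d : ℤ, a ≠ 0 → c ≠ 0 →
      ∃ (B x₀ : ℕ) (κ : ℝ), 0 < κ ∧ ∀ x : ℕ, x₀ ≤ x → ∀ H u v : ℕ, (x : ℝ) ^ (1 / 6 + ε) ≤ H → H ^ 2 ≤ x →
        (∀ t : ℕ, t ≤ H → 0 ≤ a * t + u ∧ a * t + u ≤ x) →
        (∀ t : ℕ, t ≤ H → 0 ≤ c * (t : ℤ) ^ 2 + d * t + v ∧ c * (t : ℤ) ^ 2 + d * t + v ≤ x) →
        Universal 2 K A B κ x (range (H + 1))
          (fun t => ![(a * (t : ℤ) + u).toNat, (c * (t : ℤ) ^ 2 + d * (t : ℤ) + v).toNat])) ∧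
    -- 2. `m' + m` parameters, `m' + 2 m` shifts
    (∀ (m' m K A : ℕ) (F : ℕ → ℕ) (ε : ℝ), 0 < ε → ∀ a c d : Fin m → ℤ, (∀ j, a j ≠ 0) → (∀ j, c j ≠ 0) →
      ∃ (b₀ B x₀ : ℕ) (κ : ℝ), 0 < κ ∧ ∀ x : ℕ, x₀ ≤ x →
      ∀ (D : Fin m' → ℕ) (T : Fin m' → Finset ℕ), (∀ i, (x : ℝ) ^ (1 / 6 + ε) ≤ D i ∧ D i ≤ x) →
        (∀ i, (∀ t ∈ T i, t ≤ x) ∧ SparseSpectrum F b₀ (D i) (T i)) →
      ∀ H u v : Fin m → ℕ, (∀ j, (x : ℝ) ^ (1 / 6 + ε) ≤ H j ∧ H j ^ 2 ≤ x) →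
        (∀ j, ∀ t : ℕ, t ≤ H j → 0 ≤ a j * t + u j ∧ a j * t + u j ≤ x) →
        (∀ j, ∀ t : ℕ, t ≤ H j → 0 ≤ c j * (t : ℤ) ^ 2 + d j * t + v j ∧
          c j * (t : ℤ) ^ 2 + d j * t + v j ≤ x) →
        Universal (m' + (m + m)) K A B κ x
          (Fintype.piFinset T ×ˢ Fintype.piFinset (fun j => range (H j + 1)))
          (fun p => Fin.append p.1 (Fin.append (fun j => (a j * (p.2 j : ℤ) + u j).toNat)
            (fun j => (c j * (p.2 j : ℤ) ^ 2 + d j * (p.2 j : ℤ) + v j).toNat)))) :=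
  ⟨fun A ε hε => triples A ε hε, fun K A ε hε a c d ha hc => one_block K A ε hε a c d ha hc,
    fun m' m K A F ε hε a c d ha hc => blocks m' m K A F ε hε a c d ha hc⟩

end Pool.Agent.Results.MP_e87c7d_nt.NonlinearTriples
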