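import Pool.Agent.Lib.HLB.Bridge
import Pool.Agent.Lib.NP.HostMain
import Pool.Agent.Lib.NP.HolderWN
import Pool.Agent.Lib.NP.FoldMax
import Pool.Agent.Lib.NP.Complete
import Pool.Agent.Lib.NP.Cycle
import Pool.Agent.Lib.NP.Cube
import Pool.Agent.Lib.HL.PntAux
import Pool.Agent.Lib.HLB.T1Main
import Pool.Agent.Lib.HLC.MainK

/-!
# The Hardy-Littlewood lower bound with the sharp constant for weakly norming patterns in labelled hosts

(A) Let `H` be a weakly norming `d`-partite `d`-uniform hypergraph with `R` edges and vertex classes `V_j` of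
maximal degrees `Δ_j`. A host is a weight function `h` with values in `[0, 1]` (for instance the indicator
function of a set of cells) on a product `X_1 × … × X_d` of finite weighted sets, of density at least `q`,
together with an arbitrary labelling `φ` of its cells by integers in `[0, x (log x)^K]` (the shifts), such that on
every line in direction `j` every label occupies at most a proportion `η / (log x / q)^{Δ_j}` of the line. A copy of `H`
in the host is a map `t` of the vertices of `V_j` to points of `X_j`; its shifts are the labels `φ(t_e)`, `e ∈ H`. The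
lower bound with the sharp constant holds on average over all copies with distinct shifts, and the individual
lower bound holds for a positive proportion of them.

(B) Complete `d`-partite hypergraphs, even cycles and hypercubes are weakly norming.
-/

set_option autoImplicit false

open Finset Filter

namespace Pool.Agent.Results.MP_e87c7d_nt.NormingPatterns

open Pool.Agent.HL Pool.Agent.HLB Pool.Agent.HLD Pool.Agent.Lib.Sieve4 Pool.Agent.NP

open scoped Classical in
theorem result :
    -- (A) weakly norming patterns in labelled hosts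
    (∀ (d : ℕ) (V : Fin d → Type) [∀ j, Fintype (V j)] [∀ j, DecidableEq (V j)]
      (H : Finset ((j : Fin d) → V j)), H.Nonempty → WeaklyNorming H →
      ∀ Δ : Fin d → ℕ, (∀ j v, (H.filter (fun e => e j = v)).card ≤ Δ j) →
      -- (i) the lower bound on average
      (∀ ε : ℝ, 0 < ε → ∀ K : ℕ, ∃ x₀ : ℕ, ∀ x : ℕ, x₀ ≤ x →
        ∀ (X : Fin d → Type) [∀ j, Fintype (X j)] (w : (j : Fin d) → X j → ℝ)
          (h : ((j : Fin d) → X j) → ℝ) (φ : ((j : Fin d) → X j) → ℕ)
          (S : ((j : Fin d) → V j → X j) → ℝ) (q η : ℝ),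
          (∀ j y, 0 ≤ w j y) → (∀ u, 0 ≤ h u ∧ h u ≤ 1) →
          (∀ u, (φ u : ℝ) ≤ x * Real.log x ^ K) → 0 < q → q ≤ 1 → 0 ≤ η →
          q * ∏ j, ∑ y, w j y ≤ ∑ u : (j : Fin d) → X j, (∏ j, w j (u j)) * h u →
          (∀ (j : Fin d) (u : (j : Fin d) → X j), 0 < h u →
            (Real.log x / q) ^ Δ j * ∑ y ∈ Finset.univ.filter (fun y =>
                φ (Function.update u j y) = φ u ∧ 0 < h (Function.update u j y)), w j y
              ≤ η * ∑ y, w j y) →
          (∀ t : (j : Fin d) → V j → X j,
            Set.InjOn (fun e : (j : Fin d) → V j => φ (fun j => t j (e j))) H →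
            HasProd (fun p : Nat.Primes =>
              (1 - ((H.image (fun e => (φ (fun j => t j (e j)) : ZMod p))).card : ℝ) / (p : ℝ)) *
                ((1 - 1 / (p : ℝ))⁻¹) ^ H.card) (S t)) →
          (1 - ε - (H.card : ℝ) * (H.card - 1) / 2 * η) * ((x / Real.log x ^ H.card) *
              ∑ t ∈ Finset.univ.filter (fun t : (j : Fin d) → V j → X j =>
                Set.InjOn (fun e : (j : Fin d) → V j => φ (fun j => t j (e j))) H),
                ((∏ j, ∏ v, w j (t j v)) * ∏ e ∈ H, h (fun j => t j (e j))) * S t)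
            ≤ ∑ t ∈ Finset.univ.filter (fun t : (j : Fin d) → V j → X j =>
                Set.InjOn (fun e : (j : Fin d) → V j => φ (fun j => t j (e j))) H),
                ((∏ j, ∏ v, w j (t j v)) * ∏ e ∈ H, h (fun j => t j (e j))) *
                  (((Finset.Icc 1 x).filter
                    (fun n : ℕ => ∀ e ∈ H, (n + φ (fun j => t j (e j))).Prime)).card : ℝ) ∧
          (1 - ε - (H.card : ℝ) * (H.card - 1) / 2 * η) * ((x / Real.log x ^ H.card) *
              ∑ t : (j : Fin d) → V j → X j,
                (∏ j, ∏ v, w j (t j v)) * ∏ e ∈ H, h (fun j => t j (e j)))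
            ≤ ∑ t ∈ Finset.univ.filter (fun t : (j : Fin d) → V j → X j =>
                Set.InjOn (fun e : (j : Fin d) → V j => φ (fun j => t j (e j))) H),
                ((∏ j, ∏ v, w j (t j v)) * ∏ e ∈ H, h (fun j => t j (e j))) *
                  (((Finset.Icc 1 x).filter
                    (fun n : ℕ => ∀ e ∈ H, (n + φ (fun j => t j (e j))).Prime)).card : ℝ) ∧
          q ^ H.card * ∏ j, (∑ y, w j y) ^ Fintype.card (V j)
            ≤ ∑ t : (j : Fin d) → V j → X j,
                (∏ j, ∏ v, w j (t j v)) * ∏ e ∈ H, h (fun j => t j (e j))) ∧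
      -- (ii) the individual lower bound, for a positive proportion
      (∀ ρ : ℝ, ρ < 1 → ∃ C δ : ℝ, 0 < C ∧ 0 < δ ∧ ∀ K : ℕ, ∃ x₀ : ℕ, ∀ x : ℕ, x₀ ≤ x →
        ∀ (X : Fin d → Type) [∀ j, Fintype (X j)] (w : (j : Fin d) → X j → ℝ)
          (h : ((j : Fin d) → X j) → ℝ) (φ : ((j : Fin d) → X j) → ℕ)
          (S : ((j : Fin d) → V j → X j) → ℝ) (q : ℝ),
          (∀ j y, 0 ≤ w j y) → (∀ u, 0 ≤ h u ∧ h u ≤ 1) →
          (∀ u, (φ u : ℝ) ≤ x * Real.log x ^ K) → 0 < q → q ≤ 1 →
          q * ∏ j, ∑ y, w j y ≤ ∑ u : (j : Fin d) → X j, (∏ j, w j (u j)) * h u →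
          (∀ (j : Fin d) (u : (j : Fin d) → X j), 0 < h u →
            C * (Real.log x / q) ^ Δ j * ∑ y ∈ Finset.univ.filter (fun y =>
                φ (Function.update u j y) = φ u ∧ 0 < h (Function.update u j y)), w j y
              ≤ ∑ y, w j y) →
          (∀ t : (j : Fin d) → V j → X j,
            Set.InjOn (fun e : (j : Fin d) → V j => φ (fun j => t j (e j))) H →
            HasProd (fun p : Nat.Primes =>
              (1 - ((H.image (fun e => (φ (fun j => t j (e j)) : ZMod p))).card : ℝ) / (p : ℝ)) *
                ((1 - 1 / (p : ℝ))⁻¹) ^ H.card) (S t)) →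
          ∃ G ⊆ Finset.univ.filter (fun t : (j : Fin d) → V j → X j =>
                Set.InjOn (fun e : (j : Fin d) → V j => φ (fun j => t j (e j))) H),
            (∀ t ∈ G,
              (∀ p : ℕ, p.Prime →
                (H.image (fun e => (φ (fun j => t j (e j)) : ZMod p))).card < p) ∧
              0 < S t ∧
              ρ * S t * (x / Real.log x ^ H.card) ≤ (((Finset.Icc 1 x).filter
                  (fun n : ℕ => ∀ e ∈ H, (n + φ (fun j => t j (e j))).Prime)).card : ℝ)) ∧
            δ * ∑ t ∈ Finset.univ.filter (fun t : (j : Fin d) → V j → X j =>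
                Set.InjOn (fun e : (j : Fin d) → V j => φ (fun j => t j (e j))) H),
                ((∏ j, ∏ v, w j (t j v)) * ∏ e ∈ H, h (fun j => t j (e j))) * S t
              ≤ ∑ t ∈ G, ((∏ j, ∏ v, w j (t j v)) * ∏ e ∈ H, h (fun j => t j (e j))) * S t ∧
            δ * ∑ t : (j : Fin d) → V j → X j,
                (∏ j, ∏ v, w j (t j v)) * ∏ e ∈ H, h (fun j => t j (e j))
              ≤ ∑ t ∈ G, ((∏ j, ∏ v, w j (t j v)) * ∏ e ∈ H, h (fun j => t j (e j))) * S t)) ∧
    -- (B) complete hypergraphs, even cycles and hypercubes are weakly norming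
    (∀ (d : ℕ) (V : Fin d → Type) [∀ j, Fintype (V j)] [∀ j, DecidableEq (V j)]
      [∀ j, Nonempty (V j)], WeaklyNorming (Finset.univ : Finset ((j : Fin d) → V j))) ∧
    (∀ (m : ℕ) [NeZero m], WeaklyNorming (cyc m)) ∧
    (∀ m : ℕ, 1 ≤ m → WeaklyNorming (cube m)) := by
  refine ⟨?_, ?_, ?_, ?_⟩
  · -- (A)
    intro d V _ _ H hne hWN Δ hΔ
    -- translation between the two ways of writing the same quantities
    have hinj : ∀ {X : Fin d → Type} (φ : ((j : Fin d) → X j) → ℕ) (t : (j : Fin d) → V j → X j),
        Set.InjOn (fun e : (j : Fin d) → V j => φ (fun j => t j (e j))) H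
          ↔ Function.Injective (sh H φ t) := by
      intro X φ t
      rw [Set.injOn_iff_injective]
      rfl
    have hcnt : ∀ {X : Fin d → Type} (φ : ((j : Fin d) → X j) → ℕ) (t : (j : Fin d) → V j → X j)
        (x : ℕ), (((Finset.Icc 1 x).filter
          (fun n : ℕ => ∀ e ∈ H, (n + φ (fun j => t j (e j))).Prime)).card : ℝ)
          = (cnt (sh H φ t) x : ℝ) := by
      intro X φ t x
      unfold cnt sh pt
      congr 2
      refine Finset.filter_congr fun n _ => ?_
      constructor
      · intro h e
        exact h e.1 e.2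
      · intro h e he
        exact h ⟨e, he⟩
    have himg : ∀ {X : Fin d → Type} (φ : ((j : Fin d) → X j) → ℕ) (t : (j : Fin d) → V j → X j)
        (p : ℕ), (H.image (fun e => (φ (fun j => t j (e j)) : ZMod p))).card
          = nuI (sh H φ t) p := by
      intro X φ t p
      unfold nuI sh pt
      congr 1
      ext c
      simp only [mem_image, mem_univ, true_and, Subtype.exists]
      constructor
      · rintro ⟨e, he, h⟩
        exact ⟨e, he, h⟩
      · rintro ⟨e, he, h⟩
        exact ⟨e, he, h⟩
    have hSSI : ∀ {X : Fin d → Type} (φ : ((j : Fin d) → X j) → ℕ)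
        (S : ((j : Fin d) → V j → X j) → ℝ),
        (∀ t : (j : Fin d) → V j → X j,
            Set.InjOn (fun e : (j : Fin d) → V j => φ (fun j => t j (e j))) H →
            HasProd (fun p : Nat.Primes =>
              (1 - ((H.image (fun e => (φ (fun j => t j (e j)) : ZMod p))).card : ℝ) / (p : ℝ)) *
                ((1 - 1 / (p : ℝ))⁻¹) ^ H.card) (S t)) →
        ∀ t, Function.Injective (sh H φ t) → S t = SI (sh H φ t) := by
      intro X φ S hS t ht
      have h1 := hS t ((hinj φ t).mpr ht)
      have h2 := hasProd_SI (sh H φ t) ht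
      unfold locI at h2
      rw [Fintype.card_coe] at h2
      simp only [himg] at h1
      exact h1.unique h2
    have hline_conv : ∀ {X : Fin d → Type} [∀ j, Fintype (X j)] (w : (j : Fin d) → X j → ℝ)
        (h : ((j : Fin d) → X j) → ℝ) (φ : ((j : Fin d) → X j) → ℕ) (j : Fin d)
        (u : (j : Fin d) → X j), ∑ y ∈ Finset.univ.filter (fun y =>
                φ (Function.update u j y) = φ u ∧ 0 < h (Function.update u j y)), w j y
          = ∑ y : X j, (if φ (Function.update u j y) = φ u ∧
            0 < h (Function.update u j y) then w j y else 0) := by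
      intro X _ w h φ j u
      rw [Finset.sum_filter]
    constructor
    · -- (i)
      intro ε hε K
      obtain ⟨x₀, hx₀⟩ := eventually_atTop.mp (host_lower sw_holds hne hWN Δ hΔ hε K)
      refine ⟨x₀, fun x hx X _ w h φ S q η hw hh hφ hq0 hq1 hη hdens hline hS => ?_⟩
      obtain ⟨h1, h2⟩ := hx₀ x hx X w h φ hw hh hφ q η hq0 hq1 hη hdens (by
        intro j u hu
        have h3 := hline j u hu
        rw [hline_conv w h φ j u] at h3
        convert h3 using 2)
      have h4 := host_density hne hWN w hw h (fun u => (hh u).1) hq0.le hdens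
      rw [sum_wt_eq] at h4
      simp only [hinj, hcnt]
      refine ⟨?_, h2, h4⟩
      refine le_trans (le_of_eq ?_) h1
      congr 2
      refine Finset.sum_congr rfl fun t ht => ?_
      rw [hSSI φ S hS t (mem_filter.mp ht).2]
      rfl
    · -- (ii)
      intro ρ hρ
      set ρ' : ℝ := max ρ (1 / 2) with hρ'
      have hρ'0 : 0 < ρ' := lt_of_lt_of_le (by norm_num) (le_max_right _ _)
      obtain ⟨C, δ, hC, hδ, hmain⟩ := host_proportion sw_holds hne hWN Δ hΔ (ρ := ρ') hρ'0
        (max_lt hρ (by norm_num))
      refine ⟨C, δ, hC, hδ, fun K => ?_⟩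
      obtain ⟨x₀, hx₀⟩ := eventually_atTop.mp (hmain K)
      refine ⟨x₀, fun x hx X _ w h φ S q hw hh hφ hq0 hq1 hdens hline hS => ?_⟩
      obtain ⟨G, hG, hGa, hG1, hG2⟩ := hx₀ x hx X w h φ hw hh hφ q hq0 hq1 hdens (by
        intro j u hu
        have h3 := hline j u hu
        rw [hline_conv w h φ j u] at h3
        convert h3 using 2)
      simp only [hinj, hcnt, himg]
      have hGinj : ∀ t ∈ G, Function.Injective (sh H φ t) := fun t ht => (mem_filter.mp (hG ht)).2
      have hGS : ∑ t ∈ G, ((∏ j, ∏ v, w j (t j v)) * ∏ e ∈ H, h (fun j => t j (e j))) * S t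
          = ∑ t ∈ G, hwt H w h t * SI (sh H φ t) := by
        refine Finset.sum_congr rfl fun t ht => ?_
        rw [hSSI φ S hS t (hGinj t ht)]
        rfl
      refine ⟨G, hG, fun t ht => ?_, ?_, ?_⟩
      · obtain ⟨hadm, hlow⟩ := hGa t ht
        have hpos : 0 < SI (sh H φ t) := by
          refine lt_of_lt_of_le ?_ (c0_le_SI (sh H φ t) (hGinj t ht) ?_ hadm)
          · exact c0_pos _ (by rw [Fintype.card_coe]; exact hne.card_pos)
          · rw [Fintype.card_coe]; exact hne.card_pos
        refine ⟨hadm, by rw [hSSI φ S hS t (hGinj t ht)]; exact hpos, ?_⟩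
        rw [hSSI φ S hS t (hGinj t ht)]
        refine le_trans ?_ hlow
        have hX : 0 ≤ (x:ℝ) / Real.log x ^ H.card := by
          have := Real.log_natCast_nonneg x
          positivity
        have : ρ ≤ ρ' := le_max_left _ _
        gcongr
      · rw [hGS]
        refine le_trans (le_of_eq ?_) hG1
        congr 1
        refine Finset.sum_congr rfl fun t ht => ?_
        rw [hSSI φ S hS t (mem_filter.mp ht).2]
        rfl
      · rw [hGS]; exact hG2
  · -- (B), complete hypergraphs
    intro d V _ _ _
    have hne : (Finset.univ : Finset ((j : Fin d) → V j)).Nonempty := Finset.univ_nonempty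
    exact weaklyNorming_of_holder hne (holder_of_percolates hne percolates_complete)
  · -- (B), cycles
    intro m _
    have hne : (cyc m).Nonempty := ⟨fun _ => 0, by
      unfold cyc
      simp⟩
    exact weaklyNorming_of_holder hne (holder_of_percolates hne (percolates_cyc m))
  · -- (B), hypercubes
    intro m hm
    have hne : (cube m).Nonempty := by
      obtain ⟨k, rfl⟩ : ∃ k, m = k + 1 := ⟨m - 1, by omega⟩
      let a : Fin (k + 1) → Fin 2 := fun _ => 0
      let b : Fin (k + 1) → Fin 2 := fun i => if i = 0 then 1 else 0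
      have ha : ∑ i, a i = 0 := by simp [a]
      have hb : ∑ i, b i = 1 := by simp [b]
      let e : (j : Fin 2) → cubeV (k + 1) j := fun j =>
        match j with
        | 0 => ⟨a, ha⟩
        | 1 => ⟨b, hb⟩
      refine ⟨e, ?_⟩
      unfold cube
      rw [Finset.mem_filter]
      refine ⟨Finset.mem_univ _, ?_⟩
      have h1 : (Finset.univ.filter (fun i : Fin (k + 1) => (e 0).1 i ≠ (e 1).1 i)) = {0} := by
        ext i
        simp only [e, a, b, mem_filter, mem_univ, true_and, mem_singleton]
        split_ifs with h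
        · simp [h]
        · simp [h]
      rw [h1, Finset.card_singleton]
    exact weaklyNorming_of_holder hne (holder_of_percolates hne (percolates_cube m hm))

end Pool.Agent.Results.MP_e87c7d_nt.NormingPatterns
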