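import Pool.Agent.Lib.GMV.Fin3
import Pool.Agent.Lib.GMV.PosFin
import Pool.Agent.Lib.GMV.ZFr

/-!
# Prime tuples: the Hardy-Littlewood asymptotic with a power saving exceptional set

Notation: `count X (tup a)` is the number of `1 ≤ n ≤ X` such that `n, n + a 1, ..., n + a r` are all prime,
`S (tup a)` the singular series, `hl y (tup a)` the Hardy-Littlewood value
`S ∑ n ∈ [2, y], 1 / (log n log (n + a 1) ... log (n + a r))`, and `AllBut r X E P` says that all but at most `E`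
of the `a ∈ [0, X]^r` for which `0, a 1, ..., a r` are distinct and without local obstruction satisfy `P`.

`result` (for every `r ≥ 1`):

1. for ALL large `X`, all but `X ^ (r - δ)` of the admissible `a` have at least `X ^ (1 - η)` prime tuples `n + (0, a)`
   up to `X`, and at least `κ₀ m S X / (log X) ^ (r + 1)` of them, where `m = m(X) ∈ [X ^ (-η), 1]` does not depend on `a`
   (`δ, κ₀` depend only on `r`, `η > 0` is arbitrary);
2. for arbitrarily large `X`, all but `X ^ (r - δ)` of the admissible `a` satisfy the Hardy-Littlewood asymptotic formula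
   up to `ε S X / (log X) ^ (r + 1)`, for all `y ≤ X`;
3. for ALL large `X`, the same for all but `X ^ (r - δ)` of the admissible `a` such that the product `Delta` of the
   differences of `0, a 1, ..., a r` has no divisor in `(w, X ^ κ]` (`w, κ, ε` arbitrary and fixed);
4. the same with error `S X / (log X) ^ (r + 1 + A)`, divisors in `((log X) ^ B, X ^ κ]` and
   `X ^ r exp (-δ log X / log log X)` exceptions, for all fixed `A, B, κ`;
5. the general theorem behind 2, 3, 4: for every `b > 0` there are `c, C > 0` such that for large `X` and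
   `exp (√(log X)) ≤ Q ≤ X ^ c` there is `q` which is `0` or the modulus `≤ Q` of a real primitive character with a zero
   in `[1 - b / log Q, 1)`, such that all but `X ^ r Q ^ (-1/5)` of the admissible `a` satisfy the formula up to
   `C S X / (log X) ^ (r + 1)` times `exp (-c log X / log Q) + (q / gcd (q, Delta)) ^ (-1/4)` (second term absent if
   `q = 0`).

The proof is unconditional; the library `Pool.Agent.Lib.GMV` contains the explicit formula with a smooth weight, the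
log-free zero density estimate, the zero free region with at most one exceptional zero, the Deuring-Heilbronn
repulsion, and the argument for prime tuples (models with characters, expansion in Farey fractions, moments).
-/

set_option autoImplicit false

open Finset Filter

namespace Pool.Agent.Results.MP_e87c7d_nt.PowerSaving

/-- The number of `1 ≤ n ≤ y` such that all `n + b i` are prime. -/
def count {k : ℕ} (y : ℕ) (b : Fin k → ℕ) : ℕ :=
  ((Finset.Icc 1 y).filter (fun n : ℕ => ∀ i, (n + b i).Prime)).card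

/-- The number of residue classes modulo `p` occupied by `b`. -/
def classes {k : ℕ} (b : Fin k → ℕ) (p : ℕ) : ℕ :=
  (Finset.univ.image (fun i : Fin k => (b i : ZMod p))).card

/-- The singular series. -/
noncomputable def S {k : ℕ} (b : Fin k → ℕ) : ℝ :=
  ∏' p : Nat.Primes, ((1 - (classes b p : ℝ) / (p : ℝ)) * ((1 - 1 / (p : ℝ))⁻¹) ^ k)

/-- Distinct integers without local obstruction. -/
def Admissible {k : ℕ} (b : Fin k → ℕ) : Prop :=
  Function.Injective b ∧ ∀ p : ℕ, p.Prime → classes b p < p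

/-- The product of the differences `|b i - b j|`, `i < j`. -/
def Delta {k : ℕ} (b : Fin k → ℕ) : ℕ :=
  ∏ i, ∏ j ∈ univ.filter (fun j => i < j), ((b i : ℤ) - b j).natAbs

/-- The Hardy-Littlewood value. -/
noncomputable def hl {k : ℕ} (y : ℕ) (b : Fin k → ℕ) : ℝ :=
  S b * ∑ n ∈ Finset.Icc 2 y, ∏ i, (Real.log (n + b i))⁻¹

/-- The tuple `(0, a_1, ..., a_r)`. -/
def tup {r : ℕ} (a : Fin r → ℕ) : Fin (r + 1) → ℕ := Fin.cons 0 a

open scoped Classical in
/-- All but at most `E` of the tuples `a` in `[0, X]^r` with `(0, a)` admissible satisfy `P`. -/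
def AllBut (r X : ℕ) (E : ℝ) (P : (Fin r → ℕ) → Prop) : Prop :=
  (((Fintype.piFinset fun _ : Fin r => Finset.range (X + 1)).filter
    fun a => Admissible (tup a) ∧ ¬ P a).card : ℝ) ≤ E

/-- `q = 0`, or `q ≤ Q` is the modulus of a real primitive character `χ ≠ 1` whose L-function has a
zero in `[1 - b / log Q, 1)`. -/
def Exceptional (b : ℝ) (Q q : ℕ) : Prop :=
  q = 0 ∨ ∃ (m : ℕ) (χ : DirichletCharacter ℂ (m + 1)) (β : ℝ), q = m + 1 ∧ q ≤ Q ∧
    χ.IsPrimitive ∧ χ ≠ 1 ∧ χ ^ 2 = 1 ∧ DirichletCharacter.LFunction χ (β : ℂ) = 0 ∧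
    1 - b / Real.log Q ≤ β ∧ β < 1

section Bridge

open Pool.Agent.HLB Pool.Agent.HLT Pool.Agent.HLR Pool.Agent.Lib.GMV

private lemma S_eq {k : ℕ} (b : Fin k → ℕ) : S b = SI b := by
  unfold S SI
  refine tprod_congr fun p => ?_
  unfold locI classes nuI
  rw [Fintype.card_fin]

private lemma allBut_of {r X : ℕ} {E : ℝ} {P P' : (Fin r → ℕ) → Prop} (h : AB r X E P)
    (hP : ∀ a, P a → P' a) : AllBut r X E P' := by
  classical
  obtain ⟨F, hF, h⟩ := h
  refine le_trans ?_ hF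
  norm_cast
  refine Finset.card_le_card fun a ha => ?_
  rw [mem_filter] at ha
  obtain ⟨h1, h2, h3⟩ := ha
  by_contra hcon
  exact h3 (hP a (h a h1 hcon h2.1 h2.2))

private lemma good_of {r X : ℕ} {e : ℝ} {a : Fin r → ℕ} (h : Good r X e a) :
    ∀ y ≤ X, |(count y (tup a) : ℝ) - hl y (tup a)| ≤
      e * (S (tup a) * X / Real.log X ^ (r + 1)) := by
  intro y hy
  have := h y hy
  unfold hl
  rw [S_eq]
  exact this

private lemma exc_of {c b : ℝ} {Q q : ℕ} (hQ : 0 < Real.log Q) (hcb : c ≤ b) (h : ExMod c Q q) :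
    Exceptional b Q q := by
  rcases h with ⟨h0, -⟩ | ⟨x, β, ⟨h1, h2, h3, h4, h5, h6⟩, hq⟩
  · exact Or.inl h0
  · right
    refine ⟨x.1, x.2, β, hq, ?_, (mem_Ch.1 h1).2, h2, h3, ?_, ?_, h6⟩
    · rw [hq]
      exact (mem_Ch.1 h1).1
    · rwa [Lf_of_ne h2] at h4
    · have : c / Real.log Q ≤ b / Real.log Q := div_le_div_of_nonneg_right hcb hQ.le
      linarith

/-- The two lower bounds. -/
private lemma pos_both (r : ℕ) (hr : 1 ≤ r) :
    ∃ δ κ0 : ℝ, 0 < δ ∧ 0 < κ0 ∧ ∀ η : ℝ, 0 < η → ∃ X0 : ℕ, ∀ X : ℕ, X0 ≤ X →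
    ∃ m : ℝ, (X : ℝ) ^ (-η) ≤ m ∧ m ≤ 1 ∧ AB r X ((X : ℝ) ^ ((r : ℝ) - δ)) fun a =>
      (X : ℝ) ^ (1 - η) ≤ (((Icc 1 X).filter (fun n => ∀ i, (n + c0 a i).Prime)).card : ℝ) ∧
      κ0 * m * (SI (c0 a) * X / Real.log X ^ (r + 1)) ≤
        (((Icc 1 X).filter (fun n => ∀ i, (n + c0 a i).Prime)).card : ℝ) := by
  obtain ⟨δ, κ0, hδ, hκ, H⟩ := pos_sharp r hr
  obtain ⟨c, hc, hsi⟩ := si_ge (r + 1) (by omega)
  refine ⟨δ, κ0, hδ, hκ, fun η hη => ?_⟩
  obtain ⟨X0, hX0⟩ := H (η / 2) (by positivity)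
  -- a power of `X` beats the logarithms
  have h1 : Tendsto (fun X : ℕ => (X : ℝ) ^ (η / 2) / Real.log X ^ (r + 1)) atTop atTop := by
    have h2 := (isLittleO_log_rpow_rpow_atTop ((r + 1 : ℕ) : ℝ)
      (by positivity : 0 < η / 2)).tendsto_div_nhds_zero
    have h3 : Tendsto (fun x : ℝ => x ^ (η / 2) / Real.log x ^ ((r + 1 : ℕ) : ℝ)) atTop atTop := by
      have h4 : Tendsto (fun x : ℝ => Real.log x ^ ((r + 1 : ℕ) : ℝ) / x ^ (η / 2)) atTop
          (nhdsWithin 0 (Set.Ioi 0)) := by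
        refine tendsto_nhdsWithin_iff.2 ⟨h2, ?_⟩
        filter_upwards [eventually_gt_atTop 1] with x hx
        have hx0 : 0 < x := by linarith
        exact div_pos (Real.rpow_pos_of_pos (Real.log_pos hx) _) (Real.rpow_pos_of_pos hx0 _)
      have h5 := h4.inv_tendsto_nhdsGT_zero
      refine h5.congr fun x => ?_
      rw [Pi.inv_apply, inv_div]
    refine (h3.comp tendsto_natCast_atTop_atTop).congr fun X => ?_
    simp only [Function.comp_apply, Real.rpow_natCast]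
  obtain ⟨X1, hX1⟩ := eventually_atTop.1 ((h1.eventually_ge_atTop (1 / (κ0 * c))).and
    (eventually_ge_atTop 3))
  refine ⟨max X0 X1, fun X hX => ?_⟩
  obtain ⟨m, hm1, hm2, F, hF, hFa⟩ := hX0 X ((le_max_left _ _).trans hX)
  obtain ⟨hg, hX3'⟩ := hX1 X ((le_max_right _ _).trans hX)
  have hX3 : (3 : ℝ) ≤ X := by exact_mod_cast hX3'
  have hXp : (0 : ℝ) < X := by linarith
  have hX1' : (1 : ℝ) ≤ X := by linarith
  have hlog : 0 < Real.log X := Real.log_pos (by linarith)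
  have hlp : 0 < Real.log X ^ (r + 1) := pow_pos hlog _
  refine ⟨m, (Real.rpow_le_rpow_of_exponent_le hX1' (by linarith)).trans hm1, hm2, F, hF,
    fun a ha haF hinj hadm => ⟨?_, hFa a ha haF hinj hadm⟩⟩
  refine le_trans ?_ (hFa a ha haF hinj hadm)
  have hs := hsi (c0 a) hinj hadm
  have hm0 : 0 < (X : ℝ) ^ (-(η / 2)) := Real.rpow_pos_of_pos hXp _
  have h6 : 1 ≤ κ0 * c * ((X : ℝ) ^ (η / 2) / Real.log X ^ (r + 1)) := by
    have := mul_le_mul_of_nonneg_left hg (by positivity : 0 ≤ κ0 * c)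
    have e : κ0 * c * (1 / (κ0 * c)) = 1 := by field_simp
    rw [e] at this
    exact this
  have h7 : (X : ℝ) ^ (1 - η) = (X : ℝ) ^ (-(η / 2)) * ((X : ℝ) ^ (-(η / 2)) * X) := by
    rw [← mul_assoc, ← Real.rpow_add hXp, ← Real.rpow_add_one hXp.ne']
    congr 1
    ring
  have h8 : (X : ℝ) ^ (-(η / 2)) * (X : ℝ) ^ (η / 2) = 1 := by
    rw [← Real.rpow_add hXp, neg_add_cancel, Real.rpow_zero]
  calc (X : ℝ) ^ (1 - η) = (X : ℝ) ^ (-(η / 2)) * ((X : ℝ) ^ (-(η / 2)) * X) * 1 := by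
        rw [mul_one, h7]
    _ ≤ (X : ℝ) ^ (-(η / 2)) * ((X : ℝ) ^ (-(η / 2)) * X) *
        (κ0 * c * ((X : ℝ) ^ (η / 2) / Real.log X ^ (r + 1))) :=
        mul_le_mul_of_nonneg_left h6 (by positivity)
    _ = (X : ℝ) ^ (-(η / 2)) * (κ0 * c) * (X / Real.log X ^ (r + 1)) *
        ((X : ℝ) ^ (-(η / 2)) * (X : ℝ) ^ (η / 2)) := by ring
    _ = (X : ℝ) ^ (-(η / 2)) * (κ0 * c) * (X / Real.log X ^ (r + 1)) := by rw [h8, mul_one]
    _ ≤ m * (κ0 * SI (c0 a)) * (X / Real.log X ^ (r + 1)) := by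
        apply mul_le_mul_of_nonneg_right _ (by positivity)
        exact mul_le_mul hm1 (mul_le_mul_of_nonneg_left hs hκ.le) (by positivity)
          (hm0.le.trans hm1)
    _ = κ0 * m * (SI (c0 a) * X / Real.log X ^ (r + 1)) := by ring

end Bridge

open Pool.Agent.Lib.GMV in
theorem result (r : ℕ) (hr : 1 ≤ r) :
    (∃ δ > 0, ∃ κ₀ > 0, ∀ η > 0, ∃ X0 : ℕ, ∀ X ≥ X0, ∃ m : ℝ, (X : ℝ) ^ (-η) ≤ m ∧ m ≤ 1 ∧
      AllBut r X ((X : ℝ) ^ (r - δ : ℝ)) fun a =>
        (X : ℝ) ^ (1 - η : ℝ) ≤ count X (tup a) ∧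
        κ₀ * m * (S (tup a) * X / Real.log X ^ (r + 1)) ≤ count X (tup a)) ∧
    (∀ ε > 0, ∃ δ > 0, ∀ N : ℕ, ∃ X ≥ N, AllBut r X ((X : ℝ) ^ (r - δ : ℝ)) fun a =>
      ∀ y ≤ X, |(count y (tup a) : ℝ) - hl y (tup a)| ≤
        ε * (S (tup a) * X / Real.log X ^ (r + 1))) ∧
    (∀ ε > 0, ∀ κ > 0, ∀ w : ℕ, ∃ δ > 0, ∃ X0 : ℕ, ∀ X ≥ X0,
      AllBut r X ((X : ℝ) ^ (r - δ : ℝ)) fun a =>
      (∃ d : ℕ, d ∣ Delta (tup a) ∧ w < d ∧ (d : ℝ) ≤ (X : ℝ) ^ (κ : ℝ)) ∨
      ∀ y ≤ X, |(count y (tup a) : ℝ) - hl y (tup a)| ≤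
        ε * (S (tup a) * X / Real.log X ^ (r + 1))) ∧
    (∀ (A B : ℕ), ∀ κ > 0, ∃ δ > 0, ∃ X0 : ℕ, ∀ X ≥ X0,
      AllBut r X ((X : ℝ) ^ r * Real.exp (-(δ * Real.log X / Real.log (Real.log X)))) fun a =>
      (∃ d : ℕ, d ∣ Delta (tup a) ∧ Real.log X ^ B < d ∧ (d : ℝ) ≤ (X : ℝ) ^ (κ : ℝ)) ∨
      ∀ y ≤ X, |(count y (tup a) : ℝ) - hl y (tup a)| ≤
        1 / Real.log X ^ A * (S (tup a) * X / Real.log X ^ (r + 1))) ∧
    (∀ b > 0, ∃ c > 0, ∃ C > 0, ∃ X0 : ℕ, ∀ X ≥ X0, ∀ Q : ℕ,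
      Real.exp (Real.sqrt (Real.log X)) ≤ Q → (Q : ℝ) ≤ (X : ℝ) ^ (c : ℝ) →
      ∃ q : ℕ, Exceptional b Q q ∧ AllBut r X ((X : ℝ) ^ r * (Q : ℝ) ^ (-(1 / 5 : ℝ))) fun a =>
        ∀ y ≤ X, |(count y (tup a) : ℝ) - hl y (tup a)| ≤
          C * (S (tup a) * X / Real.log X ^ (r + 1)) *
            (Real.exp (-(c * Real.log X / Real.log Q)) +
              if q = 0 then 0 else ((q : ℝ) / (Nat.gcd q (Delta (tup a)) : ℝ)) ^ (-(1 / 4 : ℝ)))) := by
  obtain ⟨c1, hc1, hZ⟩ := zero_free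
  have hZ' : ZFree c1 := hZ
  refine ⟨?_, fun ε hε => ?_, fun ε hε κ hκ w => ?_, fun A B κ hκ => ?_, fun b hb => ?_⟩
  · obtain ⟨δ, κ0, hδ, hκ, h⟩ := pos_both r hr
    refine ⟨δ, hδ, κ0, hκ, fun η hη => ?_⟩
    obtain ⟨X0, h2⟩ := h η hη
    refine ⟨X0, fun X hX => ?_⟩
    obtain ⟨m, hm1, hm2, hAB⟩ := h2 X hX
    refine ⟨m, hm1, hm2, allBut_of hAB fun a ha => ?_⟩
    rw [S_eq]
    exact ha
  · obtain ⟨δ, hδ, h⟩ := fin_inf r hr c1 hZ' hc1 ε hε
    refine ⟨δ, hδ, fun N => ?_⟩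
    obtain ⟨X, hX, h2⟩ := h N
    exact ⟨X, hX, allBut_of h2 fun a ha => good_of ha⟩
  · obtain ⟨δ, hδ, X0, h⟩ := fin_div r hr c1 hZ' hc1 ε hε κ hκ w
    refine ⟨δ, hδ, X0, fun X hX => allBut_of (h X hX) fun a ha => ?_⟩
    rcases ha with h1 | h2
    · exact Or.inl h1
    · exact Or.inr (good_of h2)
  · obtain ⟨δ, hδ, X0, h⟩ := fin_log r hr c1 hZ' hc1 A B κ hκ
    refine ⟨δ, hδ, X0, fun X hX => allBut_of (h X hX) fun a ha => ?_⟩
    rcases ha with h1 | h2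
    · exact Or.inl h1
    · exact Or.inr (good_of h2)
  · obtain ⟨a, C, c2, ha, hC, hc2, X0, h⟩ := core r hr c1 (min b (c1 / 2)) hZ'
      (lt_min hb (by linarith)) (lt_of_le_of_lt (min_le_right _ _) (by linarith))
    refine ⟨min a c2, lt_min ha hc2, C, hC, max X0 3, fun X hX Q h1 h2 => ?_⟩
    have hX3 : 3 ≤ X := (le_max_right _ _).trans hX
    have hX1 : (1 : ℝ) ≤ X := by
      have : (3 : ℝ) ≤ X := by exact_mod_cast hX3
      linarith
    have hL : 0 < Real.log X := Real.log_pos (by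
      have : (3 : ℝ) ≤ X := by exact_mod_cast hX3
      linarith)
    have hQ1 : 1 < (Q : ℝ) := lt_of_lt_of_le (Real.one_lt_exp_iff.mpr (Real.sqrt_pos.mpr hL)) h1
    have hQ : 0 < Real.log Q := Real.log_pos hQ1
    obtain ⟨q, hq, F, hF, hgood⟩ := h X Q ((le_max_left _ _).trans hX) h1
      (h2.trans (Real.rpow_le_rpow_of_exponent_le hX1 (min_le_right _ _)))
    refine ⟨q, exc_of hQ (min_le_left _ _) hq, ?_⟩
    refine allBut_of (P := fun a' => ∀ y : ℕ, y ≤ X →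
      |(((Icc 1 y).filter (fun n => ∀ i, (n + c0 a' i).Prime)).card : ℝ) -
        Pool.Agent.HLB.SI (c0 a') * ∑ n ∈ Icc 2 y, ∏ i, (Real.log (n + c0 a' i))⁻¹| ≤
        C * (Pool.Agent.HLB.SI (c0 a') * X / Real.log X ^ (r + 1)) * (Er a X Q + Gq q (c0 a')) ∧
        Function.Injective (c0 a'))
      ⟨F, hF, fun a' h3 h4 h5 h6 y hy => ⟨hgood a' h3 h4 h5 h6 y hy, h5⟩⟩ fun a' ha' y hy => ?_
    obtain ⟨h7, h8⟩ := ha' y hy
    unfold hl
    rw [S_eq]
    refine le_trans h7 ?_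
    have hM : 0 ≤ Pool.Agent.HLB.SI (c0 a') * X / Real.log X ^ (r + 1) :=
      div_nonneg (mul_nonneg (Pool.Agent.HLB.SI_nonneg _ h8) (by linarith)) (pow_nonneg hL.le _)
    have hG := (Gq_le_one q (c0 a')).1
    have hEr : Er a X Q ≤ Real.exp (-(min a c2 * Real.log X / Real.log Q)) := by
      unfold Er
      apply Real.exp_le_exp.mpr
      rw [neg_le_neg_iff]
      exact div_le_div_of_nonneg_right (mul_le_mul_of_nonneg_right (min_le_left _ _) hL.le) hQ.le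
    have hGe : Gq q (c0 a') = if q = 0 then 0 else
      ((q : ℝ) / (Nat.gcd q (Delta (tup a')) : ℝ)) ^ (-(1 / 4 : ℝ)) := rfl
    rw [← hGe]
    have hEr0 : 0 ≤ Er a X Q := (Real.exp_pos _).le
    exact mul_le_mul_of_nonneg_left (add_le_add_left hEr _) (mul_nonneg hC.le hM)

end Pool.Agent.Results.MP_e87c7d_nt.PowerSaving
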