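import Pool.Agent.Lib.VN.Every
import Pool.Agent.Lib.VK.PolySub
import Pool.Agent.Lib.VK.SepSieve
import Pool.Agent.Lib.VM.WinSup6
import Pool.Agent.Lib.BLF.GenMs
import Pool.Agent.Lib.BLF.FromMs

/-!
# Prime tuples whose shifts are products of few parameters from short ranges

The shifts are functions of parameters `t = (t_1, …, t_m)`, `1 ≤ t_k ≤ H_k`. There are `r` slots; the slot `e` belongs
to the pair `i_e ≤ j_e` of indices of parameters, and different slots belong to different pairs. If `i_e < j_e`, then the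
shift is the product `v_e + t_{i_e} t_{j_e}`, where `H_{i_e} H_{j_e} ≥ x^(1/6 + ε)`; if `i_e = j_e`, then the shift is
an arbitrary injective function `τ_e (t_{i_e})` of one parameter, whose set of values has a sparse spectrum at a scale
`G_e ≥ x^(1/6 + ε)`.

`SparseSpectrum F b₀ H T`: every set of frequencies which are `1/H`-separated modulo one and at which
`|∑_{t ∈ T} e(t θ)| ≥ |T| / (log H)^b`, `b ≤ b₀`, has at most `(log H)^(F b)` elements.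

A family of `r`-tuples of shifts `a t`, `t ∈ P`, is called universal at `x` (parameters `K, A, B`) if for EVERY sequence
`w` with `|w n| ≤ (log x)^K` and EVERY shift `c ≤ x`, all but `|P| / (log x)^A` of the `t ∈ P` have two properties:
* for all `y ≤ x` the sum of `w n` over the `n ≤ y` with all `n + a_e t` prime is, up to `x / (log x)^A`, the sum of
  `w n` times the sieve model of the primes at the `n + a_e t`;
* if the shifts `c, a_1 t, …, a_r t` are distinct, then the Hardy-Littlewood formula for them holds for all `y ≤ x`, up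
  to `x / (log x)^A`.

1. Every system of slots is universal, on all product sets `∏ T_k` with `T_k ⊂ [1, H_k]`, `|T_k| ≥ H_k / (log x)^K`.
2. Products and powers: the shifts `u_e + t_{i_e} t_{j_e}`, `i_e < j_e`, and `u_e + (t_{i_e})^(d_e)`, `i_e = j_e`, are
   universal if `x^(1/6 + ε) ≤ H_{i_e} H_{j_e}` and `x^(1/6 + ε) ≤ (H_{i_e})^(d_e)`, respectively. For instance
   (`r = m`, all slots with `i_e = j_e` and `d_e = 1`) the Hardy-Littlewood formula holds for almost all tuples from ANY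
   intervals `(u_e, u_e + H_e]` in `[0, x]` of length `H_e ≥ x^(1/6 + ε)`; and all the `m (m + 1) / 2` products `t_i t_j`,
   `i ≤ j`, are universal for `x^(1/12 + ε) ≤ H ≤ x^(1/2)` and `1 ≤ t_1, …, t_m ≤ H`.
3. Sets of logarithmic size: let `T_j ⊂ [0, H_j]` have a sparse spectrum at the scale `H_j ≥ x^(1/6 + ε)` and let
   `(log x)^C ≤ D_j ≤ (log x)^K'`. For all but a proportion `1 / (log x)^A` of the `D_j`-element subsets `S_j` of `T_j`,
   the tuples from `(S_1 + β_1) × … × (S_m + β_m)` are universal at `x`, for ALL `β_j ≤ x - H_j`.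
-/

set_option autoImplicit false

open Finset Filter

namespace Pool.Agent.Results.MP_e87c7d_nt.ProductShifts

open Pool.Agent.HLB Pool.Agent.HLT Pool.Agent.HLU Pool.Agent.VK Pool.Agent.VN Pool.Agent.BLF
open Pool.Agent.Lib.Sieve4 (c0 c0_pos)

/-- For every `b ≤ b₀`, every set `Θ` of real numbers which are `1 / H`-separated modulo one and satisfy
`|∑ t ∈ T, exp (2 π i t θ)| ≥ |T| / (log H)^b` has at most `(log H)^(F b)` elements. -/
def SparseSpectrum (F : ℕ → ℕ) (b₀ H : ℕ) (T : Finset ℕ) : Prop :=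
  ∀ b ≤ b₀, ∀ Θ : Finset ℝ,
    (∀ θ ∈ Θ, ∀ θ' ∈ Θ, θ ≠ θ' → ∀ k : ℤ, 1 / (H : ℝ) ≤ |θ - θ' - k|) →
    (∀ θ ∈ Θ, (T.card : ℝ) ≤ Real.log H ^ b *
      ‖∑ t ∈ T, Complex.exp (2 * Real.pi * Complex.I * (t * θ))‖) →
    (Θ.card : ℝ) ≤ Real.log H ^ F b

/-- The factor at the prime `q` of the singular series of the shifts `f i`. -/
noncomputable def factor {r : ℕ} (f : Fin r → ℕ) (q : ℕ) : ℝ :=
  (1 - ((univ.image (fun i => (f i : ZMod q))).card : ℝ) / (q : ℝ)) * ((1 - 1 / (q : ℝ))⁻¹) ^ r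

/-- `1 / ((log n) ∏_{q ≤ z} (1 - 1 / q))` if `n` has no prime factor `q ≤ z`, and `0` otherwise. -/
noncomputable def model (z n : ℕ) : ℝ :=
  if ∀ q ∈ Nat.primesLE z, ¬ q ∣ n then
    (∏ q ∈ Nat.primesLE z, (1 - 1 / (q : ℝ)))⁻¹ / Real.log n else 0

/-- The Hardy-Littlewood formula for the shifts `f i` and all `y ≤ x`, with the error `e`. The singular series `S`
is at least `κ` unless it vanishes for the obvious reason. -/
def HardyLittlewood {r : ℕ} (κ : ℝ) (f : Fin r → ℕ) (x : ℕ) (e : ℝ) : Prop :=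
  ∃ S : ℝ, HasProd (fun q : Nat.Primes => factor f q) S ∧
    ((∀ q : ℕ, q.Prime → (univ.image (fun i => (f i : ZMod q))).card < q) → κ ≤ S) ∧
    ∀ y : ℕ, y ≤ x →
      |(((Icc 1 y).filter (fun n : ℕ => ∀ i, (n + f i).Prime)).card : ℝ) -
        S * ∑ n ∈ Icc 2 y, ∏ i, 1 / Real.log ((n + f i : ℕ) : ℝ)| ≤ e

/-- The family of `r`-tuples of shifts `a t`, `t ∈ P`, is universal at `x`. -/
def Universal {m r : ℕ} (K A B : ℕ) (κ : ℝ) (x : ℕ) (P : Finset (Fin m → ℕ)) (a : (Fin m → ℕ) → Fin r → ℕ) : Prop :=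
  ∀ w : ℕ → ℂ, (∀ n : ℕ, 1 ≤ n → n ≤ x → ‖w n‖ ≤ Real.log x ^ K) → ∀ c : ℕ, c ≤ x →
    ∃ E ⊆ P, (E.card : ℝ) ≤ P.card / Real.log x ^ A ∧
      ∀ t ∈ P, t ∉ E →
        (∀ y : ℕ, y ≤ x →
          ‖∑ n ∈ (Icc 1 y).filter (fun n : ℕ => ∀ e, (n + a t e).Prime), w n -
              ∑ n ∈ Icc 1 y, w n * ∏ e, (model ⌊Real.log x ^ B⌋₊ (n + a t e) : ℂ)‖ ≤
            x / Real.log x ^ A) ∧
        (Function.Injective (Fin.cons c (a t) : Fin (r + 1) → ℕ) →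
          HardyLittlewood κ (Fin.cons c (a t) : Fin (r + 1) → ℕ) x (x / Real.log x ^ A))

/-- The shift of the slot `e`: a function of one parameter if `i e = j e`, a shifted product if `i e ≠ j e`. -/
def slot {m r : ℕ} (i j : Fin r → Fin m) (v : Fin r → ℕ) (τ : Fin r → ℕ → ℕ) (t : Fin m → ℕ) (e : Fin r) : ℕ :=
  if i e = j e then τ e (t (i e)) else v e + t (i e) * t (j e)

lemma sep_iff (H : ℕ) (Θ : Finset ℝ) :
    (∀ θ ∈ Θ, ∀ θ' ∈ Θ, θ ≠ θ' → ∀ k : ℤ, 1 / (H : ℝ) ≤ |θ - θ' - k|) ↔ VK.Sep H Θ := by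
  unfold VK.Sep
  refine forall_congr' fun θ => forall_congr' fun _ => forall_congr' fun θ' => forall_congr' fun _ =>
    forall_congr' fun _ => ?_
  constructor
  · intro h
    exact h (round (θ - θ'))
  · intro h k
    exact h.trans (round_le (θ - θ') k)

lemma norm_WW (T : Finset ℕ) (θ : ℝ) :
    ‖∑ t ∈ T, Complex.exp (2 * Real.pi * Complex.I * (t * θ))‖ = ‖WW T θ‖ := by
  unfold WW ex
  congr 1
  refine Finset.sum_congr rfl fun t _ => ?_
  congr 1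
  push_cast
  ring

lemma spb_iff (F : ℕ → ℕ) (b₀ H : ℕ) (T : Finset ℕ) : SparseSpectrum F b₀ H T ↔ SpB F b₀ H T := by
  unfold SparseSpectrum SpB
  refine forall_congr' fun b => forall_congr' fun _ => forall_congr' fun Θ => ?_
  rw [sep_iff]
  simp only [norm_WW]

lemma factor_eq {r : ℕ} (f : Fin r → ℕ) (q : ℕ) : factor f q = locI f q := by
  unfold factor locI nuI
  rw [Fintype.card_fin]

lemma model_eq (z n : ℕ) : model z n = G1 z n := by
  unfold model G1 nuz ic DZ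
  split_ifs
  · rw [mul_one, mul_one_div]
  · rw [mul_zero, zero_mul]

/-- The singular series of distinct shifts is bounded below, if it does not vanish. -/
lemma sing_lower (r : ℕ) (hr : 1 ≤ r) : ∃ κ : ℝ, 0 < κ ∧ ∀ f : Fin r → ℕ, Function.Injective f →
    (∀ q : ℕ, q.Prime → nuI f q < q) → κ ≤ SI f := by
  have h0 : 0 < Fintype.card (Fin r) := by
    rw [Fintype.card_fin]
    omega
  exact ⟨c0 (Fintype.card (Fin r)), c0_pos _ h0, fun f hf hadm => c0_le_SI f hf h0 hadm⟩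

lemma hl_iff {r : ℕ} (κ : ℝ) (hκ : ∀ f : Fin r → ℕ, Function.Injective f →
    (∀ q : ℕ, q.Prime → nuI f q < q) → κ ≤ SI f) (f : Fin r → ℕ) (hf : Function.Injective f) (x : ℕ) (e : ℝ)
    (h : ∀ y : ℕ, y ≤ x → |(((Icc 1 y).filter (fun n : ℕ => ∀ i, (n + f i).Prime)).card : ℝ) -
          SI f * ∑ n ∈ Icc 2 y, hl univ f n| ≤ e) : HardyLittlewood κ f x e := by
  refine ⟨SI f, ?_, fun hadm => hκ f hf fun q hq => hadm q hq, fun y hy => h y hy⟩
  simp only [factor_eq]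
  exact hasProd_SI f hf

lemma universal_of {m r : ℕ} (K A B : ℕ) (κ : ℝ) (hκ : ∀ f : Fin (r + 1) → ℕ, Function.Injective f →
    (∀ q : ℕ, q.Prime → nuI f q < q) → κ ≤ SI f) (x : ℕ) (P : Finset (Fin m → ℕ)) (a : (Fin m → ℕ) → Fin r → ℕ)
    (h : ∀ w : ℕ → ℂ, (∀ n ∈ Icc 1 x, ‖w n‖ ≤ Real.log x ^ K) → ∀ c : ℕ, c ≤ x →
      ∃ E ⊆ P, (E.card : ℝ) ≤ P.card / Real.log x ^ A ∧
        ∀ t ∈ P, t ∉ E →
          (∀ y : ℕ, y ≤ x →
            ‖∑ n ∈ Icc 1 y, w n * ((∏ i, G0 (n + a t i) - ∏ i, G1 (zA B x) (n + a t i) : ℝ) : ℂ)‖ ≤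
              x / Real.log x ^ A) ∧
          (Function.Injective (Fin.cons c (a t) : Fin (r + 1) → ℕ) → ∀ y : ℕ, y ≤ x →
            |(((Icc 1 y).filter
                (fun n : ℕ => ∀ i, (n + (Fin.cons c (a t) : Fin (r + 1) → ℕ) i).Prime)).card : ℝ) -
              SI (Fin.cons c (a t) : Fin (r + 1) → ℕ) *
                ∑ n ∈ Icc 2 y, hl univ (Fin.cons c (a t) : Fin (r + 1) → ℕ) n| ≤ x / Real.log x ^ A)) :
    Universal K A B κ x P a := by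
  classical
  intro w hw c hc
  obtain ⟨E, hE1, hE2, hE3⟩ := h w (fun n hn => by
    rw [mem_Icc] at hn
    exact hw n hn.1 hn.2) c hc
  refine ⟨E, hE1, hE2, fun t ht htE => ⟨fun y hy => ?_, fun hinj => ?_⟩⟩
  · refine le_trans (le_of_eq ?_) ((hE3 t ht htE).1 y hy)
    congr 1
    rw [Finset.sum_filter, ← Finset.sum_sub_distrib]
    refine Finset.sum_congr rfl fun n _ => ?_
    have e1 : (∏ j, G0 (n + a t j) : ℝ) = if ∀ j, (n + a t j).Prime then 1 else 0 := by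
      unfold G0
      by_cases h : ∀ j, (n + a t j).Prime
      · rw [if_pos h]
        exact Finset.prod_eq_one fun j _ => if_pos (h j)
      · rw [if_neg h]
        push Not at h
        obtain ⟨j, hj⟩ := h
        exact Finset.prod_eq_zero (Finset.mem_univ j) (if_neg hj)
    have e2 : (∏ j, (model ⌊Real.log x ^ B⌋₊ (n + a t j) : ℂ)) =
        ((∏ j, G1 (zA B x) (n + a t j) : ℝ) : ℂ) := by
      push_cast
      refine Finset.prod_congr rfl fun j _ => ?_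
      rw [model_eq]
      rfl
    rw [e2, e1]
    split_ifs
    · push_cast
      ring
    · push_cast
      ring
  · exact hl_iff κ hκ _ hinj x _ ((hE3 t ht htE).2 hinj)

/-- The input on short windows. -/
theorem wne_sixth : WNE (1 / 6) := by
  intro κ hκ A0 B
  obtain ⟨A, hA, h⟩ := VM.win_sup6 A0 B (κ - 1 / 6) (by linarith)
  refine ⟨A, hA, ?_⟩
  filter_upwards [h] with x hx H h1 h2 k0
  exact hx H k0 (by rw [add_sub_cancel]; exact h1) h2

lemma energy_one (T : Finset ℕ) : energy 1 T ≤ T.card := by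
  unfold energy
  refine Finset.card_le_card_of_injOn (fun u => u.1 0) (fun u hu => ?_) (fun u hu v hv huv => ?_)
  · have h := (Finset.mem_filter.mp (Finset.mem_coe.mp hu)).1
    exact Fintype.mem_piFinset.mp (Finset.mem_product.mp h).1 0
  · have h1 := (Finset.mem_filter.mp (Finset.mem_coe.mp hu)).2
    have h2 := (Finset.mem_filter.mp (Finset.mem_coe.mp hv)).2
    simp only [Fin.sum_univ_one] at h1 h2
    have huv' : u.1 0 = v.1 0 := huv
    refine Prod.ext (funext fun i => ?_) (funext fun i => ?_)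
    · rw [Subsingleton.elim i 0]
      exact huv'
    · rw [Subsingleton.elim i 0, ← h1, ← h2]
      exact huv'

lemma sub_range {T : Finset ℕ} {x : ℕ} (h : ∀ t ∈ T, t ≤ x) : T ⊆ range (x + 1) := by
  intro t ht
  rw [Finset.mem_range]
  have := h t ht
  omega

lemma tr_sub (v : ℕ) (T : Finset ℕ) (hT : ∀ t ∈ T, v ≤ t) : tr (T.image (fun t => t - v)) v = T := by
  unfold tr
  rw [Finset.image_image]
  refine (Finset.image_congr fun t ht => ?_).trans Finset.image_id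
  have := hT t ht
  simp only [Function.comp_apply, id]
  omega

lemma spb_shift (F : ℕ → ℕ) (b₀ H v : ℕ) (T : Finset ℕ) (hT : ∀ t ∈ T, v ≤ t)
    (h : SpB F b₀ H (T.image (fun t => t - v))) : SpB F b₀ H T := by
  have htr := tr_sub v T hT
  refine fun b hb Θ hΘ hθ => h b hb Θ hΘ fun θ hθ' => ?_
  have h2 := hθ θ hθ'
  rw [← htr, tr_card, norm_WW_tr] at h2
  exact h2

/-- Part 6. -/
theorem poly_values (Q : Polynomial ℤ) (C : ℕ) (hd : 1 ≤ Q.natDegree) : ∃ F : ℕ → ℕ, ∀ b₀ : ℕ, ∃ H₀ : ℕ,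
    ∀ H : ℕ, H₀ ≤ H → ∀ v N : ℕ, (∀ k : ℕ, 1 ≤ k → k ≤ N → 0 ≤ Q.eval (k : ℤ) ∧ Q.eval (k : ℤ) ≤ H) →
      (H : ℝ) ≤ (N : ℝ) ^ Q.natDegree * Real.log H ^ C →
      ∀ T ⊆ (Icc 1 N).image (fun k : ℕ => v + (Q.eval (k : ℤ)).toNat), (N : ℝ) ≤ T.card * Real.log H ^ C →
        SparseSpectrum F b₀ H T := by
  -- reduction to `v = 0`
  suffices h : ∃ F : ℕ → ℕ, ∀ b₀ : ℕ, ∃ H₀ : ℕ, ∀ H : ℕ, H₀ ≤ H → ∀ N : ℕ,
      (∀ k : ℕ, 1 ≤ k → k ≤ N → 0 ≤ Q.eval (k : ℤ) ∧ Q.eval (k : ℤ) ≤ H) →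
      (H : ℝ) ≤ (N : ℝ) ^ Q.natDegree * Real.log H ^ C →
      ∀ T ⊆ (Icc 1 N).image (fun k : ℕ => (Q.eval (k : ℤ)).toNat), (N : ℝ) ≤ T.card * Real.log H ^ C →
        SpB F b₀ H T by
    obtain ⟨F, hF⟩ := h
    refine ⟨F, fun b₀ => ?_⟩
    obtain ⟨H₀, hH₀⟩ := hF b₀
    refine ⟨H₀, fun H hH v N h1 h2 T hT hTc => ?_⟩
    have hv : ∀ t ∈ T, v ≤ t := by
      intro t ht
      obtain ⟨k, _, rfl⟩ := Finset.mem_image.mp (hT ht)
      omega
    rw [spb_iff]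
    refine spb_shift F b₀ H v T hv (hH₀ H hH N h1 h2 _ (fun u hu => ?_) ?_)
    · obtain ⟨t, ht, rfl⟩ := Finset.mem_image.mp hu
      obtain ⟨k, hk, hkt⟩ := Finset.mem_image.mp (hT ht)
      refine Finset.mem_image.mpr ⟨k, hk, ?_⟩
      omega
    · have hc : (T.image (fun t => t - v)).card = T.card := by
        rw [← tr_card _ v, tr_sub v T hv]
      rwa [hc]
  rcases Nat.lt_or_ge 1 Q.natDegree with hd2 | hd1
  · obtain ⟨F, hF⟩ := poly_sub Q hd2 C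
    refine ⟨F, fun b₀ => ?_⟩
    obtain ⟨H₀, hH₀⟩ := eventually_atTop.mp (hF b₀)
    refine ⟨H₀, fun H hH N h1 h2 T hT hTc => ?_⟩
    exact (hH₀ H hH N (fun k hk => h1 k (Finset.mem_Icc.mp hk).1 (Finset.mem_Icc.mp hk).2) h2 T hT hTc).2
  · have hd' : Q.natDegree = 1 := by omega
    refine ⟨fun b => 2 * 1 * b + 2 * C + 1, fun b₀ => ?_⟩
    obtain ⟨H₀, hH₀⟩ := eventually_atTop.mp (sps_of_energy 1 (2 * C) le_rfl)
    refine ⟨max H₀ 3, fun H hH N h1 h2 T hT hTc => ?_⟩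
    have hH3 : 3 ≤ H := le_trans (le_max_right _ _) hH
    have hH3' : (3 : ℝ) ≤ H := by exact_mod_cast hH3
    have hL : 0 < Real.log H := Real.log_pos (by linarith)
    have hc : (H : ℝ) ≤ T.card * Real.log H ^ (2 * C) := by
      rw [hd', pow_one] at h2
      calc (H : ℝ) ≤ N * Real.log H ^ C := h2
        _ ≤ (T.card * Real.log H ^ C) * Real.log H ^ C := mul_le_mul_of_nonneg_right hTc (by positivity)
        _ = T.card * Real.log H ^ (2 * C) := by ring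
    have hTr : T ⊆ range (H + 1) := by
      intro u hu
      obtain ⟨k, hk, rfl⟩ := Finset.mem_image.mp (hT hu)
      have h3 := h1 k (Finset.mem_Icc.mp hk).1 (Finset.mem_Icc.mp hk).2
      rw [Finset.mem_range]
      omega
    have hne : T.Nonempty := by
      rw [← Finset.card_pos]
      rcases Nat.eq_zero_or_pos T.card with h0 | h0
      · rw [h0, Nat.cast_zero, zero_mul] at hc
        linarith
      · exact h0
    have hE : energy 1 T ≤ T.card := energy_one T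
    refine (hH₀ H (le_trans (le_max_left _ _) hH) H T (by omega) hne hTr ?_ b₀).2
    calc (H : ℝ) * energy 1 T ≤ (T.card * Real.log H ^ (2 * C)) * T.card := by
          exact mul_le_mul hc (by exact_mod_cast hE) (Nat.cast_nonneg _) (le_trans (Nat.cast_nonneg _) hc)
      _ = (T.card : ℝ) ^ (2 * 1) * Real.log H ^ (2 * C) := by ring

/-- The mean square property in the form needed for the slots. -/
lemma msp_all (K' B' A0 : ℕ) (F : ℕ → ℕ) (ε : ℝ) (hε : 0 < ε) : ∃ b₀ A : ℕ, A0 ≤ A ∧ ∀ᶠ x : ℕ in atTop,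
    ∀ H : ℕ, (x : ℝ) ^ (1 / 6 + ε) ≤ H → H ≤ x → ∀ T ⊆ range (x + 1), SparseSpectrum F b₀ H T → MSP A K' B' x T := by
  obtain ⟨b₀, A, hA, h⟩ := msp_ex (1 / 6) (1 / 6 + ε) wne_sixth (by linarith) K' B' A0 (fun b => F (b + 1))
  refine ⟨b₀ + 1, A, hA, ?_⟩
  filter_upwards [h, spb_ev (1 / 6) (1 / 6 + ε) (by norm_num) (by linarith) F b₀] with x h1 h2 H hH1 hH2 T hT hsp
  obtain ⟨h3, h4⟩ := h2 H hH1 hH2
  exact h1 H h3 hH1 hH2 T hT (h4 T ((spb_iff F (b₀ + 1) H T).mp hsp))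

/-- Intervals have a sparse spectrum. -/
lemma interval_sparse : ∃ F : ℕ → ℕ, ∀ b₀ : ℕ, ∃ H₀ : ℕ, ∀ H : ℕ, H₀ ≤ H → ∀ v : ℕ,
    SparseSpectrum F b₀ H (Ioc v (v + H)) := by
  obtain ⟨F, hF⟩ := poly_values Polynomial.X 0 (by rw [Polynomial.natDegree_X])
  refine ⟨F, fun b₀ => ?_⟩
  obtain ⟨H₀, hH₀⟩ := hF b₀
  refine ⟨H₀, fun H hH v => hH₀ H hH v H (fun k _ hk => ?_) ?_ _ (fun t ht => ?_) ?_⟩
  · rw [Polynomial.eval_X]
    exact ⟨by positivity, by exact_mod_cast hk⟩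
  · rw [Polynomial.natDegree_X, pow_one, pow_zero, mul_one]
  · rw [Finset.mem_Ioc] at ht
    refine Finset.mem_image.mpr ⟨t - v, Finset.mem_Icc.mpr (by omega), ?_⟩
    rw [Polynomial.eval_X, Int.toNat_natCast]
    omega
  · rw [Nat.card_Ioc, pow_zero, mul_one, Nat.add_sub_cancel_left]

/-- `H₀ ≤ H` if `x ^ (1 / 6 + ε) ≤ H` and `x` is large. -/
lemma large_ev (H₀ : ℕ) (ε : ℝ) (hε : 0 < ε) : ∀ᶠ x : ℕ in atTop, ∀ H : ℕ, (x : ℝ) ^ (1 / 6 + ε) ≤ H → H₀ ≤ H := by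
  have h := ((tendsto_rpow_atTop (show (0 : ℝ) < 1 / 6 + ε by linarith)).comp
      tendsto_natCast_atTop_atTop).eventually (eventually_ge_atTop (H₀ : ℝ))
  filter_upwards [h] with x hx H hH
  exact_mod_cast (show (H₀ : ℝ) ≤ (x : ℝ) ^ (1 / 6 + ε) from hx).trans hH

/-- From the whole box to dense subsets of the parameters. -/
lemma card_dense {m : ℕ} (H : Fin m → ℕ) (T : Fin m → Finset ℕ) (L : ℝ) (K : ℕ)
    (hH : ∀ k, (H k : ℝ) ≤ (T k).card * L ^ K) :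
    ((Fintype.piFinset (fun k => Icc 1 (H k))).card : ℝ) ≤ (Fintype.piFinset T).card * L ^ (K * m) := by
  rw [Fintype.card_piFinset, Fintype.card_piFinset]
  push_cast
  calc ∏ k, ((Icc 1 (H k)).card : ℝ) = ∏ k, (H k : ℝ) := by
        refine Finset.prod_congr rfl fun k _ => ?_
        rw [Nat.card_Icc, Nat.add_sub_cancel]
    _ ≤ ∏ k, ((T k).card * L ^ K) := Finset.prod_le_prod (fun k _ => Nat.cast_nonneg _) fun k _ => hH k
    _ = (∏ k, ((T k).card : ℝ)) * L ^ (K * m) := by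
        rw [Finset.prod_mul_distrib, Finset.prod_const, Finset.card_univ, Fintype.card_fin, ← pow_mul]

lemma sh_eq {m r : ℕ} (i j : Fin r → Fin m) (v : Fin r → ℕ) (τ : Fin r → ℕ → ℕ) :
    (fun t => sh i j v τ t) = slot i j v τ := rfl

/-- Part 1. -/
theorem part_slots (m r K A : ℕ) (F : ℕ → ℕ) (ε : ℝ) (hε : 0 < ε) : ∃ (b₀ B C x₀ : ℕ) (κ : ℝ), 0 < κ ∧
    ∀ x : ℕ, x₀ ≤ x → ∀ i j : Fin r → Fin m, (∀ e, i e ≤ j e) → Function.Injective (fun e => (i e, j e)) →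
    ∀ (H : Fin m → ℕ) (T : Fin m → Finset ℕ),
    (∀ k, Real.log x ^ C ≤ H k ∧ T k ⊆ Icc 1 (H k) ∧ (H k : ℝ) ≤ (T k).card * Real.log x ^ K) →
    ∀ (G v : Fin r → ℕ) (τ : Fin r → ℕ → ℕ),
    (∀ e, i e ≠ j e → (x : ℝ) ^ (1 / 6 + ε) ≤ H (i e) * H (j e) ∧ v e + H (i e) * H (j e) ≤ x) →
    (∀ e, i e = j e → (x : ℝ) ^ (1 / 6 + ε) ≤ G e ∧ G e ≤ x ∧ Set.InjOn (τ e) (Set.Icc 1 (H (i e))) ∧
      (∀ s ∈ Icc 1 (H (i e)), τ e s ≤ x) ∧ SparseSpectrum F b₀ (G e) ((Icc 1 (H (i e))).image (τ e))) →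
    Universal K A B κ x (Fintype.piFinset T) (slot i j v τ) := by
  classical
  obtain ⟨K1, B1, A0, hub⟩ := ub_of_hms (σ := Fin m → ℕ) r K (A + K * m)
  obtain ⟨K2, B2, C, hsl⟩ := hms_of_slots m r K1 B1
  obtain ⟨F', hF'⟩ := interval_sparse
  obtain ⟨b1, A1, hA1, hm1⟩ := msp_all K2 B2 A0 (fun b => max (F b) (F' b)) ε hε
  obtain ⟨H₀, hH₀⟩ := hF' b1
  obtain ⟨κ, hκ0, hκ⟩ := sing_lower (r + 1) (by omega)
  have hev := (((hub A1 hA1).and (hsl A1)).and (hm1.and (large_ev (max H₀ 3) ε hε))).and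
    ((ev_log 2).and (eventually_ge_atTop 3))
  obtain ⟨x₀, hx₀⟩ := eventually_atTop.mp hev
  refine ⟨b1, A1, C, x₀, κ, hκ0, fun x hx i j hij hinj H T hHT G v τ hedge hsing => ?_⟩
  obtain ⟨⟨⟨h1, h2⟩, h3, h4⟩, h5, h6⟩ := hx₀ x hx
  have hL0 : 0 < Real.log x := by linarith
  have hL1 : 1 ≤ Real.log x := by linarith
  -- monotonicity of the spectral condition in `F`
  have hmono : ∀ (F₁ : ℕ → ℕ), (∀ b, F₁ b ≤ max (F b) (F' b)) → ∀ (N : ℕ), 3 ≤ N → ∀ S : Finset ℕ,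
      SparseSpectrum F₁ b1 N S → SparseSpectrum (fun b => max (F b) (F' b)) b1 N S := by
    intro F₁ hF₁ N hN S hS b hb Θ h7 h8
    refine (hS b hb Θ h7 h8).trans ?_
    have hlN : 1 ≤ Real.log N := by
      rw [Real.le_log_iff_exp_le (by positivity)]
      have h9 : (3 : ℝ) ≤ N := by exact_mod_cast hN
      linarith [Real.exp_one_lt_d9]
    exact pow_le_pow_right₀ hlN (hF₁ b)
  have hOK : SlotsOK A1 K2 B2 C x i j H v τ := by
    refine ⟨hij, hinj, fun k => (hHT k).1, fun e he => ⟨(hedge e he).2, ?_⟩, fun e he => ⟨?_, ?_⟩⟩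
    · have h7 := hedge e he
      have h8 : (x : ℝ) ^ (1 / 6 + ε) ≤ ((H (i e) * H (j e) : ℕ) : ℝ) := by
        push_cast
        exact h7.1
      have h9 := h4 (H (i e) * H (j e)) h8
      refine h3 (H (i e) * H (j e)) h8 (by omega) _ (fun t ht => ?_) ?_
      · have := (Finset.mem_Ioc.mp ht).2
        rw [Finset.mem_range]
        omega
      · exact hmono F' (fun b => le_max_right _ _) _ (le_trans (le_max_right _ _) h9) _
          (hH₀ _ (le_trans (le_max_left _ _) h9) (v e))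
    · have h7 := (hsing e he).2.2.1
      rwa [Finset.coe_Icc]
    · obtain ⟨h7, h8, _, h9, h10⟩ := hsing e he
      refine h3 (G e) h7 h8 _ (fun t ht => ?_) ?_
      · obtain ⟨s, hs, rfl⟩ := Finset.mem_image.mp ht
        have := h9 s hs
        rw [Finset.mem_range]
        omega
      · exact hmono F (fun b => le_max_left _ _) _ (le_trans (le_max_right _ _) (h4 (G e) h7)) _ h10
  have hHMS := h2 i j H v τ hOK
  rw [sh_eq] at hHMS
  refine universal_of K A A1 κ hκ x _ _ fun w hw c hc => ?_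
  obtain ⟨E, hE1, hE2, hE3⟩ := h1 _ _ hHMS w hw c hc
  refine ⟨E ∩ Fintype.piFinset T, Finset.inter_subset_right, ?_, fun t ht htE => ?_⟩
  · have h7 : ((E ∩ Fintype.piFinset T).card : ℝ) ≤ E.card := by
      exact_mod_cast Finset.card_le_card Finset.inter_subset_left
    refine h7.trans (hE2.trans ?_)
    have h8 := card_dense H T (Real.log x) K (fun k => (hHT k).2.2)
    rw [pow_add, div_le_div_iff₀ (by positivity) (by positivity)]
    calc ((Fintype.piFinset (fun k => Icc 1 (H k))).card : ℝ) * Real.log x ^ A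
        ≤ ((Fintype.piFinset T).card * Real.log x ^ (K * m)) * Real.log x ^ A :=
          mul_le_mul_of_nonneg_right h8 (by positivity)
      _ = (Fintype.piFinset T).card * (Real.log x ^ A * Real.log x ^ (K * m)) := by ring
  · have ht' : t ∈ Fintype.piFinset (fun k => Icc 1 (H k)) := by
      rw [Fintype.mem_piFinset] at ht ⊢
      exact fun k => (hHT k).2.1 (ht k)
    have htE' : t ∉ E := fun h => htE (Finset.mem_inter.mpr ⟨h, ht⟩)
    have h9 := hE3 t ht' htE'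
    have hle : (x : ℝ) / Real.log x ^ (A + K * m) ≤ x / Real.log x ^ A :=
      div_le_div_of_nonneg_left (Nat.cast_nonneg x) (by positivity) (pow_le_pow_right₀ hL1 (by omega))
    exact ⟨fun y hy => (h9.1 y hy).trans hle, fun hi y hy => (h9.2 hi y hy).trans hle⟩

/-- Powers have a sparse spectrum. -/
lemma power_sparse (d₀ : ℕ) : ∃ F : ℕ → ℕ, ∀ b₀ : ℕ, ∃ H₀ : ℕ, ∀ d : ℕ, 1 ≤ d → d ≤ d₀ → ∀ H : ℕ, H₀ ≤ H ^ d →
    ∀ u : ℕ, SparseSpectrum F b₀ (H ^ d) ((Icc 1 H).image (fun s => u + s ^ d)) := by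
  classical
  have h1 : ∀ d : ℕ, ∃ F : ℕ → ℕ, 1 ≤ d → ∀ b₀ : ℕ, ∃ H₀ : ℕ, ∀ H : ℕ, H₀ ≤ H → ∀ v N : ℕ,
      (∀ k : ℕ, 1 ≤ k → k ≤ N → 0 ≤ (Polynomial.X ^ d : Polynomial ℤ).eval (k : ℤ) ∧
        (Polynomial.X ^ d : Polynomial ℤ).eval (k : ℤ) ≤ H) →
      (H : ℝ) ≤ (N : ℝ) ^ (Polynomial.X ^ d : Polynomial ℤ).natDegree * Real.log H ^ 0 →
      ∀ T ⊆ (Icc 1 N).image (fun k : ℕ => v + ((Polynomial.X ^ d : Polynomial ℤ).eval (k : ℤ)).toNat),
        (N : ℝ) ≤ T.card * Real.log H ^ 0 → SparseSpectrum F b₀ H T := by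
    intro d
    by_cases hd : 1 ≤ d
    · obtain ⟨F, hF⟩ := poly_values (Polynomial.X ^ d) 0 (by rw [Polynomial.natDegree_X_pow]; exact hd)
      exact ⟨F, fun _ => hF⟩
    · exact ⟨fun _ => 0, fun h => absurd h hd⟩
  choose F hF using h1
  refine ⟨fun b => ∑ d ∈ range (d₀ + 1), F d b, fun b₀ => ?_⟩
  have h2 : ∀ d : ℕ, ∃ H₀ : ℕ, 1 ≤ d → ∀ H : ℕ, H₀ ≤ H → ∀ v N : ℕ,
      (∀ k : ℕ, 1 ≤ k → k ≤ N → 0 ≤ (Polynomial.X ^ d : Polynomial ℤ).eval (k : ℤ) ∧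
        (Polynomial.X ^ d : Polynomial ℤ).eval (k : ℤ) ≤ H) →
      (H : ℝ) ≤ (N : ℝ) ^ (Polynomial.X ^ d : Polynomial ℤ).natDegree * Real.log H ^ 0 →
      ∀ T ⊆ (Icc 1 N).image (fun k : ℕ => v + ((Polynomial.X ^ d : Polynomial ℤ).eval (k : ℤ)).toNat),
        (N : ℝ) ≤ T.card * Real.log H ^ 0 → SparseSpectrum (F d) b₀ H T := by
    intro d
    by_cases hd : 1 ≤ d
    · obtain ⟨H₀, h⟩ := hF d hd b₀
      exact ⟨H₀, fun _ => h⟩
    · exact ⟨0, fun h => absurd h hd⟩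
  choose H₀ hH₀ using h2
  refine ⟨∑ d ∈ range (d₀ + 1), H₀ d + 3, fun d hd1 hd2 H hH u => ?_⟩
  have hmem : d ∈ range (d₀ + 1) := Finset.mem_range.mpr (by omega)
  have h3 : H₀ d ≤ ∑ d ∈ range (d₀ + 1), H₀ d :=
    Finset.single_le_sum (f := fun d => H₀ d) (fun _ _ => Nat.zero_le _) hmem
  have h4 : SparseSpectrum (F d) b₀ (H ^ d) ((Icc 1 H).image (fun s => u + s ^ d)) := by
    refine hH₀ d hd1 (H ^ d) (by omega) u H (fun k _ hk => ?_) ?_ _ (fun t ht => ?_) ?_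
    · rw [Polynomial.eval_pow, Polynomial.eval_X]
      refine ⟨by positivity, ?_⟩
      have : k ^ d ≤ H ^ d := Nat.pow_le_pow_left hk d
      exact_mod_cast this
    · rw [Polynomial.natDegree_X_pow, pow_zero, mul_one, Nat.cast_pow]
    · obtain ⟨s, hs, rfl⟩ := Finset.mem_image.mp ht
      refine Finset.mem_image.mpr ⟨s, hs, ?_⟩
      rw [Polynomial.eval_pow, Polynomial.eval_X, ← Nat.cast_pow, Int.toNat_natCast]
    · rw [Finset.card_image_of_injOn, Nat.card_Icc, pow_zero, mul_one, Nat.add_sub_cancel]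
      intro a _ b _ hab
      simp only at hab
      have h5 : a ^ d = b ^ d := by omega
      exact Nat.pow_left_injective (by omega) h5
  intro b hb Θ h7 h8
  refine (h4 b hb Θ h7 h8).trans ?_
  have hlN : 1 ≤ Real.log ((H ^ d : ℕ) : ℝ) := by
    have h9 : (3 : ℝ) ≤ ((H ^ d : ℕ) : ℝ) := by exact_mod_cast (by omega : 3 ≤ H ^ d)
    rw [Real.le_log_iff_exp_le (by linarith)]
    linarith [Real.exp_one_lt_d9]
  exact pow_le_pow_right₀ hlN (Finset.single_le_sum (f := fun d => F d b) (fun _ _ => Nat.zero_le _) hmem)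

/-- Part 2. -/
theorem part_products (m r K A d₀ : ℕ) (ε : ℝ) (hε : 0 < ε) : ∃ (B C x₀ : ℕ) (κ : ℝ), 0 < κ ∧
    ∀ x : ℕ, x₀ ≤ x → ∀ i j : Fin r → Fin m, (∀ e, i e ≤ j e) → Function.Injective (fun e => (i e, j e)) →
    ∀ (H : Fin m → ℕ) (T : Fin m → Finset ℕ),
    (∀ k, Real.log x ^ C ≤ H k ∧ T k ⊆ Icc 1 (H k) ∧ (H k : ℝ) ≤ (T k).card * Real.log x ^ K) →
    ∀ d u : Fin r → ℕ,
    (∀ e, i e ≠ j e → (x : ℝ) ^ (1 / 6 + ε) ≤ H (i e) * H (j e) ∧ u e + H (i e) * H (j e) ≤ x) →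
    (∀ e, i e = j e → (1 ≤ d e ∧ d e ≤ d₀) ∧ (x : ℝ) ^ (1 / 6 + ε) ≤ (H (i e) : ℝ) ^ d e ∧
      u e + H (i e) ^ d e ≤ x) →
    Universal K A B κ x (Fintype.piFinset T) (slot i j u (fun e s => u e + s ^ d e)) := by
  classical
  obtain ⟨F, hF⟩ := power_sparse d₀
  obtain ⟨b₀, B, C, x₀, κ, hκ0, h⟩ := part_slots m r K A F ε hε
  obtain ⟨H₀, hH₀⟩ := hF b₀
  obtain ⟨x₁, hx₁⟩ := eventually_atTop.mp (large_ev H₀ ε hε)
  refine ⟨B, C, max x₀ x₁, κ, hκ0, fun x hx i j hij hinj H T hHT d u hu hd => ?_⟩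
  refine h x (le_trans (le_max_left _ _) hx) i j hij hinj H T hHT (fun e => H (i e) ^ d e) u
    (fun e s => u e + s ^ d e) hu (fun e he => ?_)
  obtain ⟨⟨h1, h2⟩, h3, h3'⟩ := hd e he
  have h4 : (x : ℝ) ^ (1 / 6 + ε) ≤ ((H (i e) ^ d e : ℕ) : ℝ) := by
    push_cast
    exact h3
  refine ⟨h4, by omega, ?_, fun s hs => ?_, ?_⟩
  · intro a _ b _ hab
    simp only at hab
    have h5 : a ^ d e = b ^ d e := by omega
    exact Nat.pow_left_injective (by omega) h5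
  · have h5 := (Finset.mem_Icc.mp hs).2
    have h6 : s ^ d e ≤ H (i e) ^ d e := Nat.pow_le_pow_left h5 _
    omega
  · exact hH₀ (d e) h1 h2 (H (i e)) (hx₁ x (le_trans (le_max_right _ _) hx) _ h4) (u e)

/-- Product sets. -/
lemma universal_ub (m K A B : ℕ) (κ : ℝ) (hκ : ∀ f : Fin (m + 1) → ℕ, Function.Injective f →
    (∀ q : ℕ, q.Prime → nuI f q < q) → κ ≤ SI f) (x : ℕ) (T : Fin m → Finset ℕ)
    (h : UB m K A B x T) : Universal K A B κ x (Fintype.piFinset T) (fun t => t) := by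
  refine universal_of K A B κ hκ x _ _ fun w hw c hc => ?_
  obtain ⟨E, hE1, hE2, hE3⟩ := h w hw c hc
  refine ⟨E, hE1, ?_, fun t ht htE => hE3 t ht htE⟩
  rw [Fintype.card_piFinset]
  push_cast
  exact hE2

/-- Part 3. -/
theorem part_sets (m K A K' : ℕ) (F : ℕ → ℕ) (ε : ℝ) (hε : 0 < ε) : ∃ (b₀ B C x₀ : ℕ) (κ : ℝ), 0 < κ ∧
    ∀ x : ℕ, x₀ ≤ x → ∀ (H D : Fin m → ℕ) (T : Fin m → Finset ℕ),
    (∀ j, (x : ℝ) ^ (1 / 6 + ε) ≤ H j ∧ H j ≤ x ∧ Real.log x ^ C ≤ D j ∧ (D j : ℝ) ≤ Real.log x ^ K') →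
    (∀ j, (∀ t ∈ T j, t ≤ H j) ∧ SparseSpectrum F b₀ (H j) (T j)) →
    ∃ Y : Fin m → Finset (Finset ℕ), (∀ j, Y j ⊆ (T j).powersetCard (D j) ∧
      ((Y j).card : ℝ) ≤ ((T j).powersetCard (D j)).card / Real.log x ^ A) ∧
      ∀ S : Fin m → Finset ℕ, (∀ j, S j ∈ (T j).powersetCard (D j) ∧ S j ∉ Y j) →
      ∀ β : Fin m → ℕ, (∀ j, β j + H j ≤ x) →
        Universal K A B κ x (Fintype.piFinset fun j => (S j).image (fun s => s + β j)) (fun t => t) := by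
  obtain ⟨b₀, B, C, h⟩ := fin_c (1 / 6) (1 / 6 + ε) (by norm_num) wne_sixth (by linarith) m K A K' F
  obtain ⟨x₀, hx₀⟩ := eventually_atTop.mp h
  obtain ⟨κ, hκ0, hκ⟩ := sing_lower (m + 1) (by omega)
  refine ⟨b₀, B, C, x₀, κ, hκ0, fun x hx H D T hH hT => ?_⟩
  obtain ⟨X, hX1, hX2⟩ := hx₀ x hx H D T hH (fun j => ⟨sub_range (hT j).1, (spb_iff F b₀ (H j) (T j)).mp (hT j).2⟩)
  exact ⟨X, hX1, fun S hS β hβ => universal_ub m K A B κ hκ x _ (hX2 S hS β hβ)⟩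

theorem result :
    -- 1. systems of slots
    (∀ (m r K A : ℕ) (F : ℕ → ℕ) (ε : ℝ), 0 < ε → ∃ (b₀ B C x₀ : ℕ) (κ : ℝ), 0 < κ ∧
      ∀ x : ℕ, x₀ ≤ x → ∀ i j : Fin r → Fin m, (∀ e, i e ≤ j e) → Function.Injective (fun e => (i e, j e)) →
      ∀ (H : Fin m → ℕ) (T : Fin m → Finset ℕ),
      (∀ k, Real.log x ^ C ≤ H k ∧ T k ⊆ Icc 1 (H k) ∧ (H k : ℝ) ≤ (T k).card * Real.log x ^ K) →
      ∀ (G v : Fin r → ℕ) (τ : Fin r → ℕ → ℕ),
      (∀ e, i e ≠ j e → (x : ℝ) ^ (1 / 6 + ε) ≤ H (i e) * H (j e) ∧ v e + H (i e) * H (j e) ≤ x) →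
      (∀ e, i e = j e → (x : ℝ) ^ (1 / 6 + ε) ≤ G e ∧ G e ≤ x ∧ Set.InjOn (τ e) (Set.Icc 1 (H (i e))) ∧
        (∀ s ∈ Icc 1 (H (i e)), τ e s ≤ x) ∧ SparseSpectrum F b₀ (G e) ((Icc 1 (H (i e))).image (τ e))) →
      Universal K A B κ x (Fintype.piFinset T) (slot i j v τ)) ∧
    -- 2. products and powers
    (∀ (m r K A d₀ : ℕ) (ε : ℝ), 0 < ε → ∃ (B C x₀ : ℕ) (κ : ℝ), 0 < κ ∧
      ∀ x : ℕ, x₀ ≤ x → ∀ i j : Fin r → Fin m, (∀ e, i e ≤ j e) → Function.Injective (fun e => (i e, j e)) →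
      ∀ (H : Fin m → ℕ) (T : Fin m → Finset ℕ),
      (∀ k, Real.log x ^ C ≤ H k ∧ T k ⊆ Icc 1 (H k) ∧ (H k : ℝ) ≤ (T k).card * Real.log x ^ K) →
      ∀ d u : Fin r → ℕ,
      (∀ e, i e ≠ j e → (x : ℝ) ^ (1 / 6 + ε) ≤ H (i e) * H (j e) ∧ u e + H (i e) * H (j e) ≤ x) →
      (∀ e, i e = j e → (1 ≤ d e ∧ d e ≤ d₀) ∧ (x : ℝ) ^ (1 / 6 + ε) ≤ (H (i e) : ℝ) ^ d e ∧
        u e + H (i e) ^ d e ≤ x) →
      Universal K A B κ x (Fintype.piFinset T) (slot i j u (fun e s => u e + s ^ d e))) ∧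
    -- 3. almost all sets of `(log x)^C` shifts
    (∀ (m K A K' : ℕ) (F : ℕ → ℕ) (ε : ℝ), 0 < ε → ∃ (b₀ B C x₀ : ℕ) (κ : ℝ), 0 < κ ∧
      ∀ x : ℕ, x₀ ≤ x → ∀ (H D : Fin m → ℕ) (T : Fin m → Finset ℕ),
      (∀ j, (x : ℝ) ^ (1 / 6 + ε) ≤ H j ∧ H j ≤ x ∧ Real.log x ^ C ≤ D j ∧ (D j : ℝ) ≤ Real.log x ^ K') →
      (∀ j, (∀ t ∈ T j, t ≤ H j) ∧ SparseSpectrum F b₀ (H j) (T j)) →
      ∃ Y : Fin m → Finset (Finset ℕ), (∀ j, Y j ⊆ (T j).powersetCard (D j) ∧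
        ((Y j).card : ℝ) ≤ ((T j).powersetCard (D j)).card / Real.log x ^ A) ∧
        ∀ S : Fin m → Finset ℕ, (∀ j, S j ∈ (T j).powersetCard (D j) ∧ S j ∉ Y j) →
        ∀ β : Fin m → ℕ, (∀ j, β j + H j ≤ x) →
          Universal K A B κ x (Fintype.piFinset fun j => (S j).image (fun s => s + β j)) (fun t => t)) :=
  ⟨fun m r K A F ε hε => part_slots m r K A F ε hε, fun m r K A d₀ ε hε => part_products m r K A d₀ ε hε,
    fun m K A K' F ε hε => part_sets m K A K' F ε hε⟩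

end Pool.Agent.Results.MP_e87c7d_nt.ProductShifts
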