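import Pool.Agent.Lib.HLS.DilSet
import Pool.Agent.Lib.HLS.IntStable
import Pool.Agent.Lib.HLS.SepGood
import Pool.Agent.Lib.HLS.SepInt
import Pool.Agent.Lib.VM.WinSup6

/-!
# Rigidity and stability of the Hardy-Littlewood formula

For a tuple `b` of `r` shifts, `singularSeries b` is its singular series and `count x b` the number of
`1 ≤ n ≤ x` with all `n + b i` prime, divided by `x / (log x)^r`; so the Hardy-Littlewood conjecture says that
`count x b` tends to `singularSeries b`. `mean r B f` is `|B|^(-r)` times the sum of `f` over the injective `r`-tuples from `B`.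

Part 0: let `(log x)^(2+δ) ≤ H(x) ≤ x / (log x)^3`. If the mean over `1 ≤ h ≤ H(x)` of `max (count x (0, h) - singularSeries (0, h)) 0` tends
to zero, then for every `r` the formula holds for almost all `r`-tuples in `[0, H(x)]`.
Part 1: `m = 1` or `m = 2`, `B` any set of at least `(log x)^(m+δ)` integers of `[0, x]`, `r ≥ 2`, `s ≥ 1`. The mean of `(count x b)^m` over the
`r`-tuples is at least that of `(singularSeries b)^m`, up to `1 / (log x)^δ'`; and the mean of `(count x b - singularSeries b)^m` over the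
`s`-tuples is at most `C (1 + M) D^(1/r) + 1 / (log x)^δ'` in absolute value, where `D` is the excess in the first inequality and `M` the mean of
`(singularSeries b)^m` over the `2s`-tuples, and at most `(log x)^ε P^(1/r) + 1 / (log x)^δ'`, where `P` is the mean of
`max (count x b - singularSeries b) 0` over the `r`-tuples.
Part 2: on an interval `[0, H]`, `(log x)^(m+δ) ≤ H ≤ x / (log x)^3`, it is at most `C P^(1/(2m)) + 1 / (log x)^δ'`, where `P` is the mean of
`max (count x (0, h) - singularSeries (0, h)) 0` over `1 ≤ h ≤ H`.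
Part 3: let `x^(1 / 6 + ε) ≤ H ≤ x` and let `T` have a sparse spectrum at the scale `H`. For all `t ∈ T` but `|T| / (log x)^A`, every pair
`(c, c + t d)`, `1 ≤ d ≤ (log x)^K`, satisfies the Hardy-Littlewood formula, so that the right hand side is small for the dilates `c + t S` of ALL
sets `S ⊂ [0, (log x)^K]` of at least `(log x)^(m+δ)` integers.
Part 4: the set of all integers in `[1, H]` has a sparse spectrum at the scale `H`.
-/

set_option autoImplicit false

open Finset Filter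

namespace Pool.Agent.Results.MP_e87c7d_nt.Rigidity

open Pool.Agent.HLB Pool.Agent.HLT Pool.Agent.HLR Pool.Agent.VK

/-- The singular series of the tuple `b`. -/
noncomputable def singularSeries {r : ℕ} (b : Fin r → ℕ) : ℝ :=
  ∏' p : Nat.Primes, ((1 - ((Finset.univ.image (fun i : Fin r => (b i : ZMod p))).card : ℝ) / (p : ℝ)) *
    ((1 - 1 / (p : ℝ))⁻¹) ^ r)

/-- The number of `1 ≤ n ≤ x` with all `n + b i` prime, divided by `x / (log x)^r`. -/
noncomputable def count (x : ℕ) {r : ℕ} (b : Fin r → ℕ) : ℝ :=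
  (((Finset.Icc 1 x).filter (fun n : ℕ => ∀ i, (n + b i).Prime)).card : ℝ) / (x / Real.log x ^ r)

open scoped Classical in
/-- The injective `r`-tuples of elements of `B`. -/
noncomputable def injTuples (r : ℕ) (B : Finset ℕ) : Finset (Fin r → ℕ) :=
  (Fintype.piFinset (fun _ => B)).filter Function.Injective

/-- `|B|^(-r)` times the sum over the injective `r`-tuples of elements of `B`. -/
noncomputable def mean (r : ℕ) (B : Finset ℕ) (f : (Fin r → ℕ) → ℝ) : ℝ :=
  (∑ b ∈ injTuples r B, f b) / (B.card : ℝ) ^ r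

/-- For every `b ≤ b₀` every set `Θ` of real numbers which are `1 / H`-separated modulo one and satisfy
`|∑ t ∈ T, exp (2 π i t θ)| ≥ |T| / (log x)^b` has at most `(log x)^(F b)` elements. -/
def SparseSpectrum (F : ℕ → ℕ) (b₀ x H : ℕ) (T : Finset ℕ) : Prop :=
  ∀ b ≤ b₀, ∀ Θ : Finset ℝ,
    (∀ θ ∈ Θ, ∀ θ' ∈ Θ, θ ≠ θ' → ∀ k : ℤ, 1 / (H : ℝ) ≤ |θ - θ' - k|) →
    (∀ θ ∈ Θ, (T.card : ℝ) ≤ Real.log x ^ b *
      ‖∑ t ∈ T, Complex.exp (2 * Real.pi * Complex.I * (t * θ))‖) →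
    (Θ.card : ℝ) ≤ Real.log x ^ F b

lemma count_eq (x : ℕ) {r : ℕ} (b : Fin r → ℕ) : count x b = pin x b := rfl

lemma injTuples_eq (r : ℕ) (B : Finset ℕ) : injTuples r B = Inj r B := rfl

lemma ss_eq {r : ℕ} (b : Fin r → ℕ) (hb : Function.Injective b) : singularSeries b = SI b := by
  have h := hasProd_SI b hb
  have h2 := h.tprod_eq
  unfold locI nuI at h2
  rw [Fintype.card_fin] at h2
  exact h2

lemma inj_of_mem {r : ℕ} {B : Finset ℕ} {b : Fin r → ℕ} (hb : b ∈ Inj r B) : Function.Injective b := by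
  classical
  unfold Inj at hb
  exact (Finset.mem_filter.mp hb).2

lemma sep_iff (H : ℕ) (Θ : Finset ℝ) :
    (∀ θ ∈ Θ, ∀ θ' ∈ Θ, θ ≠ θ' → ∀ k : ℤ, 1 / (H : ℝ) ≤ |θ - θ' - k|) ↔ VK.Sep H Θ := by
  unfold VK.Sep
  refine forall_congr' fun θ => forall_congr' fun _ => forall_congr' fun θ' => forall_congr' fun _ =>
    forall_congr' fun _ => ?_
  constructor
  · intro h
    exact h (round (θ - θ'))
  · intro h k
    exact h.trans (round_le (θ - θ') k)

lemma norm_WW (T : Finset ℕ) (θ : ℝ) :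
    ‖∑ t ∈ T, Complex.exp (2 * Real.pi * Complex.I * (t * θ))‖ = ‖WW T θ‖ := by
  unfold WW ex
  congr 1
  refine Finset.sum_congr rfl fun t _ => ?_
  congr 1
  push_cast
  ring

lemma spx_iff (F : ℕ → ℕ) (b₀ x H : ℕ) (T : Finset ℕ) : SparseSpectrum F b₀ x H T ↔ SpX F b₀ x H T := by
  unfold SparseSpectrum SpX
  refine forall_congr' fun b => forall_congr' fun _ => forall_congr' fun Θ => ?_
  rw [sep_iff]
  simp only [norm_WW]

lemma one_le_log {x : ℕ} (hx3 : 3 ≤ x) : 1 ≤ Real.log x := by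
  have h1 : Real.exp 1 ≤ x := by
    have := Real.exp_one_lt_d9
    have h2 : (3 : ℝ) ≤ x := by exact_mod_cast hx3
    linarith
  exact (Real.le_log_iff_exp_le (by positivity)).mpr h1

lemma mean_S (m r : ℕ) (B : Finset ℕ) :
    mean r B (fun b => singularSeries b ^ m) = (∑ b ∈ Inj r B, SI b ^ m) / (B.card : ℝ) ^ r := by
  unfold mean
  rw [injTuples_eq]
  congr 1
  refine Finset.sum_congr rfl fun b hb => ?_
  beta_reduce
  rw [ss_eq b (inj_of_mem hb)]

lemma mean_count (x m r : ℕ) (B : Finset ℕ) :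
    mean r B (fun b => count x b ^ m) = (∑ b ∈ Inj r B, pin x b ^ m) / (B.card : ℝ) ^ r := rfl

lemma mean_diff (x m s : ℕ) (B : Finset ℕ) :
    mean s B (fun b => (count x b - singularSeries b) ^ m) =
      (∑ b ∈ Inj s B, (pin x b - SI b) ^ m) / (B.card : ℝ) ^ s := by
  unfold mean
  rw [injTuples_eq]
  congr 1
  refine Finset.sum_congr rfl fun b hb => ?_
  beta_reduce
  rw [ss_eq b (inj_of_mem hb), count_eq]

lemma mean_max (x r : ℕ) (B : Finset ℕ) :
    mean r B (fun b => max (count x b - singularSeries b) 0) =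
      (∑ b ∈ Inj r B, max (pin x b - SI b) 0) / (B.card : ℝ) ^ r := by
  unfold mean
  rw [injTuples_eq]
  congr 1
  refine Finset.sum_congr rfl fun b hb => ?_
  beta_reduce
  rw [ss_eq b (inj_of_mem hb), count_eq]

lemma inj_pair {a b : ℕ} (h : a ≠ b) : Function.Injective (![a, b] : Fin 2 → ℕ) := by
  intro i j hij
  match i, j with
  | 0, 0 => rfl
  | 1, 1 => rfl
  | 0, 1 => exact absurd hij h
  | 1, 0 => exact absurd hij.symm h

lemma abs_div_le {a N e : ℝ} (hN : 0 < N) (h : |a| ≤ e * N) : |a / N| ≤ e := by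
  rw [abs_div, abs_of_pos hN, div_le_iff₀ hN]
  exact h

lemma pos_case {L C M D P θ ε ri : ℝ} (hL : 1 ≤ L) (hC : 0 < C) (hM0 : 0 ≤ M) (hP : 0 ≤ P)
    (hθ : 0 < θ) (hri : 0 ≤ ri) (hri1 : ri ≤ 1) (hε : 4 * θ ≤ ε) (hM : M ≤ L ^ θ)
    (hD0 : 0 ≤ D) (hD : D ≤ L ^ θ * P) (hCL : 2 * C ≤ L ^ θ) :
    C * (1 + M) * D ^ ri ≤ L ^ ε * P ^ ri := by
  have hL0 : 0 < L := by linarith
  have h1 : 1 ≤ L ^ θ := Real.one_le_rpow hL hθ.le
  have h2 : D ^ ri ≤ L ^ θ * P ^ ri := by
    calc D ^ ri ≤ (L ^ θ * P) ^ ri := Real.rpow_le_rpow hD0 hD hri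
      _ = (L ^ θ) ^ ri * P ^ ri := Real.mul_rpow (by positivity) hP
      _ ≤ L ^ θ * P ^ ri := by
        refine mul_le_mul_of_nonneg_right ?_ (Real.rpow_nonneg hP _)
        calc (L ^ θ) ^ ri ≤ (L ^ θ) ^ (1 : ℝ) := Real.rpow_le_rpow_of_exponent_le h1 hri1
          _ = L ^ θ := Real.rpow_one _
  have h3 : C * (1 + M) ≤ L ^ θ * L ^ θ := by
    have : 1 + M ≤ 2 * L ^ θ := by linarith
    calc C * (1 + M) ≤ C * (2 * L ^ θ) := mul_le_mul_of_nonneg_left this hC.le
      _ = (2 * C) * L ^ θ := by ring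
      _ ≤ L ^ θ * L ^ θ := mul_le_mul_of_nonneg_right hCL (by linarith)
  have hPr : 0 ≤ P ^ ri := Real.rpow_nonneg hP _
  calc C * (1 + M) * D ^ ri ≤ (L ^ θ * L ^ θ) * (L ^ θ * P ^ ri) :=
        mul_le_mul h3 h2 (Real.rpow_nonneg hD0 _) (by positivity)
    _ = L ^ (θ + θ + θ) * P ^ ri := by
        rw [Real.rpow_add hL0, Real.rpow_add hL0]
        ring
    _ ≤ L ^ ε * P ^ ri := by
        refine mul_le_mul_of_nonneg_right ?_ hPr
        exact Real.rpow_le_rpow_of_exponent_le hL (by linarith)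

lemma wne6 : WNE (1 / 6) := by
  intro κ hκ A0 B
  obtain ⟨A, hA, h⟩ := VM.win_sup6 A0 B (κ - 1 / 6) (by linarith)
  refine ⟨A, hA, ?_⟩
  filter_upwards [h] with x h
  intro H h1 h2 k0
  rw [show (1 / 6 + (κ - 1 / 6) : ℝ) = κ by ring] at h
  exact h H k0 h1 h2

/-- Part 0 from part 2. -/
lemma almost_all (δ : ℝ) (hδ : 0 < δ) (H : ℕ → ℕ)
    (h2 : ∀ s : ℕ, 1 ≤ s → ∃ C δ' : ℝ, 0 < δ' ∧ ∃ x₀ : ℕ,
      ∀ x : ℕ, x₀ ≤ x → ∀ H : ℕ, Real.log x ^ (2 + δ) ≤ H → (H : ℝ) * Real.log x ^ 3 ≤ x →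
        |mean s (Finset.range (H + 1)) (fun b => (count x b - singularSeries b) ^ 2)| ≤
          C * ((∑ h ∈ Finset.Icc 1 H, max (count x ![0, h] - singularSeries ![0, h]) 0) / H) ^
            (1 / (2 * (2 : ℝ))) + 1 / Real.log x ^ δ')
    (hH : ∀ᶠ x : ℕ in atTop, Real.log x ^ (2 + δ) ≤ H x ∧ (H x : ℝ) * Real.log x ^ 3 ≤ x)
    (hlim : Tendsto (fun x : ℕ => (∑ h ∈ Finset.Icc 1 (H x),
      max (count x ![0, h] - singularSeries ![0, h]) 0) / (H x : ℝ)) atTop (nhds 0))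
    (r : ℕ) (hr : 1 ≤ r) (η : ℝ) (hη : 0 < η) :
    Tendsto (fun x : ℕ => (((injTuples r (Finset.range (H x + 1))).filter
      (fun b => η < |count x b - singularSeries b|)).card : ℝ) / (H x : ℝ) ^ r) atTop (nhds 0) := by
  classical
  obtain ⟨C, δ', hδ', x₀, hx₀⟩ := h2 r hr
  have hlog : Tendsto (fun x : ℕ => Real.log (x : ℝ)) atTop atTop :=
    Real.tendsto_log_atTop.comp tendsto_natCast_atTop_atTop
  -- the upper bound tends to zero
  have hb1 : Tendsto (fun x : ℕ => (2 ^ r / η ^ 2) * (C * ((∑ h ∈ Finset.Icc 1 (H x),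
      max (count x ![0, h] - singularSeries ![0, h]) 0) / (H x : ℝ)) ^ (1 / (2 * (2 : ℝ))) +
        1 / Real.log x ^ δ')) atTop (nhds 0) := by
    have e1 : Tendsto (fun x : ℕ => ((∑ h ∈ Finset.Icc 1 (H x),
        max (count x ![0, h] - singularSeries ![0, h]) 0) / (H x : ℝ)) ^ (1 / (2 * (2 : ℝ))))
        atTop (nhds 0) := by
      have := hlim.rpow_const (p := 1 / (2 * (2 : ℝ))) (Or.inr (by norm_num))
      rwa [Real.zero_rpow (by norm_num)] at this
    have e2 : Tendsto (fun x : ℕ => 1 / Real.log x ^ δ') atTop (nhds 0) := by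
      have := ((tendsto_rpow_atTop hδ').comp hlog).inv_tendsto_atTop
      refine this.congr fun x => ?_
      simp
    have := ((e1.const_mul C).add e2).const_mul (2 ^ r / η ^ 2)
    rw [mul_zero, add_zero, mul_zero] at this
    exact this
  refine squeeze_zero' (Filter.Eventually.of_forall fun x => by positivity) ?_ hb1
  filter_upwards [hH, eventually_ge_atTop x₀, hlog.eventually_ge_atTop 1] with x h3 h4 hL
  have h5 := hx₀ x h4 (H x) h3.1 h3.2
  have hH1 : (1 : ℝ) ≤ H x := (Real.one_le_rpow hL (by linarith)).trans h3.1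
  have hH0 : (0 : ℝ) < H x := by linarith
  set P : ℝ := C * ((∑ h ∈ Finset.Icc 1 (H x),
      max (count x ![0, h] - singularSeries ![0, h]) 0) / (H x : ℝ)) ^ (1 / (2 * (2 : ℝ))) +
        1 / Real.log x ^ δ' with hP
  set T : Finset (Fin r → ℕ) := injTuples r (Finset.range (H x + 1)) with hT
  have h6 : ∑ b ∈ T, (count x b - singularSeries b) ^ 2 ≤ P * ((H x : ℝ) + 1) ^ r := by
    have h7 : mean r (Finset.range (H x + 1)) (fun b => (count x b - singularSeries b) ^ 2) =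
        (∑ b ∈ T, (count x b - singularSeries b) ^ 2) / ((H x : ℝ) + 1) ^ r := by
      unfold mean
      rw [Finset.card_range]
      push_cast
      rfl
    rw [h7] at h5
    have h8 := (le_abs_self _).trans h5
    rwa [div_le_iff₀ (by positivity)] at h8
  have h7 : ((T.filter (fun b => η < |count x b - singularSeries b|)).card : ℝ) * η ^ 2 ≤
      ∑ b ∈ T, (count x b - singularSeries b) ^ 2 := by
    rw [← nsmul_eq_mul, ← Finset.sum_const]
    refine (Finset.sum_le_sum (s := T.filter (fun b => η < |count x b - singularSeries b|))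
      fun b hb => ?_).trans
      (Finset.sum_le_sum_of_subset_of_nonneg (Finset.filter_subset _ _)
        fun b _ _ => sq_nonneg (count x b - singularSeries b))
    rw [← sq_abs (count x b - singularSeries b)]
    exact pow_le_pow_left₀ hη.le (Finset.mem_filter.mp hb).2.le 2
  have hP0 : 0 ≤ P := (abs_nonneg _).trans h5
  have h8 : ((H x : ℝ) + 1) ^ r ≤ 2 ^ r * (H x : ℝ) ^ r := by
    rw [← mul_pow]
    exact pow_le_pow_left₀ (by positivity) (by linarith) r
  rw [div_le_iff₀ (by positivity)]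
  have h9 := h7.trans (h6.trans (mul_le_mul_of_nonneg_left h8 hP0))
  have hη2 : 0 < η ^ 2 := by positivity
  rw [← le_div_iff₀ hη2] at h9
  refine h9.trans (le_of_eq ?_)
  field_simp

theorem result :
    (∀ δ : ℝ, 0 < δ → ∀ H : ℕ → ℕ,
      (∀ᶠ x : ℕ in atTop, Real.log x ^ (2 + δ) ≤ H x ∧ (H x : ℝ) * Real.log x ^ 3 ≤ x) →
      Tendsto (fun x : ℕ => (∑ h ∈ Finset.Icc 1 (H x),
        max (count x ![0, h] - singularSeries ![0, h]) 0) / (H x : ℝ)) atTop (nhds 0) →
      ∀ r : ℕ, 1 ≤ r → ∀ η : ℝ, 0 < η →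
      Tendsto (fun x : ℕ => (((injTuples r (Finset.range (H x + 1))).filter
        (fun b => η < |count x b - singularSeries b|)).card : ℝ) / (H x : ℝ) ^ r) atTop (nhds 0)) ∧
    (∀ m r s : ℕ, m = 1 ∨ m = 2 → 2 ≤ r → 1 ≤ s → ∀ δ ε : ℝ, 0 < δ → 0 < ε →
      ∃ C δ' : ℝ, 0 < δ' ∧ ∃ x₀ : ℕ, ∀ x : ℕ, x₀ ≤ x → ∀ B : Finset ℕ, (∀ b ∈ B, b ≤ x) →
      Real.log x ^ (m + δ) ≤ B.card →
        mean r B (fun b => singularSeries b ^ m) - 1 / Real.log x ^ δ' ≤
          mean r B (fun b => count x b ^ m) ∧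
        |mean s B (fun b => (count x b - singularSeries b) ^ m)| ≤
          C * (1 + mean (2 * s) B (fun b => singularSeries b ^ m)) *
            max (mean r B (fun b => count x b ^ m) - mean r B (fun b => singularSeries b ^ m)) 0 ^
              (1 / (r : ℝ)) + 1 / Real.log x ^ δ' ∧
        |mean s B (fun b => (count x b - singularSeries b) ^ m)| ≤
          Real.log x ^ ε * mean r B (fun b => max (count x b - singularSeries b) 0) ^ (1 / (r : ℝ)) +
            1 / Real.log x ^ δ') ∧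
    (∀ m s : ℕ, m = 1 ∨ m = 2 → 1 ≤ s → ∀ δ : ℝ, 0 < δ → ∃ C δ' : ℝ, 0 < δ' ∧ ∃ x₀ : ℕ,
      ∀ x : ℕ, x₀ ≤ x → ∀ H : ℕ, Real.log x ^ (m + δ) ≤ H → (H : ℝ) * Real.log x ^ 3 ≤ x →
        |mean s (Finset.range (H + 1)) (fun b => (count x b - singularSeries b) ^ m)| ≤
          C * ((∑ h ∈ Finset.Icc 1 H, max (count x ![0, h] - singularSeries ![0, h]) 0) / H) ^
            (1 / (2 * (m : ℝ))) + 1 / Real.log x ^ δ') ∧
    (∀ (K A : ℕ) (F : ℕ → ℕ) (ε : ℝ), 0 < ε → ∃ b₀ : ℕ, ∀ s : ℕ, 1 ≤ s → ∀ δ : ℝ, 0 < δ →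
      ∃ δ' : ℝ, 0 < δ' ∧ ∃ x₀ : ℕ, ∀ x : ℕ, x₀ ≤ x → ∀ H : ℕ, (x : ℝ) ^ (1 / 6 + ε) ≤ H → H ≤ x →
      ∀ T : Finset ℕ, SparseSpectrum F b₀ x H T →
      (∀ t ∈ T, 1 ≤ t ∧ 4 * (t * Real.log x ^ K) ≤ x) →
      ∃ E : Finset ℕ, (E.card : ℝ) ≤ T.card / Real.log x ^ A ∧ ∀ t ∈ T, t ∉ E →
        (∀ c d : ℕ, 4 * c ≤ 3 * x → 1 ≤ d → (d : ℝ) ≤ Real.log x ^ K →
          |count x ![c, c + t * d] - singularSeries ![c, c + t * d]| ≤
            1 / Real.log x ^ (1 / 4 : ℝ)) ∧
        ∀ m c : ℕ, m = 1 ∨ m = 2 → 2 * c ≤ x → ∀ S : Finset ℕ,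
          (∀ a ∈ S, (a : ℝ) ≤ Real.log x ^ K) → Real.log x ^ (m + δ) ≤ S.card →
          |mean s S (fun a => (count x (fun i => c + t * a i) -
            singularSeries (fun i => c + t * a i)) ^ m)| ≤ 1 / Real.log x ^ δ') ∧
    (∀ b₀ : ℕ, ∃ x₀ : ℕ, ∀ x : ℕ, x₀ ≤ x → ∀ H : ℕ, 1 ≤ H →
      SparseSpectrum (fun b => b + 2) b₀ x H (Finset.Icc 1 H)) := by
  classical
  have part2 : ∀ m s : ℕ, m = 1 ∨ m = 2 → 1 ≤ s → ∀ δ : ℝ, 0 < δ → ∃ C δ' : ℝ, 0 < δ' ∧ ∃ x₀ : ℕ,
      ∀ x : ℕ, x₀ ≤ x → ∀ H : ℕ, Real.log x ^ (m + δ) ≤ H → (H : ℝ) * Real.log x ^ 3 ≤ x →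
        |mean s (Finset.range (H + 1)) (fun b => (count x b - singularSeries b) ^ m)| ≤
          C * ((∑ h ∈ Finset.Icc 1 H, max (count x ![0, h] - singularSeries ![0, h]) 0) / H) ^
            (1 / (2 * (m : ℝ))) + 1 / Real.log x ^ δ' := fun m s hm hs δ hδ => by
    obtain ⟨C, δ', hC, hδ', h⟩ := interval_stable m s hm hs hδ
    obtain ⟨x₀, hx₀⟩ := eventually_atTop.mp h
    refine ⟨C, δ', hδ', max x₀ 3, fun x hx H hH hHx => ?_⟩
    have hL1 := one_le_log ((le_max_right _ _).trans hx)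
    have hL0 : 0 < Real.log x := by linarith
    have hH0 : (0 : ℝ) < H := lt_of_lt_of_le (Real.rpow_pos_of_pos hL0 _) hH
    rw [mean_diff]
    have hcard : ((Finset.range (H + 1)).card : ℝ) = (H : ℝ) + 1 := by
      rw [Finset.card_range]
      push_cast
      ring
    rw [hcard]
    have e1 : ∑ h ∈ Finset.Icc 1 H, max (count x ![0, h] - singularSeries ![0, h]) 0 =
        ∑ h ∈ Finset.Icc 1 H, max (pin x (![0, h] : Fin 2 → ℕ) - SI (![0, h] : Fin 2 → ℕ)) 0 := by
      refine Finset.sum_congr rfl fun h hh => ?_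
      have h1 : (0 : ℕ) ≠ h := by
        have := (Finset.mem_Icc.mp hh).1
        omega
      rw [ss_eq _ (inj_pair h1), count_eq]
    rw [e1]
    have hP0 : 0 ≤ (∑ h ∈ Finset.Icc 1 H,
        max (pin x (![0, h] : Fin 2 → ℕ) - SI (![0, h] : Fin 2 → ℕ)) 0) / (H : ℝ) :=
      div_nonneg (Finset.sum_nonneg fun b _ => le_max_right _ _) hH0.le
    have h2 := hx₀ x ((le_max_left _ _).trans hx) H hH hHx _ hP0 (by
      rw [div_mul_cancel₀ _ hH0.ne'])
    refine abs_div_le (by positivity) (h2.trans ?_)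
    refine mul_le_mul_of_nonneg_left (pow_le_pow_left₀ hH0.le (by linarith) s) ?_
    have := Real.rpow_nonneg hP0 (1 / (2 * (m : ℝ)))
    positivity
  refine ⟨fun δ hδ H hH hlim r hr η hη => almost_all δ hδ H (fun s hs => ?_) hH hlim r hr η hη,
    fun m r s hm hr hs δ ε hδ hε => ?_, part2, fun K A F ε hε => ?_, fun b₀ => ?_⟩
  · have := part2 2 s (Or.inr rfl) hs δ hδ
    simpa only [Nat.cast_ofNat] using this
  · obtain ⟨k, rfl⟩ : ∃ k, r = k + 1 := ⟨r - 1, by omega⟩
    have hδ0 : 0 < min δ (1 / 4) := lt_min hδ (by norm_num)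
    have hlow : ∀ᶠ x : ℕ in atTop, ∀ B : Finset ℕ, (∀ b ∈ B, b ≤ x) →
        Real.log x ^ (m + min δ (1 / 4)) ≤ B.card →
        ∑ b ∈ Inj (k + 1) B, SI b ^ m - (B.card : ℝ) ^ (k + 1) / Real.log x ^ (min δ (1 / 4) / 2) ≤
          ∑ b ∈ Inj (k + 1) B, pin x b ^ m := by
      rcases hm with rfl | rfl
      · filter_upwards [ms_lower1 k hδ0 (min_le_right _ _)] with x hx B hB hc
        simp only [pow_one]
        exact hx B hB (by simpa using hc)
      · filter_upwards [ms_lower k hδ0 (min_le_right _ _)] with x hx B hB hc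
        exact hx B hB (by simpa using hc)
    obtain ⟨C, δ1, hC, hδ1, hst⟩ := set_stable m (k + 1) s hm hr hs hδ
    have hθ : 0 < ε / 4 := by positivity
    obtain ⟨x₀, hx₀⟩ := eventually_atTop.mp (hlow.and (hst.and
      ((ms_pos_ineq m (k + 1) hm (by omega) hθ).and
        ((SI_mean_small (2 * s) (by omega) hθ).and (UpperAux.ev_rpow_ge (2 * C) hθ)))))
    refine ⟨C, min (min δ (1 / 4) / 2) δ1, by positivity, max x₀ 3, fun x hx B hB hc => ?_⟩
    have hL1 := one_le_log ((le_max_right _ _).trans hx)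
    have hL0 : 0 < Real.log x := by linarith
    obtain ⟨h1, h2, h3, h4, h5⟩ := hx₀ x ((le_max_left _ _).trans hx)
    have hβ : (0 : ℝ) < B.card := lt_of_lt_of_le (Real.rpow_pos_of_pos hL0 _) hc
    have hmono : ∀ a : ℝ, min (min δ (1 / 4) / 2) δ1 ≤ a →
        1 / Real.log x ^ a ≤ 1 / Real.log x ^ min (min δ (1 / 4) / 2) δ1 := by
      intro a ha
      exact one_div_le_one_div_of_le (by positivity) (Real.rpow_le_rpow_of_exponent_le hL1 ha)
    rw [mean_S, mean_S, mean_count, mean_diff, mean_max]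
    set β : ℝ := (B.card : ℝ) with hβd
    have hSn : ∀ q : ℕ, 0 ≤ ∑ b ∈ Inj q B, SI b ^ m := fun q =>
      Finset.sum_nonneg fun b hb => pow_nonneg (SI_nonneg b (inj_of_mem hb)) m
    set M : ℝ := (∑ b ∈ Inj (2 * s) B, SI b ^ m) / β ^ (2 * s) with hM
    have hM0 : 0 ≤ M := div_nonneg (hSn _) (by positivity)
    set D : ℝ := max ((∑ b ∈ Inj (k + 1) B, pin x b ^ m) / β ^ (k + 1) -
      (∑ b ∈ Inj (k + 1) B, SI b ^ m) / β ^ (k + 1)) 0 with hD
    have hD0 : 0 ≤ D := le_max_right _ _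
    have hkey : |(∑ b ∈ Inj s B, (pin x b - SI b) ^ m) / β ^ s| ≤
        C * (1 + M) * D ^ (1 / ((k + 1 : ℕ) : ℝ)) + 1 / Real.log x ^ δ1 := by
      refine abs_div_le (by positivity) (h2 B hB hc (1 + M) D (by linarith) hD0 ?_ ?_)
      · have : ∑ b ∈ Inj (2 * s) B, SI b ^ m = M * β ^ (2 * s) := by
          rw [hM]
          field_simp
        rw [this]
        nlinarith [pow_pos hβ (2 * s)]
      · have h6 : (∑ b ∈ Inj (k + 1) B, pin x b ^ m) / β ^ (k + 1) -
            (∑ b ∈ Inj (k + 1) B, SI b ^ m) / β ^ (k + 1) ≤ D := le_max_left _ _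
        rw [← sub_div, div_le_iff₀ (by positivity)] at h6
        linarith
    refine ⟨?_, hkey.trans (by linarith [hmono δ1 (min_le_right _ _)]), ?_⟩
    · have h6 := h1 B hB ((Real.rpow_le_rpow_of_exponent_le hL1 (by
        linarith [min_le_left δ (1 / 4)])).trans hc)
      have h7 := hmono (min δ (1 / 4) / 2) (min_le_left _ _)
      have h8 : (∑ b ∈ Inj (k + 1) B, SI b ^ m) / β ^ (k + 1) -
          1 / Real.log x ^ (min δ (1 / 4) / 2) ≤
          (∑ b ∈ Inj (k + 1) B, pin x b ^ m) / β ^ (k + 1) := by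
        rw [le_div_iff₀ (by positivity), sub_mul, div_mul_cancel₀ _ (by positivity)]
        refine le_of_eq_of_le ?_ h6
        ring
      linarith
    · set P : ℝ := (∑ b ∈ Inj (k + 1) B, max (pin x b - SI b) 0) / β ^ (k + 1) with hP
      have hP0 : 0 ≤ P := div_nonneg (Finset.sum_nonneg fun b _ => le_max_right _ _) (by positivity)
      have hMs : M ≤ Real.log x ^ (ε / 4) := by
        rw [hM, div_le_iff₀ (by positivity)]
        rcases hm with rfl | rfl
        · simp only [pow_one]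
          exact (h4 B hB).2
        · exact (h4 B hB).1
      have hDP : D ≤ Real.log x ^ (ε / 4) * P := by
        refine max_le ?_ (by positivity)
        rw [← sub_div, div_le_iff₀ (by positivity), hP]
        have h6 := h3 B hB
        have h7 : Real.log x ^ (ε / 4) * ((∑ b ∈ Inj (k + 1) B, max (pin x b - SI b) 0) /
            β ^ (k + 1)) * β ^ (k + 1) =
            Real.log x ^ (ε / 4) * ∑ b ∈ Inj (k + 1) B, max (pin x b - SI b) 0 := by
          field_simp
        rw [h7]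
        linarith
      have hfin := pos_case (ε := ε) hL1 hC hM0 hP0 hθ
        (by positivity : (0 : ℝ) ≤ 1 / ((k + 1 : ℕ) : ℝ))
        (by
          rw [div_le_one (by positivity)]
          have : 1 ≤ k + 1 := by omega
          exact_mod_cast this) (by linarith) hMs hD0 hDP h5
      have h7 := hmono δ1 (min_le_right _ _)
      linarith
  · obtain ⟨b₀, hg⟩ := dil_good_short K A F (1 / 6) (1 / 6 + ε) (by norm_num) wne6 (by linarith)
    refine ⟨b₀, fun s hs δ hδ => ?_⟩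
    obtain ⟨δ1, hδ1, hh1⟩ := dil_stable 1 s K (Or.inl rfl) hs hδ
    obtain ⟨δ2, hδ2, hh2⟩ := dil_stable 2 s K (Or.inr rfl) hs hδ
    obtain ⟨x₀, hx₀⟩ := eventually_atTop.mp (hg.and (hh1.and hh2))
    refine ⟨min δ1 δ2, lt_min hδ1 hδ2, max x₀ 3, fun x hx H hxH hHx T hT hTx => ?_⟩
    have hL1 := one_le_log ((le_max_right _ _).trans hx)
    have hL0 : 0 < Real.log x := by linarith
    obtain ⟨h1, h2, h3⟩ := hx₀ x ((le_max_left _ _).trans hx)
    obtain ⟨E, hE1, hE2, hE3⟩ := h1 H hxH hHx T ((spx_iff F b₀ x H T).mp hT) hTx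
    refine ⟨E, hE2, fun t ht htE => ⟨fun c d hc hd1 hd2 => ?_, fun m c hm hc S hS hSc => ?_⟩⟩
    · have htd : 1 ≤ t * d := Nat.one_le_iff_ne_zero.mpr
        (Nat.mul_ne_zero (by have := (hTx t ht).1; omega) (by omega))
      have hne : c ≠ c + t * d := by omega
      rw [ss_eq _ (inj_pair hne)]
      exact (hE3 t ht htE).2.2 c d hc hd1 hd2 ![c, c + t * d] (Or.inl ⟨by simp, by simp⟩)
    · have hDP := hE3 t ht htE
      have hinj : ∀ a ∈ Inj s S, Function.Injective (fun i => c + t * a i) := by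
        intro a ha i j hij
        have h4 : t * a i = t * a j := by
          have : c + t * a i = c + t * a j := hij
          omega
        exact inj_of_mem ha (Nat.eq_of_mul_eq_mul_left hDP.1 h4)
      have hβ : (0 : ℝ) < S.card := lt_of_lt_of_le (Real.rpow_pos_of_pos hL0 _) hSc
      unfold mean
      rw [injTuples_eq]
      have hsum : ∑ a ∈ Inj s S, (count x (fun i => c + t * a i) -
          singularSeries (fun i => c + t * a i)) ^ m =
          ∑ a ∈ Inj s S, (pin x (fun i => c + t * a i) - SI (fun i => c + t * a i)) ^ m :=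
        Finset.sum_congr rfl fun a ha => by rw [ss_eq _ (hinj a ha), count_eq]
      rw [hsum]
      have hfin : ∀ δ0 : ℝ, min δ1 δ2 ≤ δ0 → (S.card : ℝ) ^ s / Real.log x ^ δ0 ≤
          1 / Real.log x ^ min δ1 δ2 * (S.card : ℝ) ^ s := fun δ0 h0 => by
        have h5 : 1 / Real.log x ^ δ0 ≤ 1 / Real.log x ^ min δ1 δ2 :=
          one_div_le_one_div_of_le (by positivity) (Real.rpow_le_rpow_of_exponent_le hL1 h0)
        have h6 : (S.card : ℝ) ^ s / Real.log x ^ δ0 = 1 / Real.log x ^ δ0 * (S.card : ℝ) ^ s := by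
          ring
        rw [h6]
        exact mul_le_mul_of_nonneg_right h5 (by positivity)
      refine abs_div_le (by positivity) ?_
      rcases hm with rfl | rfl
      · exact (h2 t hDP c hc S hS hSc).trans (hfin _ (min_le_left _ _))
      · exact (h3 t hDP c hc S hS hSc).trans (hfin _ (min_le_right _ _))
  · have hlog : Tendsto (fun x : ℕ => Real.log (x : ℝ)) atTop atTop :=
      Real.tendsto_log_atTop.comp tendsto_natCast_atTop_atTop
    obtain ⟨x₀, hx₀⟩ := eventually_atTop.mp (hlog.eventually_ge_atTop 2)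
    exact ⟨x₀, fun x hx H hH => (spx_iff _ b₀ x H _).mpr (spx_Icc x H hH (hx₀ x hx) b₀)⟩

end Pool.Agent.Results.MP_e87c7d_nt.Rigidity
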