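import Pool.Agent.Lib.VN.Every
import Pool.Agent.Lib.VK.PolySub
import Pool.Agent.Lib.VK.SepSieve
import Pool.Agent.Lib.VM.WinSup6

/-!
# Prime tuples with shifts from short ranges, and universal sets of `(log x)^C` shifts

`SparseSpectrum F b₀ H T`: every set of frequencies which are `1/H`-separated modulo one and at which
`|∑_{t ∈ T} e(t θ)| ≥ |T| / (log H)^b`, `b ≤ b₀`, has at most `(log H)^(F b)` elements. By part 6 this is true for
every set `T` of at least `N / (log H)^C` of the numbers `v + Q 1, …, v + Q N`, where `Q` is a nonconstant polynomial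
with integer coefficients, `0 ≤ Q k ≤ H ≤ N^(deg Q) (log H)^C` and `v` is arbitrary (all integers, all primes, squares
of primes, … of an interval).

Sets `T_1, …, T_m` of shifts are called universal at `x` (parameters `K, A, B`) if for EVERY sequence `w` with
`|w n| ≤ (log x)^K` and EVERY shift `c ≤ x`, all but `∏ |T_j| / (log x)^A` of the `t` in `∏ T_j` have two properties:
* for all `y ≤ x` the sum of `w n` over the `n ≤ y` with all `n + t_j` prime is, up to `x / (log x)^A`, the sum of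
  `w n` times the sieve model of the primes at the `n + t_j`;
* if the shifts `c, t_1, …, t_m` are distinct, then the Hardy-Littlewood formula for them holds for all `y ≤ x`, up
  to `x / (log x)^A`.

Let `ε > 0`.
0. Intervals: if `x^(1/6 + ε) ≤ H_j` and `v_j + H_j ≤ x`, then the `m` intervals `(v_j, v_j + H_j]` are universal at
   `x` (for `m = 1`: the Hardy-Littlewood formula for the pair `c, c'` holds for almost all `c'` of any interval of
   length at least `x^(1/6 + ε)`).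
1. Sets `T_j ⊂ [0, x]` with a sparse spectrum at scales `x^(1/6 + ε) ≤ H_j ≤ x` are universal at `x`.
2. All `x` at once: if `c ≤ X`, `T_j ⊂ [0, X]`, then for all but `∏ |T_j| / (log X)^A` of the `t` the
   Hardy-Littlewood formula for `c, t_1, …, t_m` holds for every `x ≥ X` with `x^(1/6 + ε) ≤ H_j` for all `j`.
3. Random sets: let `T ⊂ [0, X]` have a sparse spectrum at the scale `H` and let `D ≤ (log X)^K`. For all but a
   proportion `1 / (log X)^A` of the `D`-element subsets `S` of `T` the Hardy-Littlewood formula holds for EVERY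
   tuple of distinct elements of `S` and all `x ≥ X` with `x^(1/6 + ε) ≤ H`.
4. Universal random sets of logarithmic size: let `T_j ⊂ [0, H_j]` have a sparse spectrum at the scale
   `H_j ≥ x^(1/6 + ε)` and let `(log x)^C ≤ D_j ≤ (log x)^K'`. For all but a proportion `1 / (log x)^A` of the
   `D_j`-element subsets `S_j` of `T_j`, the translates `S_1 + β_1, …, S_m + β_m` are universal at `x` for ALL
   `β_j ≤ x - H_j`.
5. Universal structured sets of logarithmic size: let `T_j ⊂ [1, H_j]`, `D_j ≤ (log x)^K'`, `D_j H_j ≤ x`. For all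
   but `|T_j| / (log x)^A` of the `t_j` in `T_j`, ALL sets of multiples `{q t_j + β_j : q ∈ Q_j}`, where
   `Q_j ⊂ [0, D_j]`, `|Q_j| ≥ (log x)^C`, `β_j ≤ x - D_j H_j`, are universal at `x`.
-/

set_option autoImplicit false

open Finset Filter

namespace Pool.Agent.Results.MP_e87c7d_nt.ShortShifts

open Pool.Agent.HLB Pool.Agent.HLT Pool.Agent.HLU Pool.Agent.VK Pool.Agent.VN
open Pool.Agent.Lib.Sieve4 (c0 c0_pos)

/-- For every `b ≤ b₀`, every set `Θ` of real numbers which are `1 / H`-separated modulo one and satisfy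
`|∑ t ∈ T, exp (2 π i t θ)| ≥ |T| / (log H)^b` has at most `(log H)^(F b)` elements. -/
def SparseSpectrum (F : ℕ → ℕ) (b₀ H : ℕ) (T : Finset ℕ) : Prop :=
  ∀ b ≤ b₀, ∀ Θ : Finset ℝ,
    (∀ θ ∈ Θ, ∀ θ' ∈ Θ, θ ≠ θ' → ∀ k : ℤ, 1 / (H : ℝ) ≤ |θ - θ' - k|) →
    (∀ θ ∈ Θ, (T.card : ℝ) ≤ Real.log H ^ b *
      ‖∑ t ∈ T, Complex.exp (2 * Real.pi * Complex.I * (t * θ))‖) →
    (Θ.card : ℝ) ≤ Real.log H ^ F b

/-- The factor at the prime `q` of the singular series of the shifts `f i`. -/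
noncomputable def factor {r : ℕ} (f : Fin r → ℕ) (q : ℕ) : ℝ :=
  (1 - ((univ.image (fun i => (f i : ZMod q))).card : ℝ) / (q : ℝ)) * ((1 - 1 / (q : ℝ))⁻¹) ^ r

/-- `1 / ((log n) ∏_{q ≤ z} (1 - 1 / q))` if `n` has no prime factor `q ≤ z`, and `0` otherwise. -/
noncomputable def model (z n : ℕ) : ℝ :=
  if ∀ q ∈ Nat.primesLE z, ¬ q ∣ n then
    (∏ q ∈ Nat.primesLE z, (1 - 1 / (q : ℝ)))⁻¹ / Real.log n else 0

/-- The Hardy-Littlewood formula for the shifts `f i` and all `y ≤ x`, with the error `e`. The singular series `S`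
is at least `κ` unless it vanishes for the obvious reason. -/
def HardyLittlewood {r : ℕ} (κ : ℝ) (f : Fin r → ℕ) (x : ℕ) (e : ℝ) : Prop :=
  ∃ S : ℝ, HasProd (fun q : Nat.Primes => factor f q) S ∧
    ((∀ q : ℕ, q.Prime → (univ.image (fun i => (f i : ZMod q))).card < q) → κ ≤ S) ∧
    ∀ y : ℕ, y ≤ x →
      |(((Icc 1 y).filter (fun n : ℕ => ∀ i, (n + f i).Prime)).card : ℝ) -
        S * ∑ n ∈ Icc 2 y, ∏ i, 1 / Real.log ((n + f i : ℕ) : ℝ)| ≤ e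

/-- The sets of shifts `T 0, …, T (m - 1)` are universal at `x`. -/
def Universal (m K A B : ℕ) (κ : ℝ) (x : ℕ) (T : Fin m → Finset ℕ) : Prop :=
  ∀ w : ℕ → ℂ, (∀ n : ℕ, 1 ≤ n → n ≤ x → ‖w n‖ ≤ Real.log x ^ K) → ∀ c : ℕ, c ≤ x →
    ∃ E ⊆ Fintype.piFinset T, (E.card : ℝ) ≤ (∏ j, ((T j).card : ℝ)) / Real.log x ^ A ∧
      ∀ t ∈ Fintype.piFinset T, t ∉ E →
        (∀ y : ℕ, y ≤ x →
          ‖∑ n ∈ (Icc 1 y).filter (fun n : ℕ => ∀ j, (n + t j).Prime), w n -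
              ∑ n ∈ Icc 1 y, w n * ∏ j, (model ⌊Real.log x ^ B⌋₊ (n + t j) : ℂ)‖ ≤
            x / Real.log x ^ A) ∧
        (Function.Injective (Fin.cons c t : Fin (m + 1) → ℕ) →
          HardyLittlewood κ (Fin.cons c t : Fin (m + 1) → ℕ) x (x / Real.log x ^ A))

lemma sep_iff (H : ℕ) (Θ : Finset ℝ) :
    (∀ θ ∈ Θ, ∀ θ' ∈ Θ, θ ≠ θ' → ∀ k : ℤ, 1 / (H : ℝ) ≤ |θ - θ' - k|) ↔ VK.Sep H Θ := by
  unfold VK.Sep
  refine forall_congr' fun θ => forall_congr' fun _ => forall_congr' fun θ' => forall_congr' fun _ =>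
    forall_congr' fun _ => ?_
  constructor
  · intro h
    exact h (round (θ - θ'))
  · intro h k
    exact h.trans (round_le (θ - θ') k)

lemma norm_WW (T : Finset ℕ) (θ : ℝ) :
    ‖∑ t ∈ T, Complex.exp (2 * Real.pi * Complex.I * (t * θ))‖ = ‖WW T θ‖ := by
  unfold WW ex
  congr 1
  refine Finset.sum_congr rfl fun t _ => ?_
  congr 1
  push_cast
  ring

lemma spb_iff (F : ℕ → ℕ) (b₀ H : ℕ) (T : Finset ℕ) : SparseSpectrum F b₀ H T ↔ SpB F b₀ H T := by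
  unfold SparseSpectrum SpB
  refine forall_congr' fun b => forall_congr' fun _ => forall_congr' fun Θ => ?_
  rw [sep_iff]
  simp only [norm_WW]

lemma factor_eq {r : ℕ} (f : Fin r → ℕ) (q : ℕ) : factor f q = locI f q := by
  unfold factor locI nuI
  rw [Fintype.card_fin]

lemma model_eq (z n : ℕ) : model z n = G1 z n := by
  unfold model G1 nuz ic DZ
  split_ifs
  · rw [mul_one, mul_one_div]
  · rw [mul_zero, zero_mul]

/-- The singular series of distinct shifts is bounded below, if it does not vanish. -/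
lemma sing_lower (r : ℕ) (hr : 1 ≤ r) : ∃ κ : ℝ, 0 < κ ∧ ∀ f : Fin r → ℕ, Function.Injective f →
    (∀ q : ℕ, q.Prime → nuI f q < q) → κ ≤ SI f := by
  have h0 : 0 < Fintype.card (Fin r) := by
    rw [Fintype.card_fin]
    omega
  exact ⟨c0 (Fintype.card (Fin r)), c0_pos _ h0, fun f hf hadm => c0_le_SI f hf h0 hadm⟩

lemma hl_iff {r : ℕ} (κ : ℝ) (hκ : ∀ f : Fin r → ℕ, Function.Injective f →
    (∀ q : ℕ, q.Prime → nuI f q < q) → κ ≤ SI f) (f : Fin r → ℕ) (hf : Function.Injective f) (x : ℕ) (e : ℝ)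
    (h : ∀ y : ℕ, y ≤ x → |(((Icc 1 y).filter (fun n : ℕ => ∀ i, (n + f i).Prime)).card : ℝ) -
          SI f * ∑ n ∈ Icc 2 y, hl univ f n| ≤ e) : HardyLittlewood κ f x e := by
  refine ⟨SI f, ?_, fun hadm => hκ f hf fun q hq => hadm q hq, fun y hy => h y hy⟩
  simp only [factor_eq]
  exact hasProd_SI f hf

lemma universal_of (m K A B : ℕ) (κ : ℝ) (hκ : ∀ f : Fin (m + 1) → ℕ, Function.Injective f →
    (∀ q : ℕ, q.Prime → nuI f q < q) → κ ≤ SI f) (x : ℕ) (T : Fin m → Finset ℕ)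
    (h : UB m K A B x T) : Universal m K A B κ x T := by
  classical
  intro w hw c hc
  obtain ⟨E, hE1, hE2, hE3⟩ := h w (fun n hn => by
    rw [mem_Icc] at hn
    exact hw n hn.1 hn.2) c hc
  refine ⟨E, hE1, hE2, fun t ht htE => ⟨fun y hy => ?_, fun hinj => ?_⟩⟩
  · refine le_trans (le_of_eq ?_) ((hE3 t ht htE).1 y hy)
    congr 1
    rw [Finset.sum_filter, ← Finset.sum_sub_distrib]
    refine Finset.sum_congr rfl fun n _ => ?_
    have e1 : (∏ j, G0 (n + t j) : ℝ) = if ∀ j, (n + t j).Prime then 1 else 0 := by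
      unfold G0
      by_cases h : ∀ j, (n + t j).Prime
      · rw [if_pos h]
        exact Finset.prod_eq_one fun j _ => if_pos (h j)
      · rw [if_neg h]
        push Not at h
        obtain ⟨j, hj⟩ := h
        exact Finset.prod_eq_zero (Finset.mem_univ j) (if_neg hj)
    have e2 : (∏ j, (model ⌊Real.log x ^ B⌋₊ (n + t j) : ℂ)) =
        ((∏ j, G1 (zA B x) (n + t j) : ℝ) : ℂ) := by
      push_cast
      refine Finset.prod_congr rfl fun j _ => ?_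
      rw [model_eq]
      rfl
    rw [e2, e1]
    split_ifs
    · push_cast
      ring
    · push_cast
      ring
  · exact hl_iff κ hκ _ hinj x _ ((hE3 t ht htE).2 hinj)

/-- The input on short windows. -/
theorem wne_sixth : WNE (1 / 6) := by
  intro κ hκ A0 B
  obtain ⟨A, hA, h⟩ := VM.win_sup6 A0 B (κ - 1 / 6) (by linarith)
  refine ⟨A, hA, ?_⟩
  filter_upwards [h] with x hx H h1 h2 k0
  exact hx H k0 (by rw [add_sub_cancel]; exact h1) h2

lemma energy_one (T : Finset ℕ) : energy 1 T ≤ T.card := by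
  unfold energy
  refine Finset.card_le_card_of_injOn (fun u => u.1 0) (fun u hu => ?_) (fun u hu v hv huv => ?_)
  · have h := (Finset.mem_filter.mp (Finset.mem_coe.mp hu)).1
    exact Fintype.mem_piFinset.mp (Finset.mem_product.mp h).1 0
  · have h1 := (Finset.mem_filter.mp (Finset.mem_coe.mp hu)).2
    have h2 := (Finset.mem_filter.mp (Finset.mem_coe.mp hv)).2
    simp only [Fin.sum_univ_one] at h1 h2
    have huv' : u.1 0 = v.1 0 := huv
    refine Prod.ext (funext fun i => ?_) (funext fun i => ?_)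
    · rw [Subsingleton.elim i 0]
      exact huv'
    · rw [Subsingleton.elim i 0, ← h1, ← h2]
      exact huv'

lemma sub_range {T : Finset ℕ} {x : ℕ} (h : ∀ t ∈ T, t ≤ x) : T ⊆ range (x + 1) := by
  intro t ht
  rw [Finset.mem_range]
  have := h t ht
  omega

lemma tr_sub (v : ℕ) (T : Finset ℕ) (hT : ∀ t ∈ T, v ≤ t) : tr (T.image (fun t => t - v)) v = T := by
  unfold tr
  rw [Finset.image_image]
  refine (Finset.image_congr fun t ht => ?_).trans Finset.image_id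
  have := hT t ht
  simp only [Function.comp_apply, id]
  omega

lemma spb_shift (F : ℕ → ℕ) (b₀ H v : ℕ) (T : Finset ℕ) (hT : ∀ t ∈ T, v ≤ t)
    (h : SpB F b₀ H (T.image (fun t => t - v))) : SpB F b₀ H T := by
  have htr := tr_sub v T hT
  refine fun b hb Θ hΘ hθ => h b hb Θ hΘ fun θ hθ' => ?_
  have h2 := hθ θ hθ'
  rw [← htr, tr_card, norm_WW_tr] at h2
  exact h2

/-- Part 6. -/
theorem poly_values (Q : Polynomial ℤ) (C : ℕ) (hd : 1 ≤ Q.natDegree) : ∃ F : ℕ → ℕ, ∀ b₀ : ℕ, ∃ H₀ : ℕ,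
    ∀ H : ℕ, H₀ ≤ H → ∀ v N : ℕ, (∀ k : ℕ, 1 ≤ k → k ≤ N → 0 ≤ Q.eval (k : ℤ) ∧ Q.eval (k : ℤ) ≤ H) →
      (H : ℝ) ≤ (N : ℝ) ^ Q.natDegree * Real.log H ^ C →
      ∀ T ⊆ (Icc 1 N).image (fun k : ℕ => v + (Q.eval (k : ℤ)).toNat), (N : ℝ) ≤ T.card * Real.log H ^ C →
        SparseSpectrum F b₀ H T := by
  -- reduction to `v = 0`
  suffices h : ∃ F : ℕ → ℕ, ∀ b₀ : ℕ, ∃ H₀ : ℕ, ∀ H : ℕ, H₀ ≤ H → ∀ N : ℕ,
      (∀ k : ℕ, 1 ≤ k → k ≤ N → 0 ≤ Q.eval (k : ℤ) ∧ Q.eval (k : ℤ) ≤ H) →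
      (H : ℝ) ≤ (N : ℝ) ^ Q.natDegree * Real.log H ^ C →
      ∀ T ⊆ (Icc 1 N).image (fun k : ℕ => (Q.eval (k : ℤ)).toNat), (N : ℝ) ≤ T.card * Real.log H ^ C →
        SpB F b₀ H T by
    obtain ⟨F, hF⟩ := h
    refine ⟨F, fun b₀ => ?_⟩
    obtain ⟨H₀, hH₀⟩ := hF b₀
    refine ⟨H₀, fun H hH v N h1 h2 T hT hTc => ?_⟩
    have hv : ∀ t ∈ T, v ≤ t := by
      intro t ht
      obtain ⟨k, _, rfl⟩ := Finset.mem_image.mp (hT ht)
      omega
    rw [spb_iff]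
    refine spb_shift F b₀ H v T hv (hH₀ H hH N h1 h2 _ (fun u hu => ?_) ?_)
    · obtain ⟨t, ht, rfl⟩ := Finset.mem_image.mp hu
      obtain ⟨k, hk, hkt⟩ := Finset.mem_image.mp (hT ht)
      refine Finset.mem_image.mpr ⟨k, hk, ?_⟩
      omega
    · have hc : (T.image (fun t => t - v)).card = T.card := by
        rw [← tr_card _ v, tr_sub v T hv]
      rwa [hc]
  rcases Nat.lt_or_ge 1 Q.natDegree with hd2 | hd1
  · obtain ⟨F, hF⟩ := poly_sub Q hd2 C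
    refine ⟨F, fun b₀ => ?_⟩
    obtain ⟨H₀, hH₀⟩ := eventually_atTop.mp (hF b₀)
    refine ⟨H₀, fun H hH N h1 h2 T hT hTc => ?_⟩
    exact (hH₀ H hH N (fun k hk => h1 k (Finset.mem_Icc.mp hk).1 (Finset.mem_Icc.mp hk).2) h2 T hT hTc).2
  · have hd' : Q.natDegree = 1 := by omega
    refine ⟨fun b => 2 * 1 * b + 2 * C + 1, fun b₀ => ?_⟩
    obtain ⟨H₀, hH₀⟩ := eventually_atTop.mp (sps_of_energy 1 (2 * C) le_rfl)
    refine ⟨max H₀ 3, fun H hH N h1 h2 T hT hTc => ?_⟩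
    have hH3 : 3 ≤ H := le_trans (le_max_right _ _) hH
    have hH3' : (3 : ℝ) ≤ H := by exact_mod_cast hH3
    have hL : 0 < Real.log H := Real.log_pos (by linarith)
    have hc : (H : ℝ) ≤ T.card * Real.log H ^ (2 * C) := by
      rw [hd', pow_one] at h2
      calc (H : ℝ) ≤ N * Real.log H ^ C := h2
        _ ≤ (T.card * Real.log H ^ C) * Real.log H ^ C := mul_le_mul_of_nonneg_right hTc (by positivity)
        _ = T.card * Real.log H ^ (2 * C) := by ring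
    have hTr : T ⊆ range (H + 1) := by
      intro u hu
      obtain ⟨k, hk, rfl⟩ := Finset.mem_image.mp (hT hu)
      have h3 := h1 k (Finset.mem_Icc.mp hk).1 (Finset.mem_Icc.mp hk).2
      rw [Finset.mem_range]
      omega
    have hne : T.Nonempty := by
      rw [← Finset.card_pos]
      rcases Nat.eq_zero_or_pos T.card with h0 | h0
      · rw [h0, Nat.cast_zero, zero_mul] at hc
        linarith
      · exact h0
    have hE : energy 1 T ≤ T.card := energy_one T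
    refine (hH₀ H (le_trans (le_max_left _ _) hH) H T (by omega) hne hTr ?_ b₀).2
    calc (H : ℝ) * energy 1 T ≤ (T.card * Real.log H ^ (2 * C)) * T.card := by
          exact mul_le_mul hc (by exact_mod_cast hE) (Nat.cast_nonneg _) (le_trans (Nat.cast_nonneg _) hc)
      _ = (T.card : ℝ) ^ (2 * 1) * Real.log H ^ (2 * C) := by ring

/-- Part 1. -/
theorem part_one (m K A : ℕ) (F : ℕ → ℕ) (ε : ℝ) (hε : 0 < ε) : ∃ (b₀ B x₀ : ℕ) (κ : ℝ), 0 < κ ∧ ∀ x : ℕ, x₀ ≤ x →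
    ∀ (H : Fin m → ℕ) (T : Fin m → Finset ℕ), (∀ j, (x : ℝ) ^ (1 / 6 + ε) ≤ H j ∧ H j ≤ x) →
      (∀ j, (∀ t ∈ T j, t ≤ x) ∧ SparseSpectrum F b₀ (H j) (T j)) → Universal m K A B κ x T := by
  obtain ⟨b₀, B, h⟩ := fin_a (1 / 6) (1 / 6 + ε) (by norm_num) wne_sixth (by linarith) m K A F
  obtain ⟨x₀, hx₀⟩ := eventually_atTop.mp h
  obtain ⟨κ, hκ0, hκ⟩ := sing_lower (m + 1) (by omega)
  refine ⟨b₀, B, x₀, κ, hκ0, fun x hx H T hH hT => universal_of m K A B κ hκ x T ?_⟩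
  exact hx₀ x hx H hH T (fun j => sub_range (hT j).1) (fun j => (spb_iff F b₀ (H j) (T j)).mp (hT j).2)

/-- Part 0. -/
theorem intervals (m K A : ℕ) (ε : ℝ) (hε : 0 < ε) : ∃ (B x₀ : ℕ) (κ : ℝ), 0 < κ ∧ ∀ x : ℕ, x₀ ≤ x →
    ∀ H v : Fin m → ℕ, (∀ j, (x : ℝ) ^ (1 / 6 + ε) ≤ H j ∧ v j + H j ≤ x) →
      Universal m K A B κ x (fun j => Ioc (v j) (v j + H j)) := by
  obtain ⟨F, hF⟩ := poly_values Polynomial.X 0 (by rw [Polynomial.natDegree_X])
  obtain ⟨b₀, B, x₀, κ, hκ0, h⟩ := part_one m K A F ε hε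
  obtain ⟨H₀, hH₀⟩ := hF b₀
  obtain ⟨x₁, hx₁⟩ := eventually_atTop.mp
    (((tendsto_rpow_atTop (show (0 : ℝ) < 1 / 6 + ε by linarith)).comp
      tendsto_natCast_atTop_atTop).eventually (eventually_ge_atTop (H₀ : ℝ)))
  refine ⟨B, max x₀ x₁, κ, hκ0, fun x hx H v hH => h x (le_trans (le_max_left _ _) hx) H _
    (fun j => ⟨(hH j).1, by have := (hH j).2; omega⟩) (fun j => ⟨fun t ht => ?_, ?_⟩)⟩
  · have h1 := (Finset.mem_Ioc.mp ht).2
    have h2 := (hH j).2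
    omega
  · have h3 : (H₀ : ℝ) ≤ H j := (hx₁ x (le_trans (le_max_right _ _) hx)).trans (hH j).1
    refine hH₀ (H j) (by exact_mod_cast h3) (v j) (H j) (fun k _ hk => ?_) ?_ _ (fun t ht => ?_) ?_
    · rw [Polynomial.eval_X]
      exact ⟨by positivity, by exact_mod_cast hk⟩
    · rw [Polynomial.natDegree_X, pow_one, pow_zero, mul_one]
    · rw [Finset.mem_Ioc] at ht
      refine Finset.mem_image.mpr ⟨t - v j, Finset.mem_Icc.mpr (by omega), ?_⟩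
      rw [Polynomial.eval_X, Int.toNat_natCast]
      omega
    · rw [Nat.card_Ioc, pow_zero, mul_one, Nat.add_sub_cancel_left]

theorem result :
    -- 0. intervals
    (∀ (m K A : ℕ) (ε : ℝ), 0 < ε → ∃ (B x₀ : ℕ) (κ : ℝ), 0 < κ ∧ ∀ x : ℕ, x₀ ≤ x →
      ∀ H v : Fin m → ℕ, (∀ j, (x : ℝ) ^ (1 / 6 + ε) ≤ H j ∧ v j + H j ≤ x) →
        Universal m K A B κ x (fun j => Ioc (v j) (v j + H j))) ∧
    -- 1. short ranges
    (∀ (m K A : ℕ) (F : ℕ → ℕ) (ε : ℝ), 0 < ε → ∃ (b₀ B x₀ : ℕ) (κ : ℝ), 0 < κ ∧ ∀ x : ℕ, x₀ ≤ x →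
      ∀ (H : Fin m → ℕ) (T : Fin m → Finset ℕ), (∀ j, (x : ℝ) ^ (1 / 6 + ε) ≤ H j ∧ H j ≤ x) →
      (∀ j, (∀ t ∈ T j, t ≤ x) ∧ SparseSpectrum F b₀ (H j) (T j)) → Universal m K A B κ x T) ∧
    -- 2. all `x` at once
    (∀ (m A : ℕ) (F : ℕ → ℕ) (ε : ℝ), 0 < ε → ∃ (b₀ x₀ : ℕ) (κ : ℝ), 0 < κ ∧ ∀ X : ℕ, x₀ ≤ X →
      ∀ (H : Fin m → ℕ) (T : Fin m → Finset ℕ), (∀ j, H j ≤ X ∧ ∀ t ∈ T j, t ≤ X) →
      (∀ j, SparseSpectrum F b₀ (H j) (T j)) → ∀ c : ℕ, c ≤ X →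
      ∃ E ⊆ Fintype.piFinset T, (E.card : ℝ) ≤ (∏ j, ((T j).card : ℝ)) / Real.log X ^ A ∧
      ∀ t ∈ Fintype.piFinset T, t ∉ E → Function.Injective (Fin.cons c t : Fin (m + 1) → ℕ) →
        ∀ x : ℕ, X ≤ x → (∀ j, (x : ℝ) ^ (1 / 6 + ε) ≤ H j) →
          HardyLittlewood κ (Fin.cons c t : Fin (m + 1) → ℕ) x (x / Real.log x ^ A)) ∧
    -- 3. every tuple of almost every set of at most `(log X)^K` shifts
    (∀ (m A K : ℕ) (F : ℕ → ℕ) (ε : ℝ), 0 < ε → ∃ (b₀ x₀ : ℕ) (κ : ℝ), 0 < κ ∧ ∀ X : ℕ, x₀ ≤ X →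
      ∀ (H : ℕ) (T : Finset ℕ), (H ≤ X ∧ ∀ t ∈ T, t ≤ X) → SparseSpectrum F b₀ H T →
      ∀ D : ℕ, (D : ℝ) ≤ Real.log X ^ K →
      ∃ Y ⊆ T.powersetCard D, (Y.card : ℝ) ≤ (T.powersetCard D).card / Real.log X ^ A ∧
      ∀ S ∈ T.powersetCard D, S ∉ Y → ∀ f : Fin (m + 1) → ℕ, Function.Injective f → (∀ i, f i ∈ S) →
        ∀ x : ℕ, X ≤ x → (x : ℝ) ^ (1 / 6 + ε) ≤ H → HardyLittlewood κ f x (x / Real.log x ^ A)) ∧
    -- 4. almost all sets of `(log x)^C` shifts are universal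
    (∀ (m K A K' : ℕ) (F : ℕ → ℕ) (ε : ℝ), 0 < ε → ∃ (b₀ B C x₀ : ℕ) (κ : ℝ), 0 < κ ∧ ∀ x : ℕ, x₀ ≤ x →
      ∀ (H D : Fin m → ℕ) (T : Fin m → Finset ℕ),
      (∀ j, (x : ℝ) ^ (1 / 6 + ε) ≤ H j ∧ H j ≤ x ∧ Real.log x ^ C ≤ D j ∧ (D j : ℝ) ≤ Real.log x ^ K') →
      (∀ j, (∀ t ∈ T j, t ≤ H j) ∧ SparseSpectrum F b₀ (H j) (T j)) →
      ∃ Y : Fin m → Finset (Finset ℕ), (∀ j, Y j ⊆ (T j).powersetCard (D j) ∧
        ((Y j).card : ℝ) ≤ ((T j).powersetCard (D j)).card / Real.log x ^ A) ∧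
        ∀ S : Fin m → Finset ℕ, (∀ j, S j ∈ (T j).powersetCard (D j) ∧ S j ∉ Y j) →
        ∀ β : Fin m → ℕ, (∀ j, β j + H j ≤ x) →
          Universal m K A B κ x (fun j => (S j).image (fun s => s + β j))) ∧
    -- 5. sets of multiples are universal
    (∀ (m K A K' : ℕ) (F : ℕ → ℕ) (ε : ℝ), 0 < ε → ∃ (b₀ B C x₀ : ℕ) (κ : ℝ), 0 < κ ∧ ∀ x : ℕ, x₀ ≤ x →
      ∀ (H D : Fin m → ℕ) (T : Fin m → Finset ℕ),
      (∀ j, (x : ℝ) ^ (1 / 6 + ε) ≤ H j ∧ D j * H j ≤ x ∧ (D j : ℝ) ≤ Real.log x ^ K') →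
      (∀ j, (∀ t ∈ T j, 1 ≤ t ∧ t ≤ H j) ∧ SparseSpectrum F b₀ (H j) (T j)) →
      ∃ E : Fin m → Finset ℕ, (∀ j, E j ⊆ T j ∧ ((E j).card : ℝ) ≤ (T j).card / Real.log x ^ A) ∧
        ∀ t : Fin m → ℕ, (∀ j, t j ∈ T j ∧ t j ∉ E j) →
        ∀ Q : Fin m → Finset ℕ, (∀ j, (∀ q ∈ Q j, q ≤ D j) ∧ Real.log x ^ C ≤ (Q j).card) →
        ∀ β : Fin m → ℕ, (∀ j, β j + D j * H j ≤ x) →
          Universal m K A B κ x (fun j => (Q j).image (fun q => q * t j + β j))) ∧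
    -- 6. dense sets of values of polynomials
    (∀ (Q : Polynomial ℤ) (C : ℕ), 1 ≤ Q.natDegree → ∃ F : ℕ → ℕ, ∀ b₀ : ℕ, ∃ H₀ : ℕ, ∀ H : ℕ, H₀ ≤ H →
      ∀ v N : ℕ, (∀ k : ℕ, 1 ≤ k → k ≤ N → 0 ≤ Q.eval (k : ℤ) ∧ Q.eval (k : ℤ) ≤ H) →
      (H : ℝ) ≤ (N : ℝ) ^ Q.natDegree * Real.log H ^ C →
      ∀ T ⊆ (Icc 1 N).image (fun k : ℕ => v + (Q.eval (k : ℤ)).toNat), (N : ℝ) ≤ T.card * Real.log H ^ C →
        SparseSpectrum F b₀ H T) := by
  classical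
  refine ⟨fun m K A ε hε => intervals m K A ε hε, fun m K A F ε hε => part_one m K A F ε hε, ?_, ?_, ?_, ?_, ?_⟩
  · intro m A F ε hε
    obtain ⟨b₀, x₀, h⟩ := fin_b (1 / 6) (1 / 6 + ε) (by norm_num) wne_sixth (by linarith) m A F
    obtain ⟨κ, hκ0, hκ⟩ := sing_lower (m + 1) (by omega)
    refine ⟨b₀, x₀, κ, hκ0, fun X hX H T hHT hT c hc => ?_⟩
    obtain ⟨E, hE1, hE2, hE3⟩ := h X hX H (fun j => (hHT j).1) T (fun j => sub_range (hHT j).2)
      (fun j => (spb_iff F b₀ (H j) (T j)).mp (hT j)) c hc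
    refine ⟨E, hE1, hE2, fun t ht htE hinj x hx hxH => hl_iff κ hκ _ hinj x _ ?_⟩
    exact fun y hy => hE3 t ht htE hinj x hx hxH y hy
  · intro m A K F ε hε
    obtain ⟨b₀, x₀, h⟩ := fin_s (1 / 6) (1 / 6 + ε) (by norm_num) wne_sixth (by linarith) m A K F
    obtain ⟨κ, hκ0, hκ⟩ := sing_lower (m + 1) (by omega)
    refine ⟨b₀, x₀, κ, hκ0, fun X hX H T hHT hT D hD => ?_⟩
    obtain ⟨Y, hY1, hY2, hY3⟩ := h X hX H hHT.1 T (sub_range hHT.2) ((spb_iff F b₀ H T).mp hT) D hD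
    exact ⟨Y, hY1, hY2, fun S hS hSY f hf hfS x hx hxH => hl_iff κ hκ f hf x _ (hY3 S hS hSY f hf hfS x hx hxH)⟩
  · intro m K A K' F ε hε
    obtain ⟨b₀, B, C, h⟩ := fin_c (1 / 6) (1 / 6 + ε) (by norm_num) wne_sixth (by linarith) m K A K' F
    obtain ⟨x₀, hx₀⟩ := eventually_atTop.mp h
    obtain ⟨κ, hκ0, hκ⟩ := sing_lower (m + 1) (by omega)
    refine ⟨b₀, B, C, x₀, κ, hκ0, fun x hx H D T hH hT => ?_⟩
    obtain ⟨X, hX1, hX2⟩ := hx₀ x hx H D T hH (fun j => ⟨sub_range (hT j).1, (spb_iff F b₀ (H j) (T j)).mp (hT j).2⟩)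
    exact ⟨X, hX1, fun S hS β hβ => universal_of m K A B κ hκ x _ (hX2 S hS β hβ)⟩
  · intro m K A K' F ε hε
    obtain ⟨b₀, B, C, h⟩ := fin_d (1 / 6) (1 / 6 + ε) (by norm_num) wne_sixth (by linarith) m K A K' F
    obtain ⟨x₀, hx₀⟩ := eventually_atTop.mp h
    obtain ⟨κ, hκ0, hκ⟩ := sing_lower (m + 1) (by omega)
    refine ⟨b₀, B, C, x₀, κ, hκ0, fun x hx H D T hH hT => ?_⟩
    obtain ⟨E, hE1, hE2⟩ := hx₀ x hx H D T hH (fun j => ⟨fun t ht => Finset.mem_Icc.mpr ((hT j).1 t ht),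
      (spb_iff F b₀ (H j) (T j)).mp (hT j).2⟩)
    refine ⟨E, hE1, fun t ht Q hQ β hβ => ?_⟩
    have h1 := universal_of m K A B κ hκ x _ (hE2 t ht Q (fun j => ⟨sub_range (hQ j).1, (hQ j).2⟩) β hβ)
    have h2 : ∀ j, tr (dil (Q j) (t j)) (β j) = (Q j).image (fun q => q * t j + β j) := by
      intro j
      unfold tr dil
      rw [Finset.image_image]
      refine Finset.image_congr fun q _ => ?_
      simp only [Function.comp_apply, mul_comm]
    simpa only [h2] using h1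
  · exact fun Q C hd => poly_values Q C hd

end Pool.Agent.Results.MP_e87c7d_nt.ShortShifts
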