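import Pool.Agent.Lib.MT.TTwo

/-!
# Hardy-Littlewood lower bounds of the right order inside every set of `η log x` shifts

For every `r ≥ 2` there are `k, c, δ` such that for every `K`, all large `x` and every set `B` of at
least `log log x` integers contained in a window `[a, a + (log x) ^ K]`, `a ≤ x / 4`, the injective
`r`-tuples `b` from `B` with
`#{n ≤ x : all n + b i prime} ≥ c 𝔖(b) x / (log x) ^ r * min(1, |B| / log x) ^ k`
carry at least the proportion `δ` of the (positive) total mass of the singular series over the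
injective `r`-tuples of `B`.
-/

set_option autoImplicit false

open Finset Filter

namespace Pool.Agent.Results.MP_e87c7d_nt.SmallSets

open Pool.Agent.HL Pool.Agent.Lib.Sieve4 Pool.Agent.Lib.MT

theorem nu_eq_card {r : ℕ} (b : Fin r → ℕ) (p : ℕ) :
    nu (fun i => (b i : ℤ)) p = (Finset.univ.image (fun i : Fin r => ((b i : ℕ) : ZMod p))).card := by
  unfold nu
  congr 2
  ext i
  push_cast
  rfl

theorem SS_translate {r : ℕ} (a : ℕ) (b : Fin r → ℕ) :
    SS (fun i => ((a + b i : ℕ) : ℤ)) = SS (fun i => (b i : ℤ)) := by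
  unfold SS
  refine tprod_congr fun p => ?_
  unfold loc
  have : nu (fun i => ((a + b i : ℕ) : ℤ)) p = nu (fun i => (b i : ℤ)) p := by
    unfold nu
    have : (Finset.univ.image (fun i : Fin r => (((a + b i : ℕ) : ℤ) : ZMod p)))
        = (Finset.univ.image (fun i : Fin r => ((b i : ℤ) : ZMod p))).image (fun z => (a : ZMod p) + z) := by
      rw [Finset.image_image]
      congr 1
      ext i
      simp
    rw [this]
    exact Finset.card_image_of_injective _ (add_right_injective _)
  rw [this]

theorem result (r : ℕ) (hr : 2 ≤ r) :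
    ∃ k : ℕ, ∃ c δ : ℝ, 0 < c ∧ 0 < δ ∧ ∀ K : ℕ, ∃ x₀ : ℕ, ∀ x : ℕ, x₀ ≤ x →
      ∀ a : ℕ, 4 * a ≤ x → ∀ B : Finset ℕ, (∀ b ∈ B, a ≤ b ∧ (b : ℝ) ≤ a + (Real.log x) ^ K) →
      Real.log (Real.log x) ≤ B.card →
      ∃ S : (Fin r → ℕ) → ℝ,
        (∀ b : Fin r → ℕ, Function.Injective b →
          HasProd (fun p : Nat.Primes =>
            (1 - ((Finset.univ.image (fun i : Fin r => ((b i : ℕ) : ZMod p))).card : ℝ) / (p : ℝ))
              * ((1 - 1 / (p : ℝ))⁻¹) ^ r) (S b)) ∧
        0 < ∑ b ∈ (Fintype.piFinset (fun _ : Fin r => B)).filter Function.Injective, S b ∧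
        δ * ∑ b ∈ (Fintype.piFinset (fun _ : Fin r => B)).filter Function.Injective, S b ≤
          ∑ b ∈ (Fintype.piFinset (fun _ : Fin r => B)).filter (fun b => Function.Injective b ∧
            c * S b * (x / (Real.log x) ^ r) * (min 1 (B.card / Real.log x)) ^ k ≤
              (((Finset.Icc 1 x).filter (fun n : ℕ => ∀ i, (n + b i).Prime)).card : ℝ)), S b := by
  classical
  obtain ⟨k, c, δ, hc, hδ, h⟩ := t_two r (by omega)
  refine ⟨k, c / 3, δ, by positivity, hδ, fun K => ?_⟩
  obtain ⟨N₀, hN₀⟩ := h (K+1)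
  -- large x
  have hlog : Tendsto (fun x : ℕ => Real.log x) atTop atTop :=
    Real.tendsto_log_atTop.comp tendsto_natCast_atTop_atTop
  have ev1 : ∀ᶠ x : ℕ in atTop, (2:ℝ) ^ K * 2 ≤ Real.log x := hlog.eventually_ge_atTop _
  have ev2 : ∀ᶠ x : ℕ in atTop, (4:ℝ) ≤ Real.log x := hlog.eventually_ge_atTop _
  obtain ⟨x₁, hx₁⟩ := eventually_atTop.mp (ev1.and (ev2.and (eventually_ge_atTop (2 * N₀ + 100))))
  refine ⟨x₁, fun x hx a ha B hB hcard => ?_⟩
  obtain ⟨e1, e2, e3⟩ := hx₁ x hx
  set N : ℕ := x / 2 with hN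
  have hN1 : N₀ ≤ N := by omega
  have hN50 : 50 ≤ N := by omega
  have hxpos : (0:ℝ) < x := by
    have : 0 < x := by omega
    exact_mod_cast this
  have hNpos : (0:ℝ) < N := by exact_mod_cast (by omega : 0 < N)
  have hNx : (N:ℝ) ≤ x := by exact_mod_cast (Nat.div_le_self x 2)
  have hxN : (x:ℝ) ≤ 3 * N := by
    have : x ≤ 3 * N := by omega
    exact_mod_cast this
  have hlogN_le : Real.log N ≤ Real.log x := Real.log_le_log hNpos hNx
  have hlogN_ge : Real.log x / 2 ≤ Real.log N := by
    have h1 : Real.log x ≤ Real.log 3 + Real.log N := by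
      rw [← Real.log_mul (by norm_num) hNpos.ne']
      exact Real.log_le_log hxpos hxN
    have h2 : Real.log 3 ≤ 2 := by
      have : Real.log 3 ≤ 3 - 1 := Real.log_le_sub_one_of_pos (by norm_num)
      linarith
    linarith
  have hlogx0 : 0 < Real.log x := by linarith
  have hlogN0 : 0 < Real.log N := by linarith
  -- the translated set
  set B' : Finset ℕ := B.image (fun b => b - a) with hB'
  have hinjB : Set.InjOn (fun b => b - a) (B : Set ℕ) := by
    intro b hb b' hb' he
    have h1 := (hB b hb).1
    have h2 := (hB b' hb').1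
    simp only at he
    omega
  have hcardB : B'.card = B.card := Finset.card_image_of_injOn hinjB
  have hB'le : ∀ b ∈ B', (b : ℝ) ≤ (Real.log N) ^ (K+1) := by
    intro b hb
    obtain ⟨b₀, hb₀, rfl⟩ := Finset.mem_image.mp hb
    obtain ⟨h1, h2⟩ := hB b₀ hb₀
    have h3 : ((b₀ - a : ℕ) : ℝ) ≤ (Real.log x) ^ K := by
      rw [Nat.cast_sub h1]
      linarith
    refine h3.trans ?_
    have h4 : (Real.log x) ^ K ≤ (2 * Real.log N) ^ K := by
      apply pow_le_pow_left₀ hlogx0.le
      linarith
    rw [mul_pow] at h4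
    refine h4.trans ?_
    rw [pow_succ']
    apply mul_le_mul_of_nonneg_right _ (by positivity)
    linarith
  have hcard' : Real.log (Real.log N) ≤ B'.card := by
    rw [hcardB]
    exact (Real.log_le_log hlogN0 hlogN_le).trans hcard
  obtain ⟨hpos, hmass⟩ := hN₀ N hN1 B' hB'le hcard'
  -- translation of tuples
  set T := (Fintype.piFinset (fun _ : Fin r => B)).filter Function.Injective with hT
  set T' := (Fintype.piFinset (fun _ : Fin r => B')).filter Function.Injective with hT'
  set φ : (Fin r → ℕ) → (Fin r → ℕ) := fun b i => b i - a with hφ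
  set ψ : (Fin r → ℕ) → (Fin r → ℕ) := fun b i => a + b i with hψ
  have hψφ : ∀ b ∈ T, ψ (φ b) = b := by
    intro b hb
    simp only [hT, Finset.mem_filter, Fintype.mem_piFinset] at hb
    funext i
    have := (hB _ (hb.1 i)).1
    simp only [hψ, hφ]
    omega
  have hφψ : ∀ b : Fin r → ℕ, φ (ψ b) = b := by
    intro b
    funext i
    simp only [hψ, hφ]
    omega
  have hφT : ∀ b ∈ T, φ b ∈ T' := by
    intro b hb
    have hb' := hb
    simp only [hT, Finset.mem_filter, Fintype.mem_piFinset] at hb
    simp only [hT', Finset.mem_filter, Fintype.mem_piFinset]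
    refine ⟨fun i => Finset.mem_image_of_mem _ (hb.1 i), ?_⟩
    intro i j hij
    apply hb.2
    have h1 := (hB _ (hb.1 i)).1
    have h2 := (hB _ (hb.1 j)).1
    simp only [hφ] at hij
    omega
  have hψT : ∀ b ∈ T', ψ b ∈ T := by
    intro b hb
    simp only [hT', Finset.mem_filter, Fintype.mem_piFinset] at hb
    simp only [hT, Finset.mem_filter, Fintype.mem_piFinset]
    refine ⟨fun i => ?_, ?_⟩
    · obtain ⟨b₀, hb₀, he⟩ := Finset.mem_image.mp (hb.1 i)
      have := (hB b₀ hb₀).1
      have : a + b i = b₀ := by omega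
      simp only [hψ]
      rw [this]
      exact hb₀
    · intro i j hij
      apply hb.2
      simp only [hψ] at hij
      omega
  have hSSψ : ∀ b : Fin r → ℕ, SS (fun i => ((ψ b i : ℕ) : ℤ)) = SS (fun i => (b i : ℤ)) := by
    intro b
    exact SS_translate a b
  have hSSφ : ∀ b ∈ T, SS (fun i => ((φ b i : ℕ) : ℤ)) = SS (fun i => (b i : ℤ)) := by
    intro b hb
    have := hSSψ (φ b)
    rw [← this, hψφ b hb]
  have hsum : ∑ b ∈ T', SS (fun i => (b i : ℤ)) = ∑ b ∈ T, SS (fun i => (b i : ℤ)) := by
    refine Finset.sum_bij' (fun b _ => ψ b) (fun b _ => φ b) hψT hφT (fun b _ => hφψ b) hψφ ?_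
    intro b _
    exact (hSSψ b).symm
  have hSSnn : ∀ b : Fin r → ℕ, 0 ≤ SS (fun i => (b i : ℤ)) := by
    intro b
    by_cases hb : Function.Injective (fun i => (b i : ℤ))
    · exact SS_nonneg _ (hasProd_SS _ hb)
    · unfold SS
      by_cases hm : Multipliable (fun p : Nat.Primes => loc (fun i => (b i : ℤ)) p)
      · exact SS_nonneg _ hm.hasProd
      · rw [tprod_eq_one_of_not_multipliable hm]
        norm_num
  have hcastinj : ∀ b : Fin r → ℕ, Function.Injective b →
      Function.Injective (fun i => (b i : ℤ)) := by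
    intro b hb i j hij
    apply hb
    simp only at hij
    exact_mod_cast hij
  refine ⟨fun b => SS (fun i => (b i : ℤ)), ?_, ?_, ?_⟩
  · intro b hb
    have := hasProd_SS _ (hcastinj b hb)
    convert this using 2 with p
    unfold loc
    rw [nu_eq_card]
  · rw [← hsum]
    exact hpos
  · rw [← hsum]
    refine hmass.trans ?_
    have hmap : ∀ b ∈ T'.filter (fun b : Fin r → ℕ => c * SS (fun i => (b i : ℤ)) * ((N:ℝ) / (Real.log N) ^ r) *
          (min 1 (B'.card / Real.log N)) ^ k ≤ (piN N b : ℝ)),
        ψ b ∈ (Fintype.piFinset (fun _ : Fin r => B)).filter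
          (fun b : Fin r → ℕ => Function.Injective b ∧
            c / 3 * SS (fun i => (b i : ℤ)) * (x / (Real.log x) ^ r) *
              (min 1 (B.card / Real.log x)) ^ k ≤
              (((Finset.Icc 1 x).filter (fun n : ℕ => ∀ i, (n + b i).Prime)).card : ℝ)) := by
      intro b hb
      rw [Finset.mem_filter] at hb
      obtain ⟨hbT, hb2⟩ := hb
      have h1 := hψT b hbT
      simp only [hT, Finset.mem_filter] at h1
      rw [Finset.mem_filter]
      refine ⟨h1.1, h1.2, ?_⟩
      have e5 : SS (fun i => ((ψ b i : ℕ) : ℤ)) = SS (fun i => (b i : ℤ)) := hSSψ b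
      rw [e5]
      have hcount : (piN N b : ℝ) ≤
          (((Finset.Icc 1 x).filter (fun n : ℕ => ∀ i, (n + ψ b i).Prime)).card : ℝ) := by
        unfold piN
        have : ((Finset.Ioc N (2*N)).filter (fun n => ∀ i, (n + b i).Prime)).card ≤
            ((Finset.Icc 1 x).filter (fun n : ℕ => ∀ i, (n + ψ b i).Prime)).card := by
          refine Finset.card_le_card_of_injOn (fun n => n - a) ?_ ?_
          · intro n hn
            simp only [Finset.coe_filter, Finset.mem_Ioc, Set.mem_setOf_eq] at hn
            simp only [Finset.coe_filter, Finset.mem_Icc, Set.mem_setOf_eq]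
            refine ⟨by omega, fun i => ?_⟩
            have := hn.2 i
            have e6 : n - a + ψ b i = n + b i := by
              simp only [hψ]
              omega
            rw [e6]
            exact this
          · intro n hn n' hn' he
            simp only [Finset.coe_filter, Finset.mem_Ioc, Set.mem_setOf_eq] at hn hn'
            simp only at he
            omega
        exact_mod_cast this
      refine le_trans ?_ (hb2.trans hcount)
      have hS := hSSnn b
      have hmin : min 1 ((B.card : ℝ) / Real.log x) ≤ min 1 ((B'.card : ℝ) / Real.log N) := by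
        rw [hcardB]
        refine min_le_min le_rfl ?_
        exact div_le_div_of_nonneg_left (Nat.cast_nonneg _) hlogN0 hlogN_le
      have hmin0 : 0 ≤ min 1 ((B.card : ℝ) / Real.log x) :=
        le_min (by norm_num) (div_nonneg (Nat.cast_nonneg _) hlogx0.le)
      have hpow : (min 1 ((B.card : ℝ) / Real.log x)) ^ k ≤
          (min 1 ((B'.card : ℝ) / Real.log N)) ^ k := pow_le_pow_left₀ hmin0 hmin k
      have hmainfac : 1 / 3 * ((x:ℝ) / (Real.log x) ^ r) ≤ (N:ℝ) / (Real.log N) ^ r := by
        have h7 : (Real.log N) ^ r ≤ (Real.log x) ^ r := pow_le_pow_left₀ hlogN0.le hlogN_le r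
        have h8 : 0 < (Real.log N) ^ r := by positivity
        calc 1 / 3 * ((x:ℝ) / (Real.log x) ^ r) = (x / 3) / (Real.log x) ^ r := by ring
          _ ≤ N / (Real.log x) ^ r := by
            apply div_le_div_of_nonneg_right _ (by positivity)
            linarith
          _ ≤ N / (Real.log N) ^ r := div_le_div_of_nonneg_left hNpos.le h8 h7
      calc c / 3 * SS (fun i => (b i : ℤ)) * (x / (Real.log x) ^ r) *
              (min 1 (B.card / Real.log x)) ^ k
          = c * SS (fun i => (b i : ℤ)) * (1 / 3 * (x / (Real.log x) ^ r)) *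
              (min 1 (B.card / Real.log x)) ^ k := by ring
        _ ≤ c * SS (fun i => (b i : ℤ)) * ((N:ℝ) / (Real.log N) ^ r) *
              (min 1 (B.card / Real.log x)) ^ k := by
            apply mul_le_mul_of_nonneg_right _ (by positivity)
            apply mul_le_mul_of_nonneg_left hmainfac (by positivity)
        _ ≤ _ := by
            apply mul_le_mul_of_nonneg_left hpow (by positivity)
    calc ∑ b ∈ T'.filter (fun b : Fin r → ℕ => c * SS (fun i => (b i : ℤ)) * ((N:ℝ) / (Real.log N) ^ r) *
          (min 1 (B'.card / Real.log N)) ^ k ≤ (piN N b : ℝ)), SS (fun i => (b i : ℤ))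
        = ∑ b ∈ (T'.filter (fun b : Fin r → ℕ => c * SS (fun i => (b i : ℤ)) * ((N:ℝ) / (Real.log N) ^ r) *
          (min 1 (B'.card / Real.log N)) ^ k ≤ (piN N b : ℝ))).image ψ,
            SS (fun i => (b i : ℤ)) := by
          rw [Finset.sum_image]
          · exact Finset.sum_congr rfl fun b _ => (hSSψ b).symm
          · intro b _ b' _ he
            have := congrArg φ he
            rwa [hφψ, hφψ] at this
      _ ≤ _ := by
          refine Finset.sum_le_sum_of_subset_of_nonneg ?_ (fun b _ _ => hSSnn b)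
          intro b hb
          obtain ⟨b₀, hb₀, rfl⟩ := Finset.mem_image.mp hb
          exact hmap b₀ hb₀

end Pool.Agent.Results.MP_e87c7d_nt.SmallSets
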