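import Pool.Agent.Lib.HLU.PatternC
import Pool.Agent.Lib.VK.Conv
import Pool.Agent.Lib.VK.PolySub

/-!
# The Hardy-Littlewood formula for patterns of shifts from thin sets

`SparseSpectrum F b₀ H T`: `T` is a finite set of integers in `[0, H]` and, for every `b ≤ b₀`, every set of
frequencies which are `1/H`-separated modulo one and at which `|∑_{t ∈ T} e(t θ)| ≥ |T| / (log H)^b` has at
most `(log H)^(F b)` elements.

A pattern is a finite set `P` of cells `(i, j)`, `0 ≤ i ≤ k`, `0 ≤ j ≤ m`; the shift of the cell `(i, j)` is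
`a_i + b_j`, where `a_0 = 0`, `b_0 = c`, `a_i ∈ T_i`, `b_j ∈ T'_j`, and `T_i`, `T'_j` have a sparse spectrum at the
scale `x`.

Part 1: for all but `∏ |T'_j| / (log x)^A` of the `b`, uniformly in `y`, the Hardy-Littlewood formula for the
number of `n ≤ y` with `n + a_i + b_j` prime for all cells of `P` holds on average over `a`, with an error
`x / (log x)^A` for each `a`.
Part 2: arbitrary weights `w n`, if the cell `(0, 0)` is not in `P`: the sum of `w n` over the `n` with all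
`n + a_i + b_j` prime agrees with its sum over the `n` for which these numbers have no small prime factor.
Parts 3 and 4: the spectrum is sparse if the `s`-fold additive energy of `T` is, up to a power of `log H`, as
small as it can be for a set of its size in `[0, H]`; and for every set of at least `K / (log H)^C` of the
values at `1, …, K` of a polynomial with integer coefficients of degree at least 2 (for instance its values at
the primes).
-/

set_option autoImplicit false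

open Finset Filter

namespace Pool.Agent.Results.MP_e87c7d_nt.SparsePatterns

open Pool.Agent.HLB Pool.Agent.HLT Pool.Agent.HLU Pool.Agent.VK
open Pool.Agent.Lib.Sieve4 (c0 c0_pos)

/-- The set `T` lies in `[0, H]` and for every `b ≤ b₀` every set `Θ` of real numbers which are `1 / H`-separated
modulo one and satisfy `|∑ t ∈ T, exp (2 π i t θ)| ≥ |T| / (log H)^b` has at most `(log H)^(F b)` elements. -/
def SparseSpectrum (F : ℕ → ℕ) (b₀ H : ℕ) (T : Finset ℕ) : Prop :=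
  (∀ t ∈ T, t ≤ H) ∧ ∀ b ≤ b₀, ∀ Θ : Finset ℝ,
    (∀ θ ∈ Θ, ∀ θ' ∈ Θ, θ ≠ θ' → ∀ k : ℤ, 1 / (H : ℝ) ≤ |θ - θ' - k|) →
    (∀ θ ∈ Θ, (T.card : ℝ) ≤ Real.log H ^ b *
      ‖∑ t ∈ T, Complex.exp (2 * Real.pi * Complex.I * (t * θ))‖) →
    (Θ.card : ℝ) ≤ Real.log H ^ F b

/-- The shift `a_i + b_j` of the cell `(i, j)`, where `a_0 = 0` and `b_0 = c`. -/
def sft {k m : ℕ} (c : ℕ) (a : Fin k → ℕ) (b : Fin m → ℕ) (p : Fin (k + 1) × Fin (m + 1)) : ℕ :=
  (Fin.cons 0 a : Fin (k + 1) → ℕ) p.1 + (Fin.cons c b : Fin (m + 1) → ℕ) p.2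

/-- The factor at the prime `q` of the singular series of the shifts `f p`, `p ∈ P`. -/
noncomputable def factor {κ : Type} (P : Finset κ) (f : κ → ℕ) (q : ℕ) : ℝ :=
  (1 - ((P.image (fun p => (f p : ZMod q))).card : ℝ) / (q : ℝ)) *
    ((1 - 1 / (q : ℝ))⁻¹) ^ P.card

/-- `1 / ((log n) ∏_{q ≤ z} (1 - 1 / q))` if `n` has no prime factor `q ≤ z`, and `0` otherwise. -/
noncomputable def model (z n : ℕ) : ℝ :=
  if ∀ q ∈ Nat.primesLE z, ¬ q ∣ n then
    (∏ q ∈ Nat.primesLE z, (1 - 1 / (q : ℝ)))⁻¹ / Real.log n else 0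

lemma sep_iff (H : ℕ) (Θ : Finset ℝ) :
    (∀ θ ∈ Θ, ∀ θ' ∈ Θ, θ ≠ θ' → ∀ k : ℤ, 1 / (H : ℝ) ≤ |θ - θ' - k|) ↔ VK.Sep H Θ := by
  unfold VK.Sep
  refine forall_congr' fun θ => forall_congr' fun _ => forall_congr' fun θ' => forall_congr' fun _ =>
    forall_congr' fun _ => ?_
  constructor
  · intro h
    exact h (round (θ - θ'))
  · intro h k
    exact h.trans (round_le (θ - θ') k)

lemma norm_WW (T : Finset ℕ) (θ : ℝ) :
    ‖∑ t ∈ T, Complex.exp (2 * Real.pi * Complex.I * (t * θ))‖ = ‖WW T θ‖ := by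
  unfold WW ex
  congr 1
  refine Finset.sum_congr rfl fun t _ => ?_
  congr 1
  push_cast
  ring

lemma spa_iff (F : ℕ → ℕ) (b₀ H : ℕ) (T : Finset ℕ) : SparseSpectrum F b₀ H T ↔ SpA F b₀ H T := by
  unfold SparseSpectrum SpA
  refine and_congr ?_ ?_
  · constructor
    · intro h t ht
      rw [Finset.mem_range]
      have := h t ht
      omega
    · intro h t ht
      have := Finset.mem_range.mp (h ht)
      omega
  · refine forall_congr' fun b => forall_congr' fun _ => forall_congr' fun Θ => ?_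
    rw [sep_iff]
    simp only [norm_WW]

lemma spc_of_sparse (F : ℕ → ℕ) (b₀ : ℕ) : ∃ x₀ : ℕ, ∀ x : ℕ, x₀ ≤ x → ∀ T : Finset ℕ,
    SparseSpectrum F b₀ x T → SpC (fun b => F b + 1) b₀ x T := by
  obtain ⟨x₀, h⟩ := spc_of_spa F b₀
  exact ⟨x₀, fun x hx T hT => h x hx T ((spa_iff F b₀ x T).mp hT)⟩

lemma image_eq {κ : Type} [DecidableEq κ] (P : Finset κ) (f : κ → ℕ) (q : ℕ) :
    (P.image (fun p => (f p : ZMod q))).card = nuI (fun p : P => f p) q := by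
  unfold nuI
  refine congrArg Finset.card (Finset.ext fun u => ?_)
  simp only [Finset.mem_image, Finset.mem_univ, true_and, Subtype.exists, exists_prop]

lemma factor_eq {κ : Type} [DecidableEq κ] (P : Finset κ) (f : κ → ℕ) (q : ℕ) :
    factor P f q = locI (fun p : P => f p) q := by
  unfold factor locI
  rw [Fintype.card_coe, ← image_eq]

lemma model_eq (z n : ℕ) : model z n = G1 z n := by
  unfold model G1 nuz ic DZ
  split_ifs
  · rw [mul_one, mul_one_div]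
  · rw [mul_zero, zero_mul]

/-- The singular series of distinct shifts is bounded below, if it does not vanish. -/
lemma sing_lower (κ' : Type) [Fintype κ'] : ∃ κ : ℝ, 0 < κ ∧ ∀ f : κ' → ℕ, Function.Injective f →
    (∀ q : ℕ, q.Prime → nuI f q < q) → κ ≤ SI f := by
  classical
  rcases Nat.eq_zero_or_pos (Fintype.card κ') with h0 | h0
  · refine ⟨1, one_pos, fun f hf _ => ?_⟩
    have h1 := hasProd_SI f hf
    have h2 : ∀ q : Nat.Primes, locI f q = 1 := by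
      intro q
      have h3 : nuI f q = 0 := by
        have := nuI_le f q
        omega
      unfold locI
      rw [h3, h0]
      simp
    have h4 : HasProd (fun q : Nat.Primes => locI f q) 1 := by
      simp only [h2]
      exact hasProd_one
    exact (h4.unique h1).le
  · exact ⟨c0 (Fintype.card κ'), c0_pos _ h0, fun f hf hadm => c0_le_SI f hf h0 hadm⟩

/-- Part 1. -/
theorem part1 (k m A : ℕ) (P : Finset (Fin (k + 1) × Fin (m + 1))) (F : ℕ → ℕ) :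
    ∃ (b₀ x₀ : ℕ) (κ : ℝ), 0 < κ ∧ ∀ x : ℕ, x₀ ≤ x →
      ∀ (T : Fin k → Finset ℕ) (T' : Fin m → Finset ℕ), (∀ i, SparseSpectrum F b₀ x (T i)) →
      (∀ j, SparseSpectrum F b₀ x (T' j)) → ∀ c : ℕ, c ≤ x →
      ∃ E ⊆ Fintype.piFinset T', (E.card : ℝ) ≤ (∏ j, ((T' j).card : ℝ)) / Real.log x ^ A ∧
      ∀ b ∈ Fintype.piFinset T', b ∉ E → ∃ S : (Fin k → ℕ) → ℝ,
        (∀ a : Fin k → ℕ, Set.InjOn (sft c a b) P →
          HasProd (fun q : Nat.Primes => factor P (sft c a b) q) (S a) ∧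
          ((∀ q : ℕ, q.Prime → (P.image (fun p => (sft c a b p : ZMod q))).card < q) →
            κ ≤ S a)) ∧
        ∀ y : ℕ, y ≤ x → (∀ i, ∀ a ∈ T i, y + a ≤ x) →
        ∀ D : Finset (Fin k → ℕ),
          (∀ a, a ∈ D ↔ a ∈ Fintype.piFinset T ∧ Set.InjOn (sft c a b) P) →
          |∑ a ∈ D, ((((Icc 1 y).filter (fun n : ℕ => ∀ p ∈ P, (n + sft c a b p).Prime)).card : ℝ)
            - S a * ∑ n ∈ Icc 2 y, ∏ p ∈ P, 1 / Real.log ((n + sft c a b p : ℕ) : ℝ))| ≤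
          (∏ i, ((T i).card : ℝ)) * (x / Real.log x ^ A) := by
  classical
  obtain ⟨b₀, hb⟩ := pattern_count k m A P (fun b => F b + 1)
  obtain ⟨x₁, hx₁⟩ := spc_of_sparse F b₀
  obtain ⟨x₂, hx₂⟩ := eventually_atTop.mp hb
  obtain ⟨κ, hκ0, hκ⟩ := sing_lower P
  refine ⟨b₀, max x₁ x₂, κ, hκ0, fun x hx T T' hT hT' c hc => ?_⟩
  have hxx₁ : x₁ ≤ x := le_trans (le_max_left _ _) hx
  obtain ⟨E, hE1, hE2, hE3⟩ := hx₂ x (le_trans (le_max_right _ _) hx) T (fun i => hx₁ x hxx₁ (T i) (hT i)) T'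
    (fun j => hx₁ x hxx₁ (T' j) (hT' j)) c hc
  refine ⟨E, hE1, hE2, fun b hb hbE => ⟨fun a => SI (fun p : P => sft c a b p), ?_, ?_⟩⟩
  · intro a ha
    have hinj : Function.Injective (fun p : P => sft c a b p) := fun p q hpq =>
      Subtype.ext (ha (Finset.mem_coe.mpr p.2) (Finset.mem_coe.mpr q.2) hpq)
    refine ⟨?_, fun hadm => hκ _ hinj fun q hq => ?_⟩
    · have h1 := hasProd_SI (fun p : P => sft c a b p) hinj
      simp only [factor_eq]
      exact h1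
    · have h2 := hadm q hq
      rwa [image_eq] at h2
  · intro y hy hy2 D hD
    have h1 := hE3 b hb hbE D (fun a => by
      rw [hD, sh_inj]
      rfl) y hy hy2
    refine le_trans (le_of_eq ?_) h1
    congr 1
    refine Finset.sum_congr rfl fun a _ => ?_
    congr 1
    · congr 2
      refine Finset.filter_congr fun n _ => ?_
      constructor
      · intro h p
        exact h p p.2
      · intro h p hp
        exact h ⟨p, hp⟩
    · congr 1
      refine Finset.sum_congr rfl fun n _ => ?_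
      unfold hl
      rw [← Finset.prod_coe_sort P (fun p => 1 / Real.log ((n + sft c a b p : ℕ) : ℝ))]
      rfl

/-- Part 2. -/
theorem part2 (k m K A : ℕ) (P : Finset (Fin (k + 1) × Fin (m + 1)))
    (hP : ((0 : Fin (k + 1)), (0 : Fin (m + 1))) ∉ P) (F : ℕ → ℕ) :
    ∃ b₀ B x₀ : ℕ, ∀ x : ℕ, x₀ ≤ x →
      ∀ (T : Fin k → Finset ℕ) (T' : Fin m → Finset ℕ), (∀ i, SparseSpectrum F b₀ x (T i)) →
      (∀ j, SparseSpectrum F b₀ x (T' j)) → ∀ c : ℕ, c ≤ x →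
      ∀ w : ℕ → ℂ, (∀ n : ℕ, 1 ≤ n → n ≤ x → ‖w n‖ ≤ Real.log x ^ K) →
      ∃ E ⊆ Fintype.piFinset T', (E.card : ℝ) ≤ (∏ j, ((T' j).card : ℝ)) / Real.log x ^ A ∧
      ∀ b ∈ Fintype.piFinset T', b ∉ E → ∀ y : ℕ, y ≤ x → (∀ i, ∀ a ∈ T i, y + a ≤ x) →
        ‖∑ a ∈ Fintype.piFinset T,
            (∑ n ∈ (Icc 1 y).filter (fun n : ℕ => ∀ p ∈ P, (n + sft c a b p).Prime), w n -
              ∑ n ∈ Icc 1 y, w n * ∏ p ∈ P,
                (model ⌊Real.log x ^ B⌋₊ (n + sft c a b p) : ℂ))‖ ≤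
          (∏ i, ((T i).card : ℝ)) * (x / Real.log x ^ A) := by
  classical
  obtain ⟨b₀, B, hb⟩ := pattern_w k m K A P hP (fun b => F b + 1)
  obtain ⟨x₁, hx₁⟩ := spc_of_sparse F b₀
  obtain ⟨A', _, hSN⟩ := sn_exists 0 B
  obtain ⟨x₂, hx₂⟩ := eventually_atTop.mp ((hb A').and hSN)
  refine ⟨b₀, A', max x₁ x₂, fun x hx T T' hT hT' c hc w hw => ?_⟩
  have hxx₁ : x₁ ≤ x := le_trans (le_max_left _ _) hx
  obtain ⟨h1, h2⟩ := hx₂ x (le_trans (le_max_right _ _) hx)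
  obtain ⟨E, hE1, hE2, hE3⟩ := h1 h2 T (fun i => hx₁ x hxx₁ (T i) (hT i)) T'
    (fun j => hx₁ x hxx₁ (T' j) (hT' j)) c hc w (fun n hn => by
      rw [mem_Icc] at hn
      exact hw n hn.1 hn.2)
  refine ⟨E, hE1, hE2, fun b hb hbE y hy hy2 => ?_⟩
  refine le_trans (le_of_eq ?_) (hE3 b hb hbE y hy hy2)
  congr 1
  refine Finset.sum_congr rfl fun a _ => ?_
  rw [Finset.sum_filter, ← Finset.sum_sub_distrib]
  refine Finset.sum_congr rfl fun n _ => ?_
  have e1 : (∏ p ∈ P, G0 (n + sft c a b p) : ℝ) =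
      if ∀ p ∈ P, (n + sft c a b p).Prime then 1 else 0 := by
    unfold G0
    by_cases h : ∀ p ∈ P, (n + sft c a b p).Prime
    · rw [if_pos h]
      exact Finset.prod_eq_one fun p hp => if_pos (h p hp)
    · rw [if_neg h]
      push Not at h
      obtain ⟨p, hp, hp2⟩ := h
      exact Finset.prod_eq_zero hp (if_neg hp2)
  have e2 : (∏ p ∈ P, (model ⌊Real.log x ^ A'⌋₊ (n + sft c a b p) : ℂ)) =
      ((∏ p ∈ P, G1 (zA A' x) (n + sft c a b p) : ℝ) : ℂ) := by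
    push_cast
    refine Finset.prod_congr rfl fun p _ => ?_
    rw [model_eq]
    rfl
  have e3 : (∏ p ∈ P, G0 (n + ((Fin.cons 0 a : Fin (k + 1) → ℕ) p.1 +
            (Fin.cons c b : Fin (m + 1) → ℕ) p.2)) : ℝ) = ∏ p ∈ P, G0 (n + sft c a b p) := rfl
  have e4 : (∏ p ∈ P, G1 (zA A' x) (n + ((Fin.cons 0 a : Fin (k + 1) → ℕ) p.1 +
            (Fin.cons c b : Fin (m + 1) → ℕ) p.2)) : ℝ) =
      ∏ p ∈ P, G1 (zA A' x) (n + sft c a b p) := rfl
  rw [e2, e3, e4, e1]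
  split_ifs
  · push_cast
    ring
  · push_cast
    ring

theorem result :
    (∀ (k m A : ℕ) (P : Finset (Fin (k + 1) × Fin (m + 1))) (F : ℕ → ℕ),
      ∃ (b₀ x₀ : ℕ) (κ : ℝ), 0 < κ ∧ ∀ x : ℕ, x₀ ≤ x →
      ∀ (T : Fin k → Finset ℕ) (T' : Fin m → Finset ℕ), (∀ i, SparseSpectrum F b₀ x (T i)) →
      (∀ j, SparseSpectrum F b₀ x (T' j)) → ∀ c : ℕ, c ≤ x →
      ∃ E ⊆ Fintype.piFinset T', (E.card : ℝ) ≤ (∏ j, ((T' j).card : ℝ)) / Real.log x ^ A ∧
      ∀ b ∈ Fintype.piFinset T', b ∉ E → ∃ S : (Fin k → ℕ) → ℝ,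
        (∀ a : Fin k → ℕ, Set.InjOn (sft c a b) P →
          HasProd (fun q : Nat.Primes => factor P (sft c a b) q) (S a) ∧
          ((∀ q : ℕ, q.Prime → (P.image (fun p => (sft c a b p : ZMod q))).card < q) →
            κ ≤ S a)) ∧
        ∀ y : ℕ, y ≤ x → (∀ i, ∀ a ∈ T i, y + a ≤ x) →
        ∀ D : Finset (Fin k → ℕ),
          (∀ a, a ∈ D ↔ a ∈ Fintype.piFinset T ∧ Set.InjOn (sft c a b) P) →
          |∑ a ∈ D, ((((Icc 1 y).filter (fun n : ℕ => ∀ p ∈ P, (n + sft c a b p).Prime)).card : ℝ)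
            - S a * ∑ n ∈ Icc 2 y, ∏ p ∈ P, 1 / Real.log ((n + sft c a b p : ℕ) : ℝ))| ≤
          (∏ i, ((T i).card : ℝ)) * (x / Real.log x ^ A)) ∧
    (∀ (k m K A : ℕ) (P : Finset (Fin (k + 1) × Fin (m + 1))),
      ((0 : Fin (k + 1)), (0 : Fin (m + 1))) ∉ P → ∀ F : ℕ → ℕ,
      ∃ b₀ B x₀ : ℕ, ∀ x : ℕ, x₀ ≤ x →
      ∀ (T : Fin k → Finset ℕ) (T' : Fin m → Finset ℕ), (∀ i, SparseSpectrum F b₀ x (T i)) →
      (∀ j, SparseSpectrum F b₀ x (T' j)) → ∀ c : ℕ, c ≤ x →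
      ∀ w : ℕ → ℂ, (∀ n : ℕ, 1 ≤ n → n ≤ x → ‖w n‖ ≤ Real.log x ^ K) →
      ∃ E ⊆ Fintype.piFinset T', (E.card : ℝ) ≤ (∏ j, ((T' j).card : ℝ)) / Real.log x ^ A ∧
      ∀ b ∈ Fintype.piFinset T', b ∉ E → ∀ y : ℕ, y ≤ x → (∀ i, ∀ a ∈ T i, y + a ≤ x) →
        ‖∑ a ∈ Fintype.piFinset T,
            (∑ n ∈ (Icc 1 y).filter (fun n : ℕ => ∀ p ∈ P, (n + sft c a b p).Prime), w n -
              ∑ n ∈ Icc 1 y, w n * ∏ p ∈ P,
                (model ⌊Real.log x ^ B⌋₊ (n + sft c a b p) : ℂ))‖ ≤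
          (∏ i, ((T i).card : ℝ)) * (x / Real.log x ^ A)) ∧
    (∀ s C : ℕ, 1 ≤ s → ∃ F : ℕ → ℕ, ∀ b₀ : ℕ, ∃ H₀ : ℕ, ∀ H : ℕ, H₀ ≤ H →
      ∀ T : Finset ℕ, T.Nonempty → (∀ t ∈ T, t ≤ H) →
        (H : ℝ) * ((Fintype.piFinset (fun _ : Fin s => T) ×ˢ
            Fintype.piFinset (fun _ : Fin s => T)).filter
              (fun u => ∑ i, u.1 i = ∑ i, u.2 i)).card ≤
            (T.card : ℝ) ^ (2 * s) * Real.log H ^ C →
        SparseSpectrum F b₀ H T) ∧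
    (∀ (P : Polynomial ℤ) (C : ℕ), 2 ≤ P.natDegree → ∃ F : ℕ → ℕ, ∀ b₀ : ℕ, ∃ H₀ : ℕ, ∀ H : ℕ,
      H₀ ≤ H → ∀ K : ℕ, (∀ k : ℕ, 1 ≤ k → k ≤ K → 0 ≤ P.eval (k : ℤ) ∧ P.eval (k : ℤ) ≤ H) →
        (H : ℝ) ≤ (K : ℝ) ^ P.natDegree * Real.log H ^ C →
        ∀ T ⊆ (Icc 1 K).image (fun k : ℕ => (P.eval (k : ℤ)).toNat), (K : ℝ) ≤ T.card * Real.log H ^ C →
        SparseSpectrum F b₀ H T) := by
  refine ⟨part1, part2, fun s C hs => ⟨fun b => 2 * s * b + C + 1, fun b₀ => ?_⟩,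
    fun P C hd => ?_⟩
  · obtain ⟨H₀, hH₀⟩ := eventually_atTop.mp (sps_of_energy s C hs)
    refine ⟨max H₀ 1, fun H hH T hT0 hT hE => ?_⟩
    rw [spa_iff]
    refine hH₀ H (le_trans (le_max_left _ _) hH) H T (le_trans (le_max_right _ _) hH) hT0 (fun t ht => ?_) ?_ b₀
    · rw [Finset.mem_range]
      have := hT t ht
      omega
    · unfold energy
      exact hE
  · obtain ⟨F, hF⟩ := poly_sub P hd C
    refine ⟨F, fun b₀ => ?_⟩
    obtain ⟨H₀, hH₀⟩ := eventually_atTop.mp (hF b₀)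
    refine ⟨H₀, fun H hH K hK1 hK2 T hT hTc => ?_⟩
    rw [spa_iff]
    exact hH₀ H hH K (fun k hk => hK1 k (Finset.mem_Icc.mp hk).1 (Finset.mem_Icc.mp hk).2) hK2 T hT hTc

end Pool.Agent.Results.MP_e87c7d_nt.SparsePatterns
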