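import Pool.Agent.Lib.HLT.FinalPoly
import Pool.Agent.Lib.HL.PntAux

/-!
# The Hardy-Littlewood asymptotic formula for almost all tuples of shifts from thin sets

`PolylogSpectrum F b₀ x T`: `T` is a finite set of integers in `[0, x]` and, for every `b ≤ b₀`, at most
`(log x)^(F b)` of the `4 x + 1` frequencies `k / (4 x + 1)`, `0 ≤ k ≤ 4 x`, satisfy
`|∑_{t ∈ T} e(t k / (4 x + 1))| ≥ |T| / (log x)^b`. There is no lower bound for the size of `T` besides the
one implied by this condition, which sets with a power of `log x` elements can satisfy.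

Part 1: for such sets `T_1, …, T_m` and every `c ≤ x`, all but `∏ |T_i| / (log x)^A` of the tuples
`t ∈ ∏ T_i` satisfy the Hardy-Littlewood asymptotic formula for the `m + 1` shifts `c, t_1, …, t_m`.
Parts 2 and 3: the condition holds if the `s`-fold additive energy of `T` is, up to a power of `log x`, as
small as it can be for a set of its size in `[0, x]`, and for the set of the values in `[0, x]` of a
polynomial with integer coefficients of degree at least 2.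
-/

set_option autoImplicit false

open Finset Filter

namespace Pool.Agent.Results.MP_e87c7d_nt.SparseShifts

open Pool.Agent.HLB Pool.Agent.HLT
open Pool.Agent.Lib.Sieve4 (c0_pos)

/-- The set `T` lies in `[0, x]` and for every `b ≤ b₀` at most `(log x)^(F b)` of the frequencies
`θ = k / (4 x + 1)`, `0 ≤ k ≤ 4 x`, satisfy `|∑ t ∈ T, exp (2 π i t θ)| ≥ |T| / (log x)^b`. -/
def PolylogSpectrum (F : ℕ → ℕ) (b₀ x : ℕ) (T : Finset ℕ) : Prop :=
  (∀ t ∈ T, t ≤ x) ∧ ∀ b ≤ b₀,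
    (Set.ncard {k : ℕ | k ≤ 4 * x ∧ (T.card : ℝ) ≤ Real.log x ^ b *
      ‖∑ t ∈ T, Complex.exp (2 * Real.pi * Complex.I * (t * (k / (4 * x + 1))))‖} : ℝ) ≤
      Real.log x ^ F b

/-- If the `r` shifts `a` are distinct and admissible then their singular series converges to a
positive number `S`, and the number of `n` with `1 ≤ n ≤ x` and all `n + a i` prime differs from
`S x / (log x)^r` by at most `ε S x / (log x)^r`. -/
def Asymptotic (ε : ℝ) (x : ℕ) {r : ℕ} (a : Fin r → ℕ) : Prop :=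
  Function.Injective a →
  (∀ p : ℕ, p.Prime → (Finset.univ.image (fun i : Fin r => (a i : ZMod p))).card < p) →
  ∃ S : ℝ, 0 < S ∧ HasProd (fun p : Nat.Primes =>
    (1 - ((Finset.univ.image (fun i : Fin r => (a i : ZMod p))).card : ℝ) / (p : ℝ)) *
      ((1 - 1 / (p : ℝ))⁻¹) ^ r) S ∧
  |(((Finset.Icc 1 x).filter (fun n : ℕ => ∀ i, (n + a i).Prime)).card : ℝ) -
    S * (x / Real.log x ^ r)| ≤ ε * (S * (x / Real.log x ^ r))

lemma ncard_eq (x : ℕ) (T : Finset ℕ) (L : ℝ) :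
    Set.ncard {k : ℕ | k ≤ 4 * x ∧ (T.card : ℝ) ≤ L *
      ‖∑ t ∈ T, Complex.exp (2 * Real.pi * Complex.I * (t * (k / (4 * x + 1))))‖} =
      (Spec (4 * x + 1) T L).card := by
  classical
  refine Eq.trans ?_ (Set.ncard_coe_finset (Spec (4 * x + 1) T L))
  refine congrArg Set.ncard (Set.ext fun k => ?_)
  have e : ‖∑ t ∈ T, Complex.exp (2 * Real.pi * Complex.I * (t * (k / (4 * x + 1))))‖ =
      ‖WW T ((k : ℝ) / ((4 * x + 1 : ℕ) : ℝ))‖ := by
    unfold WW ex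
    congr 1
    refine Finset.sum_congr rfl fun t _ => ?_
    congr 1
    push_cast
    ring
  simp only [Set.mem_ofPred_eq, Spec, Finset.coe_filter, Finset.mem_range, e, Nat.lt_succ_iff]

lemma spc_iff (F : ℕ → ℕ) (b₀ x : ℕ) (T : Finset ℕ) : PolylogSpectrum F b₀ x T ↔ SpC F b₀ x T := by
  unfold PolylogSpectrum SpC
  refine and_congr ?_ ?_
  · constructor
    · intro h t ht
      rw [Finset.mem_range]
      have := h t ht
      omega
    · intro h t ht
      have := Finset.mem_range.mp (h ht)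
      omega
  · refine forall_congr' fun b => forall_congr' fun _ => ?_
    rw [ncard_eq]

lemma asymptotic_of (ε : ℝ) (x m : ℕ) (a : Fin (m + 1) → ℕ)
    (h : Function.Injective a → (∀ p : ℕ, p.Prime → nuI a p < p) →
      |(piT x a : ℝ) - SI a * (x / Real.log x ^ (m + 1))| ≤
        ε * (SI a * (x / Real.log x ^ (m + 1)))) : Asymptotic ε x a := by
  intro hinj hadm
  have h2 := hasProd_SI a hinj
  unfold locI nuI at h2
  rw [Fintype.card_fin] at h2
  have h1 : 1 ≤ Fintype.card (Fin (m + 1)) := by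
    rw [Fintype.card_fin]
    omega
  refine ⟨SI a, (c0_pos _ h1).trans_le (c0_le_SI a hinj h1 hadm), h2, ?_⟩
  have h3 := h hinj hadm
  unfold piT at h3
  convert h3 using 5

theorem result :
    (∀ (m A : ℕ) (F : ℕ → ℕ), ∃ b₀ : ℕ, ∀ ε : ℝ, 0 < ε → ∃ x₀ : ℕ, ∀ x : ℕ, x₀ ≤ x →
      ∀ T : Fin m → Finset ℕ, (∀ i, PolylogSpectrum F b₀ x (T i)) → ∀ c : ℕ, c ≤ x →
        ∃ E ⊆ Fintype.piFinset T, (E.card : ℝ) ≤ (∏ i, ((T i).card : ℝ)) / Real.log x ^ A ∧
          ∀ t ∈ Fintype.piFinset T, t ∉ E → Asymptotic ε x (Fin.cons c t : Fin (m + 1) → ℕ)) ∧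
    (∀ s C : ℕ, 1 ≤ s → ∃ F : ℕ → ℕ, ∀ b₀ : ℕ, ∃ x₀ : ℕ, ∀ x : ℕ, x₀ ≤ x →
      ∀ T : Finset ℕ, T.Nonempty → (∀ t ∈ T, t ≤ x) →
        (x : ℝ) * ((Fintype.piFinset (fun _ : Fin s => T) ×ˢ
            Fintype.piFinset (fun _ : Fin s => T)).filter
              (fun u => ∑ i, u.1 i = ∑ i, u.2 i)).card ≤
            (T.card : ℝ) ^ (2 * s) * Real.log x ^ C →
        PolylogSpectrum F b₀ x T) ∧
    (∀ (P : Polynomial ℤ) (C : ℕ), 2 ≤ P.natDegree → ∃ F : ℕ → ℕ, ∀ b₀ : ℕ, ∃ x₀ : ℕ, ∀ x : ℕ,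
      x₀ ≤ x → ∀ K : ℕ, (∀ k : ℕ, 1 ≤ k → k ≤ K → 0 ≤ P.eval (k : ℤ) ∧ P.eval (k : ℤ) ≤ x) →
        (x : ℝ) ≤ (K : ℝ) ^ P.natDegree * Real.log x ^ C →
        PolylogSpectrum F b₀ x ((Icc 1 K).image (fun k : ℕ => (P.eval (k : ℤ)).toNat))) := by
  refine ⟨fun m A F => ?_, fun s C hs => ⟨fun b => 2 * s * b + C + 1, fun b₀ => ?_⟩,
    fun P C hd => ?_⟩
  · obtain ⟨b₀, hb⟩ := hl_spec m A F
    refine ⟨b₀, fun ε hε => ?_⟩
    obtain ⟨x₀, hx₀⟩ := eventually_atTop.mp (hb ε hε)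
    refine ⟨x₀, fun x hx T hT c hc => ?_⟩
    obtain ⟨E, hE1, hE2, hE3⟩ := hx₀ x hx T (fun i => (spc_iff F b₀ x (T i)).mp (hT i)) c hc
    exact ⟨E, hE1, hE2, fun t ht htE => asymptotic_of ε x m _ (hE3 t ht htE)⟩
  · obtain ⟨x₀, hx₀⟩ := eventually_atTop.mp (spec_of_energy s C hs)
    refine ⟨x₀, fun x hx T hT0 hT hE => ?_⟩
    rw [spc_iff]
    refine hx₀ x hx T hT0 ⟨fun t ht => ?_, ?_⟩ b₀
    · rw [Finset.mem_range]
      have := hT t ht
      omega
    · unfold energy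
      exact hE
  · obtain ⟨F, hF⟩ := poly_spec P hd C
    refine ⟨F, fun b₀ => ?_⟩
    obtain ⟨x₀, hx₀⟩ := eventually_atTop.mp (hF b₀)
    refine ⟨x₀, fun x hx K hK1 hK2 => ?_⟩
    rw [spc_iff]
    exact hx₀ x hx K (fun k hk => hK1 k (Finset.mem_Icc.mp hk).1 (Finset.mem_Icc.mp hk).2) hK2

end Pool.Agent.Results.MP_e87c7d_nt.SparseShifts
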